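import Mathlib

set_option autoImplicit false
set_option linter.unusedSimpArgs false

namespace Pool.Agent.Helper74

/-- Alternative law as a mixin. -/
class IsAlt (A : Type*) [NonUnitalNonAssocRing A] : Prop where
  left_alt : ∀ a b : A, (a * a) * b = a * (a * b)
  right_alt : ∀ a b : A, (b * a) * a = b * (a * a)

section basic

variable {A : Type*} [NonUnitalNonAssocRing A]

/-- the associator -/
def as (a b c : A) : A := (a * b) * c - a * (b * c)

theorem as_def (a b c : A) : as a b c = (a * b) * c - a * (b * c) := rfl

theorem as_add1 (a b c d : A) : as (a + b) c d = as a c d + as b c d := by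
  simp only [as, add_mul, mul_add]; abel

theorem as_add2 (a b c d : A) : as a (b + c) d = as a b d + as a c d := by
  simp only [as, add_mul, mul_add]; abel

theorem as_add3 (a b c d : A) : as a b (c + d) = as a b c + as a b d := by
  simp only [as, add_mul, mul_add]; abel

theorem as_sub1 (a b c d : A) : as (a - b) c d = as a c d - as b c d := by
  simp only [as, sub_mul, mul_sub]; abel

theorem as_sub2 (a b c d : A) : as a (b - c) d = as a b d - as a c d := by
  simp only [as, sub_mul, mul_sub]; abel

theorem as_sub3 (a b c d : A) : as a b (c - d) = as a b c - as a b d := by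
  simp only [as, sub_mul, mul_sub]; abel

theorem as_neg1 (a b c : A) : as (-a) b c = - as a b c := by
  simp only [as, neg_mul, mul_neg]; abel

theorem as_neg2 (a b c : A) : as a (-b) c = - as a b c := by
  simp only [as, neg_mul, mul_neg]; abel

theorem as_neg3 (a b c : A) : as a b (-c) = - as a b c := by
  simp only [as, mul_neg]; abel

@[simp] theorem as_zero1 (b c : A) : as 0 b c = 0 := by simp [as]
@[simp] theorem as_zero2 (b c : A) : as b 0 c = 0 := by simp [as]
@[simp] theorem as_zero3 (b c : A) : as b c 0 = 0 := by simp [as]

theorem teich (w x y z : A) :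
    as (w * x) y z - as w (x * y) z + as w x (y * z) = w * as x y z + as w x y * z := by
  simp only [as, mul_sub, sub_mul]; abel

/-- Kleinfeld function -/
def kf (w x y z : A) : A := as (w * x) y z - x * as w y z - as x y z * w

theorem kf_add1 (a b x y z : A) : kf (a + b) x y z = kf a x y z + kf b x y z := by
  simp only [kf, as_add1, add_mul, mul_add]; abel

theorem kf_add2 (w a b y z : A) : kf w (a + b) y z = kf w a y z + kf w b y z := by
  simp only [kf, as_add1, add_mul, mul_add]; abel

theorem kf_add3 (w x a b z : A) : kf w x (a + b) z = kf w x a z + kf w x b z := by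
  simp only [kf, as_add2, add_mul, mul_add]; abel

theorem kf_add4 (w x y a b : A) : kf w x y (a + b) = kf w x y a + kf w x y b := by
  simp only [kf, as_add3, add_mul, mul_add]; abel

/-- commutator -/
def cm (a b : A) : A := a * b - b * a

/-- anticommutator (Jordan product) -/
def jo (a b : A) : A := a * b + b * a

end basic

section alt

variable {A : Type*} [NonUnitalNonAssocRing A] [IsAlt A]

theorem as_self12 (a b : A) : as a a b = 0 := by simp [as, IsAlt.left_alt]

theorem as_self23 (a b : A) : as b a a = 0 := by simp [as, IsAlt.right_alt]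

theorem as_swap12 (a b c : A) : as b a c = - as a b c := by
  have h := as_self12 (a + b) c
  rw [as_add1, as_add2, as_add2, as_self12, as_self12] at h
  linear_combination (norm := abel) h

theorem as_swap23 (a b c : A) : as a c b = - as a b c := by
  have h := as_self23 (b + c) a
  rw [as_add3, as_add2, as_add2, as_self23, as_self23] at h
  linear_combination (norm := abel) h

theorem as_self13 (a b : A) : as a b a = 0 := by
  rw [as_swap23, as_self12, neg_zero]

theorem as_cyc (a b c : A) : as b c a = as a b c := by
  rw [as_swap23 b a c, as_swap12 a b c, neg_neg]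

theorem as_cyc2 (a b c : A) : as c a b = as a b c := by
  rw [as_swap12 a c b, as_swap23 a b c, neg_neg]

theorem as_swap13 (a b c : A) : as c b a = - as a b c := by
  rw [as_swap23 c a b, as_cyc2]

/-! ### The Kleinfeld function is alternating -/

theorem kf_cyc (w x y z : A) : kf z w x y = - kf w x y z := by
  have t1 := teich w x y z
  have t2 := teich x y z w
  have c1 : as w (x * y) z = as (x * y) z w := as_cyc2 _ _ _
  have c2 : as w x (y * z) = as x (y * z) w := (as_cyc _ _ _).symm
  have c3 : as x y (z * w) = as (z * w) x y := as_cyc _ _ _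
  have c4 : as w y z = as y z w := (as_cyc _ _ _).symm
  have c5 : as z x y = as x y z := as_cyc2 _ _ _
  unfold kf
  rw [c1, c2] at t1
  rw [c3] at t2
  rw [c4, c5]
  linear_combination (norm := abel) t1 + t2

theorem kf_swap34 (w x y z : A) : kf w x z y = - kf w x y z := by
  unfold kf
  rw [as_swap23 (w * x) y z, as_swap23 w y z, as_swap23 x y z]
  simp only [mul_neg, neg_mul]; abel

theorem kf_zero34 (w x y : A) : kf w x y y = 0 := by
  unfold kf
  rw [as_self23, as_self23, as_self23]; simp

theorem kf_cyc2 (w x y z : A) : kf y z w x = kf w x y z := by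
  rw [kf_cyc z w x y, kf_cyc w x y z, neg_neg]

theorem kf_swap12 (w x y z : A) : kf x w y z = - kf w x y z := by
  rw [← kf_cyc2 x w y z, kf_swap34 y z w x, kf_cyc2]

theorem kf_swap23 (w x y z : A) : kf w y x z = - kf w x y z := by
  have h1 := kf_cyc w y x z
  have h2 := kf_swap34 z w x y
  have h3 := kf_cyc w x y z
  rw [h2, h3, neg_neg] at h1
  rw [h1, neg_neg]

theorem kf_swap13 (w x y z : A) : kf y x w z = - kf w x y z := by
  rw [kf_swap12 x y w z, kf_swap23 x w y z, kf_swap12 w x y z]; simp

theorem kf_swap24 (w x y z : A) : kf w z y x = - kf w x y z := by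
  rw [kf_swap34 w z x y, kf_swap23 w x z y, kf_swap34 w x y z]; simp

theorem kf_swap14 (w x y z : A) : kf z x y w = - kf w x y z := by
  rw [kf_swap34 z x w y, kf_swap13 w x z y, kf_swap34 w x y z]; simp

theorem kf_zero12 (x y z : A) : kf x x y z = 0 := by
  rw [← kf_cyc2, kf_zero34]

theorem kf_zero23 (w x z : A) : kf w x x z = 0 := by
  have h := kf_cyc w x x z
  rw [kf_zero34] at h
  exact neg_eq_zero.mp h.symm

theorem kf_zero13 (x w z : A) : kf x w x z = 0 := by
  rw [kf_swap12 w x x z, kf_zero23, neg_zero]

theorem kf_zero24 (w x y : A) : kf w x y x = 0 := by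
  rw [kf_swap23 w y x x, kf_zero34, neg_zero]

theorem kf_zero14 (w x y : A) : kf x w y x = 0 := by
  rw [kf_cyc w y x x, kf_zero34, neg_zero]

/-! ### Consequences -/

theorem as_lin1 (x y p q : A) :
    as x p (y * q) + as y p (x * q) = as x p q * y + as y p q * x := by
  have h := kf_swap13 y q x p
  unfold kf at h
  rw [as_cyc2 x p (y * q), as_cyc2 y p (x * q), as_cyc2 x p q, as_cyc2 y p q,
    as_swap12 x y p] at h
  simp only [mul_neg] at h
  linear_combination (norm := abel) h

theorem as_lin2 (x y p q : A) :
    as x p (q * y) + as y p (q * x) = y * as x p q + x * as y p q := by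
  have h := kf_swap23 q y x p
  unfold kf at h
  rw [as_cyc2 x p (q * y), as_cyc2 y p (q * x), as_cyc2 x p q, as_cyc2 y p q,
    as_swap12 x y p] at h
  simp only [mul_neg, neg_mul] at h
  linear_combination (norm := abel) h

theorem as_mulL (x p q : A) : as x p (x * q) = as x p q * x := by
  have h := kf_zero13 x q p
  unfold kf at h
  rw [as_cyc2 x p (x * q), as_cyc2 x p q, as_self12, mul_zero, sub_zero] at h
  linear_combination (norm := abel) h

theorem as_mulR (x p q : A) : as x p (q * x) = x * as x p q := by
  have h := kf_zero23 q x p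
  unfold kf at h
  rw [as_cyc2 x p (q * x), as_cyc2 x p q, as_self12, zero_mul, sub_zero] at h
  linear_combination (norm := abel) h

/-- `as (x*x) p q = x ∘ as x p q` -/
theorem as_sq (x p q : A) : as (x * x) p q = x * as x p q + as x p q * x := by
  have h := kf_zero12 x p q
  unfold kf at h
  linear_combination (norm := abel) h

theorem as_jo (x y p q : A) : as (x * y + y * x) p q
    = x * as y p q + y * as x p q + as x p q * y + as y p q * x := by
  have h := kf_swap12 x y p q
  unfold kf at h
  rw [as_add1]
  linear_combination (norm := abel) h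

theorem flex (a b : A) : (a * b) * a = a * (b * a) := by
  have h := as_self13 a b
  unfold as at h
  exact sub_eq_zero.mp h

theorem left_alt (a b : A) : (a * a) * b = a * (a * b) := IsAlt.left_alt a b

theorem right_alt (a b : A) : (b * a) * a = b * (a * a) := IsAlt.right_alt a b

/-- left Moufang identity -/
theorem moufangL (a u w : A) : ((a * u) * a) * w = a * (u * (a * w)) := by
  have h1 := as_mulL a u w
  have h2 := as_mulL a w u
  have h3 : as (a * u) a w = as a w (a * u) := (as_cyc (a * u) a w).symm
  have h4 := as_swap23 a u w
  have key : as (a * u) a w + as a u (a * w) = 0 := by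
    rw [h1, h3, h2, h4, neg_mul]; abel
  unfold as at key
  linear_combination (norm := abel) key

/-- right Moufang identity -/
theorem moufangR (a u w : A) : ((w * a) * u) * a = w * ((a * u) * a) := by
  have h1 := as_mulR a u w
  have h2 := as_mulR a w u
  have h3 : as (w * a) u a = - as a u (w * a) := by
    rw [← as_cyc2 (w * a) u a, as_swap23]
  have h4 : as w a (u * a) = - as a w (u * a) := by
    rw [← as_cyc w a (u * a), as_swap23]
  have h5 := as_swap23 a u w
  have key : as (w * a) u a + as w a (u * a) = 0 := by
    rw [h3, h4, h1, h2, h5, mul_neg]; abel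
  rw [flex a u]
  unfold as at key
  linear_combination (norm := abel) key

/-! ### The opposite ring -/

theorem as_op (a b c : A) :
    as (MulOpposite.op a) (MulOpposite.op b) (MulOpposite.op c) = MulOpposite.op (as a b c) := by
  have h := as_swap13 a b c
  have h2 : as a b c = - as c b a := by rw [h, neg_neg]
  rw [h2]
  simp only [as, ← MulOpposite.op_mul, ← MulOpposite.op_sub, neg_sub]

theorem unop_as (a b c : Aᵐᵒᵖ) :
    MulOpposite.unop (as a b c) = as (MulOpposite.unop a) (MulOpposite.unop b)
      (MulOpposite.unop c) := by
  have h := as_op (MulOpposite.unop a) (MulOpposite.unop b) (MulOpposite.unop c)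
  simp only [MulOpposite.op_unop] at h
  rw [h, MulOpposite.unop_op]

instance instIsAltOp : IsAlt Aᵐᵒᵖ where
  left_alt a b := by
    apply MulOpposite.unop_injective
    simp only [MulOpposite.unop_mul]
    exact (right_alt (MulOpposite.unop a) (MulOpposite.unop b)).symm
  right_alt a b := by
    apply MulOpposite.unop_injective
    simp only [MulOpposite.unop_mul]
    exact (left_alt (MulOpposite.unop a) (MulOpposite.unop b)).symm

/-! ### Key identities for `d = as x y u` -/

theorem I1_assoc (x y u : A) : (as x y u * y) * x = as x y u * (x * y) := by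
  have f0 : as (x * y) x y = 0 := by
    rw [← as_cyc (x * y) x y, as_mulL, as_self23, zero_mul]
  have f1 : as x (x * y) u = as x y u * x := by
    rw [as_swap23 x u (x * y), as_mulL, as_swap23 x y u, neg_mul, neg_neg]
  have f2 : as y (x * y) u = - (y * as x y u) := by
    rw [as_swap23 y u (x * y), as_mulR, as_cyc x y u]
  have f3 : as u x y = as x y u := as_cyc2 x y u
  have K := kf_cyc2 (x * y) u x y
  unfold kf at K
  rw [f0, f1, f2, f3, as_self12, ← as_cyc ((x * y) * u) x y] at K
  have f4 : as x y (x * (y * u)) = (as x y u * y) * x := by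
    rw [as_mulL, as_swap12 y x (y * u), as_mulL, as_swap12 x y u, neg_mul, neg_mul, neg_mul,
      neg_neg]
  have f5 : as x y (as x y u) = as x y ((x * y) * u) - as x y (x * (y * u)) := by
    rw [← as_sub3]; rfl
  rw [f4] at f5
  generalize as x y u = d at *
  have g1 : as y d x = as x y d := as_cyc x y d
  have g1' : as y d x = (y * d) * x - y * (d * x) := rfl
  simp only [mul_zero, zero_sub, sub_zero, neg_mul, sub_neg_eq_add] at K
  linear_combination (norm := abel) f5 - K + g1 - g1'

theorem I1_right (x y u : A) : as x y (as x y u) = - (as x y u * (x * y - y * x)) := by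
  have h := I1_assoc x y u
  generalize as x y u = d at *
  have g1 : as x y d = as d x y := as_cyc d x y
  have g2 : as d y x = - as d x y := as_swap23 d x y
  rw [g1]
  have g3 := neg_eq_iff_eq_neg.mpr g2
  rw [← g3]
  simp only [as, mul_sub]
  rw [h]

theorem I1_left (x y u : A) : as x y (as x y u) = (x * y - y * x) * as x y u := by
  have h := I1_right (MulOpposite.op x) (MulOpposite.op y) (MulOpposite.op u)
  simp only [as_op, ← MulOpposite.op_mul, ← MulOpposite.op_sub, ← MulOpposite.op_neg] at h
  have h2 := MulOpposite.op_injective h
  rw [h2, ← neg_mul, neg_sub]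

theorem I1_assoc2 (x y u : A) : (as x y u * x) * y = as x y u * (y * x) := by
  have h := I1_assoc y x u
  rw [as_swap12 x y u] at h
  simpa only [neg_mul, neg_inj] using h

theorem I1_assoc3 (x y u : A) : x * (y * as x y u) = (y * x) * as x y u := by
  have h := I1_assoc (MulOpposite.op x) (MulOpposite.op y) (MulOpposite.op u)
  simp only [as_op, ← MulOpposite.op_mul] at h
  exact MulOpposite.op_injective h

theorem I1_assoc4 (x y u : A) : y * (x * as x y u) = (x * y) * as x y u := by
  have h := I1_assoc2 (MulOpposite.op x) (MulOpposite.op y) (MulOpposite.op u)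
  simp only [as_op, ← MulOpposite.op_mul] at h
  exact MulOpposite.op_injective h

theorem I2_key (x y u e : A) :
    x * (as x y u * e) - as x y u * (e * x) = as x u (e * (x * y) - (e * y) * x) := by
  have t1 := congrArg (x * ·) (teich x y u e)
  have t2 := teich x y u (e * x)
  have a1 := as_mulR x (y * u) e
  have a2 := as_lin2 x (x * y) u e
  have a3 := congrArg (x * ·) (as_lin2 x y u e)
  have a4 := as_mulR x u (e * y)
  have a5 := as_mulR x y (u * e)
  have a6 : as x y ((u * e) * x) - as x y (u * (e * x)) = as x y (as x u e) := by
    rw [← as_sub3]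
    have : as u e x = as x u e := as_cyc x u e
    rw [← this]; rfl
  have a7 : as x y (as x u e) = (x * y) * as x u e - x * (y * as x u e) := rfl
  simp only [mul_add, mul_sub] at t1 a3
  rw [as_sub3]
  linear_combination (norm := abel) t2 - t1 - a2 + a1 - a5 + a6 + a3 + a4 + a7

end alt

end Pool.Agent.Helper74
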