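import Pool.Agent.Helper74.T3

set_option autoImplicit false
set_option linter.unusedSimpArgs false
set_option linter.unusedSectionVars false

namespace Pool.Agent.Helper74

section defs

variable {A : Type*} [NonUnitalNonAssocRing A]

/-- defect of the first bimodule identity -/
def gg (u v m : A) : A := as u v m - (u * v - v * u) * m

/-- defect of the second bimodule identity -/
def gp (u v m : A) : A := as u v m + m * (u * v - v * u)

theorem gg_add1 (a b v m : A) : gg (a + b) v m = gg a v m + gg b v m := by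
  simp only [gg, as_add1, mul_add, add_mul, mul_sub, sub_mul]; abel

theorem gg_add2 (a b v m : A) : gg v (a + b) m = gg v a m + gg v b m := by
  simp only [gg, as_add2, mul_add, add_mul, mul_sub, sub_mul]; abel

theorem gg_add3 (a b v m : A) : gg v m (a + b) = gg v m a + gg v m b := by
  simp only [gg, as_add3, mul_add, add_mul, mul_sub, sub_mul]; abel

theorem gg_sub1 (a b v m : A) : gg (a - b) v m = gg a v m - gg b v m := by
  simp only [gg, as_sub1, mul_sub, sub_mul]; abel

theorem gg_sub2 (a b v m : A) : gg v (a - b) m = gg v a m - gg v b m := by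
  simp only [gg, as_sub2, mul_sub, sub_mul]; abel

theorem gg_sub3 (a b v m : A) : gg v m (a - b) = gg v m a - gg v m b := by
  simp only [gg, as_sub3, mul_sub, sub_mul]; abel

theorem gg_zero1 (v m : A) : gg 0 v m = 0 := by simp [gg]
theorem gg_zero2 (v m : A) : gg v 0 m = 0 := by simp [gg]
theorem gg_zero3 (v m : A) : gg v m 0 = 0 := by simp [gg]

variable [IsAlt A]

theorem gg_swap (u v m : A) : gg v u m = - gg u v m := by
  simp only [gg, as_swap12 u v m, sub_mul]; abel

theorem gg_self (u m : A) : gg u u m = 0 := by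
  simp only [gg, as_self12, sub_self, zero_mul]

end defs

section

variable {A : Type*} [NonUnitalNonAssocRing A] [IsAlt A] {X : Fin 3 → A}
  {W D : ℕ → AddSubgroup A}

/-- hypotheses for F2 -/
structure HF2 (A : Type*) [NonUnitalNonAssocRing A] (X : Fin 3 → A) (W D : ℕ → AddSubgroup A) :
    Prop where
  gr : Gr A X W D
  dd : ∀ i j, ∀ m ∈ D i, ∀ m' ∈ D j, m * m' = 0
  t3 : ∀ i j k u v w, u ∈ W i → v ∈ W j → w ∈ W k → as u v w ∈ D (i + j + k)

/-- all `gg` of total degree `< n` vanish -/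
def LowF2 (W D : ℕ → AddSubgroup A) (n : ℕ) : Prop :=
  ∀ i j k, i + j + k < n → ∀ u ∈ W i, ∀ v ∈ W j, ∀ m ∈ D k, gg u v m = 0

theorem F2_G4 {n : ℕ} (low : LowF2 W D n) (i j l k : ℕ) (hi : 0 < i)
    (hj : 0 < j) (hn : i + j + l + k = n) (u v w m : A) (hu : u ∈ W i) (hv : v ∈ W j)
    (hw : w ∈ W l) (hm : m ∈ D k) : gg u (v * w) m + gg v (u * w) m = 0 := by
  have h1 := as_lin2 u v m w
  rw [as_swap23 u (w * v) m, as_swap23 v (w * u) m, as_swap23 u w m, as_swap23 v w m] at h1
  have l1 := congrArg (v * ·) (low i l k (by omega) u hu w hw m hm)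
  have l2 := congrArg (u * ·) (low j l k (by omega) v hv w hw m hm)
  have e := congrArg (· * m) (as_swap13 u w v)
  linear_combination (norm := (simp only [gg, as, mul_sub, sub_mul, mul_add, add_mul, mul_neg,
    neg_mul, mul_zero, zero_mul]; abel)) e - h1 + l1 + l2

theorem F2_G4' {n : ℕ} (low : LowF2 W D n) (i j l k : ℕ) (hi : 0 < i)
    (hj : 0 < j) (hn : i + j + l + k = n) (u v w m : A) (hu : u ∈ W i) (hv : v ∈ W j)
    (hw : w ∈ W l) (hm : m ∈ D k) : gg u (v * w) m = gg (u * w) v m := by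
  have h := F2_G4 low i j l k hi hj hn u v w m hu hv hw hm
  rw [gg_swap (u * w) v m] at h
  linear_combination (norm := abel) h

theorem HF2.ww_d (H : HF2 A X W D) (i j l k : ℕ) (u v w m : A) (hu : u ∈ W i) (hv : v ∈ W j)
    (hw : w ∈ W l) (hm : m ∈ D k) : as u v w * m = 0 :=
  H.dd _ _ _ (H.t3 _ _ _ _ _ _ hu hv hw) _ hm

theorem HF2.d_ww (H : HF2 A X W D) (i j l k : ℕ) (u v w m : A) (hu : u ∈ W i) (hv : v ∈ W j)
    (hw : w ∈ W l) (hm : m ∈ D k) : m * as u v w = 0 :=
  H.dd _ _ _ hm _ (H.t3 _ _ _ _ _ _ hu hv hw)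

theorem F2_G1 (H : HF2 A X W D) {n : ℕ} (low : LowF2 W D n) (i j l k : ℕ) (hi : 0 < i)
    (hl : 0 < l) (hn : i + j + l + k = n) (u v w m : A) (hu : u ∈ W i) (hv : v ∈ W j)
    (hw : w ∈ W l) (hm : m ∈ D k) :
    gg u v (m * w) + gg (w * u) v m + gg u (w * v - v * w) m = 0 := by
  have k1 := kf_cyc w u v m
  unfold kf at k1
  rw [← as_cyc (m * w) u v, ← as_cyc m u v] at k1
  have l1 := congrArg (u * ·) (low l j k (by omega) w hw v hv m hm)
  have l2 := congrArg (w * ·) (low i j k (by omega) u hu v hv m hm)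
  have l3 := congrArg (· * w) (low i j k (by omega) u hu v hv m hm)
  have c1 := as_cyc w (u * v - v * u) m
  have d1 := H.ww_d _ _ _ _ v w u m hv hw hu hm
  have d2 := H.ww_d _ _ _ _ w v u m hw hv hu hm
  linear_combination (norm := (simp only [gg, as, mul_sub, sub_mul, mul_add, add_mul, mul_neg,
    neg_mul, mul_zero, zero_mul]; abel)) k1 + l1 + l2 + l3 + c1 - d1 + d2

theorem F2_G2 (H : HF2 A X W D) {n : ℕ} (low : LowF2 W D n) (i j l k : ℕ) (hi : 0 < i)
    (hn : i + j + l + k = n) (u v w m : A) (hu : u ∈ W i) (hv : v ∈ W j)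
    (hw : w ∈ W l) (hm : m ∈ D k) :
    gg u v (w * m) - gg (w * u) v m - gg u (w * v - v * w) m - gg (u * v - v * u) w m = 0 := by
  have k2 : kf w m u v = kf w u v m := by
    rw [kf_swap23 w u m v, kf_swap34 w u v m, neg_neg]
  unfold kf at k2
  rw [← as_cyc (w * m) u v, ← as_cyc m u v] at k2
  have l1 := congrArg (u * ·) (low l j k (by omega) w hw v hv m hm)
  have d0 := H.d_ww _ _ _ _ w u v m hw hu hv hm
  have d3 := H.ww_d _ _ _ _ w u v m hw hu hv hm
  have d1 := H.ww_d _ _ _ _ v w u m hv hw hu hm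
  have d2 := H.ww_d _ _ _ _ w v u m hw hv hu hm
  linear_combination (norm := (simp only [gg, as, mul_sub, sub_mul, mul_add, add_mul, mul_neg,
    neg_mul, mul_zero, zero_mul]; abel)) k2 - l1 + d0 + d3 + d1 - d2

theorem F2_G8 (H : HF2 A X W D) {n : ℕ} (low : LowF2 W D n) (i j l k : ℕ) (hi : 0 < i)
    (hl : 0 < l) (hn : i + j + l + k = n) (u v w m : A) (hu : u ∈ W i) (hv : v ∈ W j)
    (hw : w ∈ W l) (hm : m ∈ D k) :
    gg u v (w * m) = gg (u * v) w m - gg (v * u) w m := by
  have g4 := F2_G4' low i l j k hi hl (by omega) u w v m hu hw hv hm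
  have l1 := congrArg (u * ·) (low j l k (by omega) v hv w hw m hm)
  have d2 := H.ww_d _ _ _ _ w v u m hw hv hu hm
  linear_combination (norm := (simp only [gg, as, mul_sub, sub_mul, mul_add, add_mul, mul_neg,
    neg_mul, mul_zero, zero_mul]; abel)) g4 + l1 - d2

theorem F2_R0 (H : HF2 A X W D) {n : ℕ} (low : LowF2 W D n) (i j l k : ℕ) (hi : 0 < i)
    (hl : 0 < l) (hn : i + j + l + k = n) (u v w m : A) (hu : u ∈ W i) (hv : v ∈ W j)
    (hw : w ∈ W l) (hm : m ∈ D k) :
    gg (w * u) v m + gg u (w * v) m - gg u (v * w) m = 0 := by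
  have h2 := F2_G2 H low i j l k hi hn u v w m hu hv hw hm
  have h8 := F2_G8 H low i j l k hi hl hn u v w m hu hv hw hm
  rw [gg_sub1, gg_sub2] at h2
  linear_combination (norm := abel) h8 - h2

theorem F2_R1 (H : HF2 A X W D) {n : ℕ} (low : LowF2 W D n) (i j l k : ℕ) (hi : 0 < i)
    (hl : 0 < l) (hn : i + j + l + k = n) (u v w m : A) (hu : u ∈ W i) (hv : v ∈ W j)
    (hw : w ∈ W l) (hm : m ∈ D k) :
    gg u v (m * w) = 0 := by
  have h1 := F2_G1 H low i j l k hi hl hn u v w m hu hv hw hm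
  have h0 := F2_R0 H low i j l k hi hl hn u v w m hu hv hw hm
  rw [gg_sub2] at h1
  linear_combination (norm := abel) h1 - h0

theorem F2_R2 (H : HF2 A X W D) {n : ℕ} (low : LowF2 W D n) (i j l k : ℕ) (hi : 0 < i)
    (hj : 0 < j) (hl : 0 < l) (hn : i + j + l + k = n) (u v w m : A) (hu : u ∈ W i) (hv : v ∈ W j)
    (hw : w ∈ W l) (hm : m ∈ D k) :
    gg u v (w * m) = gg u (v * w) m := by
  have h8 := F2_G8 H low i j l k hi hl hn u v w m hu hv hw hm
  have h0 := F2_R0 H low i j l k hi hl hn u v w m hu hv hw hm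
  have h4 := F2_G4 low j l i k hj hl (by omega) v w u m hv hw hu hm
  have h4' := F2_G4' low i l j k hi hl (by omega) u w v m hu hw hv hm
  rw [gg_swap (w * u) v m, gg_swap (v * u) w m] at h4
  linear_combination (norm := abel) h8 + h0 - h4' + h4


theorem F2_gd (H : HF2 A X W D) (i j k : ℕ) (u d m : A) (hu : u ∈ W i) (hd : d ∈ D j)
    (hm : m ∈ D k) : gg u d m = 0 := by
  have h1 := H.dd _ _ _ (H.gr.mul_D _ _ _ _ hu hd) _ hm
  have h2 := H.dd _ _ _ (H.gr.D_mul _ _ _ _ hu hd) _ hm
  have h3 := H.dd _ _ _ hd _ hm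
  simp only [gg, as, sub_mul, h1, h2, h3, mul_zero, sub_zero]

theorem F2_gd' (H : HF2 A X W D) (i j k : ℕ) (u d m : A) (hu : u ∈ W i) (hd : d ∈ D j)
    (hm : m ∈ D k) : gg d u m = 0 := by
  rw [gg_swap, F2_gd H i j k u d m hu hd hm, neg_zero]

theorem F2_CM (H : HF2 A X W D) {n : ℕ} (low : LowF2 W D n) (i j l1 l2 k : ℕ) (hi : 0 < i)
    (hj : 0 < j) (hn : i + j + l1 + l2 + k = n) (p v w1 w2 m : A) (hp : p ∈ W i) (hv : v ∈ W j)
    (hw1 : w1 ∈ W l1) (hw2 : w2 ∈ W l2) (hm : m ∈ D k) :
    gg p ((v * w1) * w2) m = gg p ((v * w2) * w1) m := by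
  have a1 : gg p ((v * w1) * w2) m = gg p (v * (w1 * w2)) m := by
    have := F2_gd H _ _ _ p (as v w1 w2) m hp (H.t3 _ _ _ _ _ _ hv hw1 hw2) hm
    rw [as, gg_sub2] at this
    exact sub_eq_zero.mp this
  have a2 := F2_G4' low i j (l1 + l2) k hi hj (by omega) p v (w1 * w2) m hp hv
    (H.gr.W_mul _ _ _ _ hw1 hw2) hm
  have a3 : gg ((p * w1) * w2) v m = gg (p * (w1 * w2)) v m := by
    have := F2_gd' H _ _ _ v (as p w1 w2) m hv (H.t3 _ _ _ _ _ _ hp hw1 hw2) hm
    rw [as, gg_sub1] at this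
    exact sub_eq_zero.mp this
  have a4 := F2_G4' low (i + l1) j l2 k (by omega) hj (by omega) (p * w1) v w2 m
    (H.gr.W_mul _ _ _ _ hp hw1) hv hw2 hm
  have a5 := F2_G4' low i (j + l2) l1 k hi (by omega) (by omega) p (v * w2) w1 m hp
    (H.gr.W_mul _ _ _ _ hv hw2) hw1 hm
  rw [a1, a2, ← a3, ← a4, ← a5]

/-- iterated left multiplication by letters -/
def Lm (X : Fin 3 → A) (L : List (Fin 3)) (m : A) : A := L.foldr (fun i t => X i * t) m

/-- iterated right multiplication by letters -/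
def Rv (X : Fin 3 → A) (L : List (Fin 3)) (v : A) : A := L.foldl (fun t i => t * X i) v

theorem Lm_cons (i : Fin 3) (L : List (Fin 3)) (m : A) : Lm X (i :: L) m = X i * Lm X L m := rfl

theorem Lm_nil (m : A) : Lm X [] m = m := rfl

theorem Rv_nil (m : A) : Rv X [] m = m := rfl

theorem Rv_cons (i : Fin 3) (L : List (Fin 3)) (m : A) : Rv X (i :: L) m = Rv X L (m * X i) := rfl

theorem Lm_append (L L' : List (Fin 3)) (m : A) : Lm X (L ++ L') m = Lm X L (Lm X L' m) := by
  simp [Lm]

theorem Rv_append (L L' : List (Fin 3)) (m : A) : Rv X (L ++ L') m = Rv X L' (Rv X L m) := by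
  simp [Rv]

theorem Lm_sub (L : List (Fin 3)) (a b : A) : Lm X L (a - b) = Lm X L a - Lm X L b := by
  induction L with
  | nil => rfl
  | cons i L ih => rw [Lm_cons, Lm_cons, Lm_cons, ih, mul_sub]

theorem Lm_neg (L : List (Fin 3)) (a : A) : Lm X L (- a) = - Lm X L a := by
  induction L with
  | nil => rfl
  | cons i L ih => rw [Lm_cons, Lm_cons, ih, mul_neg]

theorem Lm_mem (H : Gr A X W D) (L : List (Fin 3)) (k : ℕ) (m : A) (hm : m ∈ D k) :
    Lm X L m ∈ D (L.length + k) := by
  induction L with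
  | nil => simpa [Lm_nil] using hm
  | cons i L ih =>
    have := H.mul_D 1 _ _ _ (H.X_mem i) ih
    rw [Lm_cons]
    rw [show (i :: L).length + k = 1 + (L.length + k) by simp; omega]
    exact this

theorem Rv_mem (H : Gr A X W D) (L : List (Fin 3)) (j : ℕ) (v : A) (hv : v ∈ W j) :
    Rv X L v ∈ W (j + L.length) := by
  induction L generalizing j v with
  | nil => simpa [Rv_nil] using hv
  | cons i L ih =>
    have := ih (j + 1) (v * X i) (H.W_mul _ _ _ _ hv (H.X_mem i))
    rw [Rv_cons]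
    rw [show j + (i :: L).length = j + 1 + L.length by simp; omega]
    exact this

theorem F2_R2i (H : HF2 A X W D) {n : ℕ} (low : LowF2 W D n) (i k : ℕ) (hi : 0 < i)
    (u m : A) (hu : u ∈ W i) (hm : m ∈ D k) (L : List (Fin 3)) :
    ∀ (j : ℕ) (v : A), 0 < j → i + j + L.length + k = n → v ∈ W j →
    gg u v (Lm X L m) = gg u (Rv X L v) m := by
  induction L with
  | nil => intro j v _ _ _; rfl
  | cons s L ih =>
    intro j v hj hn hv
    rw [Lm_cons, Rv_cons]
    simp only [List.length_cons] at hn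
    rw [F2_R2 H low i j 1 (L.length + k) hi hj (by omega) (by omega) u v (X s) _ hu hv
      (H.gr.X_mem s) (Lm_mem H.gr L k m hm)]
    exact ih (j + 1) _ (by omega) (by omega) (H.gr.W_mul _ _ _ _ hv (H.gr.X_mem s))

theorem F2_perm (H : HF2 A X W D) {n : ℕ} (low : LowF2 W D n) (i k : ℕ) (hi : 0 < i)
    (u m : A) (hu : u ∈ W i) (hm : m ∈ D k) (L L' : List (Fin 3)) (hL : L.Perm L') :
    ∀ (j : ℕ) (v : A), 0 < j → i + j + L.length + k = n → v ∈ W j →
    gg u (Rv X L v) m = gg u (Rv X L' v) m := by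
  induction hL with
  | nil => intro j v _ _ _; rfl
  | cons x _ ih =>
    intro j v hj hn hv
    simp only [List.length_cons] at hn
    rw [Rv_cons, Rv_cons]
    exact ih (j + 1) _ (by omega) (by omega) (H.gr.W_mul _ _ _ _ hv (H.gr.X_mem x))
  | swap x y L =>
    intro j v hj hn hv
    simp only [List.length_cons] at hn
    rw [Rv_cons, Rv_cons, Rv_cons, Rv_cons]
    have hvx := H.gr.W_mul _ _ _ _ hv (H.gr.X_mem x)
    have hvy := H.gr.W_mul _ _ _ _ hv (H.gr.X_mem y)
    rw [← F2_R2i H low i k hi u m hu hm L (j + 1 + 1) _ (by omega) (by omega)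
      (H.gr.W_mul _ _ _ _ hvy (H.gr.X_mem x)),
      ← F2_R2i H low i k hi u m hu hm L (j + 1 + 1) _ (by omega) (by omega)
      (H.gr.W_mul _ _ _ _ hvx (H.gr.X_mem y))]
    exact F2_CM H low i j 1 1 (L.length + k) hi hj (by omega) u v (X y) (X x) _ hu hv
      (H.gr.X_mem y) (H.gr.X_mem x) (Lm_mem H.gr L k m hm)
  | trans h1 _ ih1 ih2 =>
    intro j v hj hn hv
    rw [ih1 j v hj hn hv, ih2 j v hj (by rw [← h1.length_eq]; exact hn) hv]

/-- powers of an element -/
def pw (r : A) : ℕ → A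
  | 0 => r
  | k + 1 => pw r k * r

theorem pw_mem (H : Gr A X W D) (r : Fin 3) (k : ℕ) : pw (X r) k ∈ W (k + 1) := by
  induction k with
  | zero => exact H.X_mem r
  | succ k ih => exact H.W_mul _ _ _ _ ih (H.X_mem r)

theorem as_pw (u r : A) (k : ℕ) : as u (pw r k) r = 0 := by
  induction k with
  | zero => exact as_self23 _ _
  | succ k ih =>
    show as u (pw r k * r) r = 0
    rw [as_cyc2 u (pw r k * r) r |>.symm, as_mulR, as_cyc2, ih, mul_zero]

theorem as_pw_step (p q r : A) (k : ℕ) :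
    r * as p q (pw r k) = as p q (pw r (k + 1)) - as p q r * pw r k := by
  have h := kf_cyc2 (pw r k) r p q
  unfold kf at h
  rw [as_pw, as_pw, as_pw] at h
  rw [as_cyc2 p q (pw r k), as_cyc2 p q r] at h
  have e : as (pw r k * r) p q = as p q (pw r (k + 1)) := (as_cyc _ _ _).symm
  rw [e] at h
  simp only [mul_zero, zero_mul, sub_zero] at h
  linear_combination (norm := abel) h

theorem base_kill (p q : Fin 3) (L : List (Fin 3)) (hL : ∀ s ∈ L, s = p ∨ s = q) (u : A) :
    ∃ u', Lm X L (as (X p) (X q) u) = as (X p) (X q) u' := by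
  induction L with
  | nil => exact ⟨u, rfl⟩
  | cons s L ih =>
    obtain ⟨u', hu'⟩ := ih (fun s hs => hL s (List.mem_cons_of_mem _ hs))
    rw [Lm_cons, hu']
    rcases hL s List.mem_cons_self with h | h
    · subst h
      exact ⟨u' * X s, (as_mulR _ _ _).symm⟩
    · subst h
      refine ⟨u' * X s, ?_⟩
      rw [as_swap12 (X s) (X p) (u' * X s), as_mulR, as_swap12 (X s) (X p) u', mul_neg]

theorem F2_kill (H : HF2 A X W D) {n : ℕ} (low : LowF2 W D n) (p q r : Fin 3)
    (hpq : ∀ s, s = p ∨ s = q ∨ s = r) : ∀ (N : ℕ) (L : List (Fin 3)), L.length = N →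
    ∀ k, 2 + L.length + (k + 3) = n →
    gg (X p) (X q) (Lm X L (as (X p) (X q) (pw (X r) k))) = 0 := by
  intro N
  induction N with
  | zero =>
    intro L hL k hn
    rw [List.length_eq_zero_iff.mp hL, Lm_nil]
    unfold gg
    rw [I1_left, sub_self]
  | succ N ih =>
    intro L hL k hn
    by_cases hr : r ∈ L
    · have hmem : as (X p) (X q) (pw (X r) k) ∈ D (1 + 1 + (k + 1)) :=
        H.t3 _ _ _ _ _ _ (H.gr.X_mem p) (H.gr.X_mem q) (pw_mem H.gr r k)
      have hperm : L.Perm (L.erase r ++ [r]) :=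
        (List.perm_cons_erase hr).trans (List.perm_append_singleton r (L.erase r)).symm
      have hlen := hperm.length_eq
      simp only [List.length_append, List.length_cons, List.length_nil] at hlen
      rw [F2_R2i H low 1 _ (by omega) (X p) _ (H.gr.X_mem p) hmem L 1 (X q) (by omega) (by omega)
        (H.gr.X_mem q),
        F2_perm H low 1 _ (by omega) (X p) _ (H.gr.X_mem p) hmem L _ hperm 1 (X q) (by omega)
        (by omega) (H.gr.X_mem q),
        ← F2_R2i H low 1 _ (by omega) (X p) _ (H.gr.X_mem p) hmem _ 1 (X q) (by omega)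
        (by rw [← hperm.length_eq]; omega) (H.gr.X_mem q)]
      rw [Lm_append, Lm_cons, Lm_nil, as_pw_step, Lm_sub, gg_sub3]
      rw [ih (L.erase r) (by omega) (k + 1) (by omega)]
      have ha : as (X p) (X q) (X r) ∈ D 3 :=
        H.t3 1 1 1 _ _ _ (H.gr.X_mem p) (H.gr.X_mem q) (H.gr.X_mem r)
      have hap : as (X p) (X q) (X r) * pw (X r) k ∈ D (k + 1 + 3) :=
        H.gr.D_mul _ _ _ _ (pw_mem H.gr r k) ha
      rw [F2_R2i H low 1 _ (by omega) (X p) _ (H.gr.X_mem p) hap _ 1 (X q) (by omega)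
        (by omega) (H.gr.X_mem q)]
      rw [F2_R1 H low 1 (1 + (L.erase r).length) (k + 1) 3 (by omega) (by omega) (by omega) _ _ _ _
        (H.gr.X_mem p) (Rv_mem H.gr _ _ _ (H.gr.X_mem q)) (pw_mem H.gr r k) ha, sub_zero]
    · obtain ⟨u', hu'⟩ := base_kill (X := X) p q L (fun s hs => by
        rcases hpq s with h | h | h
        · exact Or.inl h
        · exact Or.inr h
        · subst h; exact absurd hs hr) (pw (X r) k)
      rw [hu']
      unfold gg
      rw [I1_left, sub_self]

theorem third_letter (X : Fin 3 → A) (p q : Fin 3) (hpq : p ≠ q) :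
    ∃ r, (∀ s, s = p ∨ s = q ∨ s = r) ∧ (as (X 0) (X 1) (X 2) = as (X p) (X q) (X r) ∨
      as (X 0) (X 1) (X 2) = - as (X p) (X q) (X r)) := by
  fin_cases p <;> fin_cases q
  · exact absurd rfl hpq
  · exact ⟨2, by decide, Or.inl rfl⟩
  · exact ⟨1, by decide, Or.inr (as_swap23 _ _ _)⟩
  · exact ⟨2, by decide, Or.inr (as_swap12 _ _ _)⟩
  · exact absurd rfl hpq
  · exact ⟨0, by decide, Or.inl (as_cyc _ _ _).symm⟩
  · exact ⟨1, by decide, Or.inl (as_cyc2 _ _ _).symm⟩
  · exact ⟨0, by decide, Or.inr (as_swap13 _ _ _)⟩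
  · exact absurd rfl hpq

theorem F2_kill' (H : HF2 A X W D) {n : ℕ} (low : LowF2 W D n) (p q : Fin 3)
    (L : List (Fin 3)) (hn : 2 + L.length + 3 = n) :
    gg (X p) (X q) (Lm X L (as (X 0) (X 1) (X 2))) = 0 := by
  by_cases hpq : p = q
  · subst hpq; exact gg_self _ _
  · obtain ⟨r, hr, h⟩ := third_letter X p q hpq
    have hk := F2_kill H low p q r hr L.length L rfl 0 (by omega)
    have hk' : gg (X p) (X q) (Lm X L (as (X p) (X q) (X r))) = 0 := hk
    rcases h with h | h
    · rw [h]; exact hk'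
    · rw [h, Lm_neg]
      have : gg (X p) (X q) (0 - Lm X L (as (X p) (X q) (X r))) = 0 := by
        rw [gg_sub3, hk', gg_zero3, sub_zero]
      rwa [zero_sub] at this

/-! ### Left normed words span modulo `D` -/

/-- span of left normed words of length `j` -/
def LN (X : Fin 3 → A) (j : ℕ) : AddSubgroup A :=
  AddSubgroup.closure {t | ∃ (q : Fin 3) (L : List (Fin 3)), L.length + 1 = j ∧ t = Rv X L (X q)}

theorem LN_mulX' (j : ℕ) (s : Fin 3) (t : A) (ht : t ∈ LN X j) : t * X s ∈ LN X (j + 1) := by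
  unfold LN at ht
  induction ht using AddSubgroup.closure_induction with
  | mem t ht =>
    obtain ⟨q, L, hL, rfl⟩ := ht
    refine AddSubgroup.subset_closure ⟨q, L ++ [s], by simp [hL], ?_⟩
    rw [Rv_append]; rfl
  | zero => rw [zero_mul]; exact AddSubgroup.zero_mem _
  | add a b _ _ ha hb =>
    rw [add_mul]
    exact AddSubgroup.add_mem _ ha hb
  | neg a _ ha => rw [neg_mul]; exact AddSubgroup.neg_mem _ ha

theorem LN_mulX (H : Gr A X W D) (j : ℕ) (s : Fin 3) (t : A) (ht : t ∈ LN X j ⊔ D j) :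
    t * X s ∈ LN X (j + 1) ⊔ D (j + 1) := by
  obtain ⟨t1, h1, t2, h2, rfl⟩ := AddSubgroup.mem_sup.mp ht
  rw [add_mul]
  refine AddSubgroup.add_mem _ (AddSubgroup.mem_sup_left (LN_mulX' j s t1 h1))
    (AddSubgroup.mem_sup_right ?_)
  rw [add_comm j 1]
  exact H.D_mul 1 j _ _ (H.X_mem s) h2

theorem LN_le (H : Gr A X W D) (j : ℕ) : LN X j ≤ W j := by
  unfold LN
  rw [AddSubgroup.closure_le]
  rintro t ⟨q, L, hL, rfl⟩
  have := Rv_mem H L 1 (X q) (H.X_mem q)
  rwa [show 1 + L.length = j by omega] at this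

theorem LN_span (H : Gr A X W D)
    (t3 : ∀ i j k u v w, u ∈ W i → v ∈ W j → w ∈ W k → as u v w ∈ D (i + j + k)) :
    ∀ j, W j ≤ LN X j ⊔ D j := by
  intro j
  induction j using Nat.strong_induction_on with
  | _ j ih =>
    rcases Nat.lt_or_ge j 2 with h2 | h2
    · interval_cases j
      · intro u hu
        rw [H.W_zero u hu]; exact AddSubgroup.zero_mem _
      · refine H.W_one _ (fun q => AddSubgroup.mem_sup_left ?_)
        exact AddSubgroup.subset_closure ⟨q, [], rfl, rfl⟩
    · refine H.W_ind j h2 _ ?_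
      intro i k hi hk hik u hu v hv
      have claim : ∀ (L : List (Fin 3)) (q : Fin 3), i + (L.length + 1) ≤ j →
          u * Rv X L (X q) ∈ LN X (i + (L.length + 1)) ⊔ D (i + (L.length + 1)) := by
        intro L
        induction L using List.reverseRecOn with
        | nil =>
          intro q _
          exact LN_mulX H i q u (ih i (by omega) hu)
        | append_singleton L s ihL =>
          intro q hj
          simp only [List.length_append, List.length_cons, List.length_nil] at hj ⊢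
          rw [Rv_append, Rv_cons, Rv_nil]
          have hR := Rv_mem H L 1 (X q) (H.X_mem q)
          have e : u * (Rv X L (X q) * X s) = (u * Rv X L (X q)) * X s - as u (Rv X L (X q)) (X s)
              := by simp only [as]; abel
          rw [e]
          refine AddSubgroup.sub_mem _ ?_ (AddSubgroup.mem_sup_right ?_)
          · have := LN_mulX H _ s _ (ihL q (by omega))
            rwa [show i + (L.length + 1) + 1 = i + (L.length + (0 + 1) + 1) by omega] at this
          · have := t3 _ _ _ _ _ _ hu hR (H.X_mem s)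
            rwa [show i + (1 + L.length) + 1 = i + (L.length + (0 + 1) + 1) by omega] at this
      obtain ⟨v1, h1, v2, h2', rfl⟩ := AddSubgroup.mem_sup.mp (ih k (by omega) hv)
      rw [mul_add]
      refine AddSubgroup.add_mem _ ?_ (AddSubgroup.mem_sup_right ?_)
      · clear hv h2'
        unfold LN at h1
        induction h1 using AddSubgroup.closure_induction with
        | mem t ht =>
          obtain ⟨q, L, hL, rfl⟩ := ht
          have := claim L q (by omega)
          rwa [show i + (L.length + 1) = j by omega] at this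
        | zero => rw [mul_zero]; exact AddSubgroup.zero_mem _
        | add a b _ _ ha hb => rw [mul_add]; exact AddSubgroup.add_mem _ ha hb
        | neg a _ ha => rw [mul_neg]; exact AddSubgroup.neg_mem _ ha
      · have := H.mul_D _ _ _ _ hu h2'
        rwa [hik] at this

/-! ### The final step -/

theorem F2_step (H : HF2 A X W D) {n : ℕ} (low : LowF2 W D n) :
    ∀ k i j, i + j + k = n → ∀ u ∈ W i, ∀ v ∈ W j, ∀ m ∈ D k, gg u v m = 0 := by
  -- letters
  have sC : ∀ p j, j + 4 = n → ∀ v ∈ W j, gg (X p) v (as (X 0) (X 1) (X 2)) = 0 := by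
    intro p j hn v hv
    have ha := H.gr.a_mem
    obtain ⟨v1, h1, v2, h2, rfl⟩ := AddSubgroup.mem_sup.mp (LN_span H.gr H.t3 j hv)
    rw [gg_add2, F2_gd H 1 j 3 _ _ _ (H.gr.X_mem p) h2 ha, add_zero]
    clear hv h2
    unfold LN at h1
    induction h1 using AddSubgroup.closure_induction with
    | mem t ht =>
      obtain ⟨q, L, hL, rfl⟩ := ht
      rw [← F2_R2i H low 1 3 (by omega) (X p) _ (H.gr.X_mem p) ha L 1 (X q) (by omega) (by omega)
        (H.gr.X_mem q)]
      exact F2_kill' H low p q L (by omega)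
    | zero => exact gg_zero2 _ _
    | add a b _ _ ha hb => rw [gg_add2, ha, hb, add_zero]
    | neg a _ ha' =>
      have : gg (X p) (0 - a) (as (X 0) (X 1) (X 2)) = 0 := by
        rw [gg_sub2, gg_zero2, ha', sub_zero]
      rwa [zero_sub] at this
  have sB : ∀ i j, i + j + 3 = n → ∀ u ∈ W i, ∀ v ∈ W j, gg u v (as (X 0) (X 1) (X 2)) = 0 := by
    intro i
    induction i using Nat.strong_induction_on with
    | _ i ih =>
      intro j hn u hu v hv
      refine H.gr.W_rec (fun u => gg u v (as (X 0) (X 1) (X 2))) (fun a b => gg_add1 _ _ _ _) i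
        ?_ ?_ u hu
      · rintro rfl p
        exact sC p j (by omega) v hv
      · intro i1 i2 hi1 hi2 hii u1 hu1 u2 hu2
        show gg (u1 * u2) v _ = 0
        by_cases hv0 : v = 0
        · rw [hv0, gg_zero2]
        have hj := H.gr.W_pos hv hv0
        rw [← F2_G4' low i1 j i2 3 hi1 hj (by omega) u1 v u2 _ hu1 hv hu2 H.gr.a_mem]
        exact ih i1 (by omega) (j + i2) (by omega) u1 hu1 _ (H.gr.W_mul _ _ _ _ hv hu2)
  intro k
  induction k using Nat.strong_induction_on with
  | _ k ih =>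
    intro i j hn u hu v hv m hm
    by_cases hu0 : u = 0
    · rw [hu0, gg_zero1]
    by_cases hv0 : v = 0
    · rw [hv0, gg_zero2]
    have hi := H.gr.W_pos hu hu0
    have hj := H.gr.W_pos hv hv0
    by_cases hk : k = 3
    · subst hk
      exact H.gr.D_three' (fun m => gg u v m) (fun a b => gg_add3 _ _ _ _) (sB i j hn u hu v hv)
        m hm
    · refine H.gr.D_ind' k hk (fun m => gg u v m) (fun a b => gg_add3 _ _ _ _) ?_ m hm
      intro l k' hl hlk w hw m' hm'
      refine ⟨?_, ?_⟩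
      · show gg u v (w * m') = 0
        rw [F2_R2 H low i j l k' hi hj hl (by omega) u v w m' hu hv hw hm']
        exact ih k' (by omega) i (j + l) (by omega) u hu _ (H.gr.W_mul _ _ _ _ hv hw) m' hm'
      · exact F2_R1 H low i j l k' hi hl (by omega) u v w m' hu hv hw hm'

theorem F2_left (H : HF2 A X W D) (i j k : ℕ) (u v m : A) (hu : u ∈ W i) (hv : v ∈ W j)
    (hm : m ∈ D k) : gg u v m = 0 := by
  have : ∀ n, ∀ i j k, i + j + k = n → ∀ u ∈ W i, ∀ v ∈ W j, ∀ m ∈ D k, gg u v m = 0 := by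
    intro n
    induction n using Nat.strong_induction_on with
    | _ n ih =>
      intro i j k hn u hu v hv m hm
      refine F2_step H (n := n) ?_ k i j hn u hu v hv m hm
      intro i j k hlt u hu v hv m hm
      exact ih _ hlt i j k rfl u hu v hv m hm
  exact this _ i j k rfl u hu v hv m hm

theorem HF2.op (H : HF2 A X W D) :
    HF2 Aᵐᵒᵖ (fun i => MulOpposite.op (X i)) (fun n => opS (W n)) (fun n => opS (D n)) where
  gr := H.gr.op
  dd i j m hm m' hm' := MulOpposite.unop_injective (H.dd j i _ hm' _ hm)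
  t3 i j k u v w hu hv hw := by
    rw [mem_opS, unop_as]
    exact H.t3 _ _ _ _ _ _ hu hv hw

theorem F2_right (H : HF2 A X W D) (i j k : ℕ) (u v m : A) (hu : u ∈ W i) (hv : v ∈ W j)
    (hm : m ∈ D k) : gp u v m = 0 := by
  have h := F2_left H.op i j k (MulOpposite.op u) (MulOpposite.op v) (MulOpposite.op m) hu hv hm
  rw [gg, as_op, ← MulOpposite.op_mul, ← MulOpposite.op_mul, ← MulOpposite.op_sub,
    ← MulOpposite.op_mul, ← MulOpposite.op_sub] at h
  have h2 : as u v m - m * (v * u - u * v) = 0 := MulOpposite.op_injective h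
  unfold gp
  rw [← h2]
  simp only [mul_sub]; abel

end

end Pool.Agent.Helper74
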