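import Pool.Agent.Helper74.F2

set_option autoImplicit false
set_option linter.unusedSimpArgs false
set_option linter.unusedSectionVars false
set_option linter.unusedVariables false

namespace Pool.Agent.Helper74

section defs

variable {A : Type*} [NonUnitalNonAssocRing A]

/-- products of two elements of `D` of total degree `n` -/
def P2g (D : ℕ → AddSubgroup A) (n : ℕ) : AddSubgroup A :=
  AddSubgroup.closure {t | ∃ i j m m', i + j = n ∧ m ∈ D i ∧ m' ∈ D j ∧ t = m * m'}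

/-- defect function -/
def dl (w m m' : A) : A := (w * m) * m' - (m * m') * w

theorem dl_add1 (a b m m' : A) : dl (a + b) m m' = dl a m m' + dl b m m' := by
  simp only [dl, add_mul, mul_add]; abel

theorem dl_add2 (a b w m' : A) : dl w (a + b) m' = dl w a m' + dl w b m' := by
  simp only [dl, add_mul, mul_add]; abel

theorem dl_add3 (a b w m : A) : dl w m (a + b) = dl w m a + dl w m b := by
  simp only [dl, add_mul, mul_add]; abel

theorem dl_sub1 (a b m m' : A) : dl (a - b) m m' = dl a m m' - dl b m m' := by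
  simp only [dl, sub_mul, mul_sub]; abel

theorem dl_zero1 (m m' : A) : dl 0 m m' = 0 := by simp [dl]
theorem dl_zero2 (m m' : A) : dl m 0 m' = 0 := by simp [dl]
theorem dl_zero3 (m m' : A) : dl m m' 0 = 0 := by simp [dl]

variable [IsAlt A]

theorem dl_e1 (w m m' : A) : dl w m m' = w * (m * m') - m * (m' * w) := by
  have h := as_cyc w m m'
  linear_combination (norm := (simp only [dl, as]; abel)) - h

theorem dl_e2 (w m m' : A) :
    dl w m m' = (w * m + m * w) * m' - m * (w * m' + m' * w) := by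
  have h := as_swap12 w m m'
  have h1 := dl_e1 w m m'
  linear_combination (norm := (simp only [dl, as, add_mul, mul_add]; abel)) h1 - h

end defs

section

variable {A : Type*} [NonUnitalNonAssocRing A] [IsAlt A] {X : Fin 3 → A}
  {W D : ℕ → AddSubgroup A}

/-- hypotheses for F3 -/
structure HF3 (A : Type*) [NonUnitalNonAssocRing A] (X : Fin 3 → A) (W D : ℕ → AddSubgroup A) :
    Prop where
  gr : Gr A X W D
  ddd1 : ∀ i j k, ∀ m ∈ D i, ∀ m' ∈ D j, ∀ m'' ∈ D k, (m * m') * m'' = 0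
  ddd2 : ∀ i j k, ∀ m ∈ D i, ∀ m' ∈ D j, ∀ m'' ∈ D k, m * (m' * m'') = 0
  t3 : ∀ i j k u v w, u ∈ W i → v ∈ W j → w ∈ W k → as u v w ∈ D (i + j + k)
  f2l : ∀ i j k u v m, u ∈ W i → v ∈ W j → m ∈ D k → gg u v m ∈ P2g D (i + j + k)
  f2r : ∀ i j k u v m, u ∈ W i → v ∈ W j → m ∈ D k → gp u v m ∈ P2g D (i + j + k)

/-- all `dl` of total degree `< n` vanish -/
def LowF3 (W D : ℕ → AddSubgroup A) (n : ℕ) : Prop :=
  ∀ i j k, i + j + k < n → ∀ w ∈ W i, ∀ m ∈ D j, ∀ m' ∈ D k, dl w m m' = 0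

theorem HF3.p_d (H : HF3 A X W D) (n k : ℕ) (p d : A) (hp : p ∈ P2g D n) (hd : d ∈ D k) :
    p * d = 0 := by
  unfold P2g at hp
  induction hp using AddSubgroup.closure_induction with
  | mem t ht =>
    obtain ⟨i, j, m, m', _, hm, hm', rfl⟩ := ht
    exact H.ddd1 _ _ _ m hm m' hm' d hd
  | zero => exact zero_mul _
  | add a b _ _ ha hb => rw [add_mul, ha, hb, add_zero]
  | neg a _ ha => rw [neg_mul, ha, neg_zero]

theorem HF3.d_p (H : HF3 A X W D) (n k : ℕ) (p d : A) (hp : p ∈ P2g D n) (hd : d ∈ D k) :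
    d * p = 0 := by
  unfold P2g at hp
  induction hp using AddSubgroup.closure_induction with
  | mem t ht =>
    obtain ⟨i, j, m, m', _, hm, hm', rfl⟩ := ht
    exact H.ddd2 _ _ _ d hd m hm m' hm'
  | zero => exact mul_zero _
  | add a b _ _ ha hb => rw [mul_add, ha, hb, add_zero]
  | neg a _ ha => rw [mul_neg, ha, neg_zero]

/-- `c ∘ m` is in `P2` for commutators `c` -/
theorem HF3.comm_jo (H : HF3 A X W D) (i j k : ℕ) (u v m : A) (hu : u ∈ W i) (hv : v ∈ W j)
    (hm : m ∈ D k) : (u * v - v * u) * m + m * (u * v - v * u) ∈ P2g D (i + j + k) := by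
  have h1 := H.f2l _ _ _ _ _ _ hu hv hm
  have h2 := H.f2r _ _ _ _ _ _ hu hv hm
  have := AddSubgroup.sub_mem _ h2 h1
  have e : gp u v m - gg u v m = (u * v - v * u) * m + m * (u * v - v * u) := by
    simp only [gp, gg]; abel
  rwa [e] at this

theorem HF3.dl_comm (H : HF3 A X W D) (i j k l : ℕ) (u v m m' : A) (hu : u ∈ W i) (hv : v ∈ W j)
    (hm : m ∈ D k) (hm' : m' ∈ D l) : dl (u * v - v * u) m m' = 0 := by
  have h1 := H.p_d _ _ _ _ (H.comm_jo _ _ _ _ _ _ hu hv hm) hm'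
  have h2 := H.d_p _ _ _ _ (H.comm_jo _ _ _ _ _ _ hu hv hm') hm
  rw [dl_e2, h1, h2, sub_zero]

theorem F3_D1 (H : HF3 A X W D) {n : ℕ} (low : LowF3 W D n) (i j k l : ℕ) (hj : 0 < j)
    (hn : i + j + k + l = n) (w v m m' : A) (hw : w ∈ W i) (hv : v ∈ W j)
    (hm : m ∈ D k) (hm' : m' ∈ D l) : dl v (w * m) m' = dl (w * v) m m' := by
  have k1 := kf_swap23 w v m m'
  unfold kf at k1
  rw [as_swap12 v (w * m) m', as_swap12 v m m'] at k1
  have g1 := H.d_p _ _ _ _ (H.f2l _ _ _ _ _ _ hw hv hm') hm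
  have l1 := congrArg (· * v) (low i k l (by omega) w hw m hm m' hm')
  have c1 := H.d_p _ _ _ _ (H.comm_jo _ _ _ _ _ _ hw hv hm') hm
  have c2 := H.dl_comm _ _ _ _ _ _ _ _ hw hv hm hm'
  rw [dl_e1] at c2
  have s1 := as_swap13 (m * m') w v
  linear_combination (norm := (simp only [dl, gg, as, mul_sub, sub_mul, mul_add, add_mul, mul_neg,
    neg_mul, mul_zero, zero_mul]; abel)) - k1 - g1 - l1 - c1 - c2 - s1


theorem HF3.dl_swap (H : HF3 A X W D) (i j k l : ℕ) (u v m m' : A) (hu : u ∈ W i) (hv : v ∈ W j)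
    (hm : m ∈ D k) (hm' : m' ∈ D l) : dl (u * v) m m' = dl (v * u) m m' := by
  have := H.dl_comm _ _ _ _ _ _ _ _ hu hv hm hm'
  rw [dl_sub1] at this
  exact sub_eq_zero.mp this

/-- `dl (w*v) m m' = dl w (v*m) m' + as (m*m') v w` -/
theorem F3_3 (H : HF3 A X W D) {n : ℕ} (low : LowF3 W D n) (i j k l : ℕ) (hi : 0 < i)
    (hn : i + j + k + l = n) (w v m m' : A) (hw : w ∈ W i) (hv : v ∈ W j)
    (hm : m ∈ D k) (hm' : m' ∈ D l) :
    dl (w * v) m m' = dl w (v * m) m' + as (m * m') v w := by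
  have g1 := H.p_d _ _ _ _ (H.f2l _ _ _ _ _ _ hw hv hm) hm'
  have c2 := H.dl_comm _ _ _ _ _ _ _ _ hw hv hm hm'
  have l1 := congrArg (· * w) (low j k l (by omega) v hv m hm m' hm')
  linear_combination (norm := (simp only [dl, gg, as, mul_sub, sub_mul, mul_add, add_mul, mul_neg,
    neg_mul, mul_zero, zero_mul]; abel)) g1 + c2 + l1

/-- (A): associators `as (m*m') v w` vanish in degree `n`. -/
theorem F3_A (H : HF3 A X W D) {n : ℕ} (low : LowF3 W D n) (i j k l : ℕ) (hi : 0 < i) (hj : 0 < j)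
    (hn : i + j + k + l = n) (w v m m' : A) (hw : w ∈ W i) (hv : v ∈ W j)
    (hm : m ∈ D k) (hm' : m' ∈ D l) : as (m * m') v w = 0 := by
  have h3 := F3_3 H low i j k l hi hn w v m m' hw hv hm hm'
  have h1 := F3_D1 H low j i k l hi (by omega) v w m m' hv hw hm hm'
  rw [h1, H.dl_swap _ _ _ _ _ _ _ _ hv hw hm hm'] at h3
  exact (left_eq_add.mp h3)

theorem F3_D2 (H : HF3 A X W D) {n : ℕ} (low : LowF3 W D n) (i j k l : ℕ) (hj : 0 < j)
    (hn : i + j + k + l = n) (w v m m' : A) (hw : w ∈ W i) (hv : v ∈ W j)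
    (hm : m ∈ D k) (hm' : m' ∈ D l) : dl v m (m' * w) = dl (v * w) m m' := by
  have k1 := kf_swap13 v w m' m
  unfold kf at k1
  rw [as_swap12 v m' m, as_swap13 m m' (v * w), as_cyc m (m' * w) v, as_swap13 m m' w] at k1
  have g1 := H.p_d _ _ _ _ (H.f2l _ _ _ _ _ _ hw hv hm) hm'
  have c2 := H.dl_comm _ _ _ _ _ _ _ _ hw hv hm hm'
  have l1 := congrArg (v * ·) (low i k l (by omega) w hw m hm m' hm')
  simp only [dl_e1 w m m'] at l1
  have s1 := as_swap13 (m * m') w v
  rw [dl_e1 v, dl_e1 (v * w)]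
  linear_combination (norm := (simp only [dl, gg, as, mul_sub, sub_mul, mul_add, add_mul, mul_neg,
    neg_mul, mul_zero, zero_mul]; abel)) k1 + g1 + c2 - l1 - s1

theorem F3_D3 (H : HF3 A X W D) {n : ℕ} (low : LowF3 W D n) (i j k l : ℕ) (hi : 0 < i) (hj : 0 < j)
    (hn : i + j + k + l = n) (w v m m' : A) (hw : w ∈ W i) (hv : v ∈ W j)
    (hm : m ∈ D k) (hm' : m' ∈ D l) : dl v (m * w) m' = dl v m (w * m' + m' * w) := by
  have e2 := dl_e2 w (v * m) m'
  have e3 := dl_e2 w m m'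
  have l0 := low i k l (by omega) w hw m hm m' hm'
  have l1 := congrArg (· * v) l0
  rw [e3] at l1
  have l2 := congrArg (· * v) l0
  have d1 := F3_D1 H low j i k l hi (by omega) v w m m' hv hw hm hm'
  have sw := H.dl_swap _ _ _ _ _ _ _ _ hw hv hm hm'
  have A1 := F3_A H low j i k l hj hi (by omega) v w m m' hv hw hm hm'
  have cy := congrArg (· * m') (as_swap12 w v m)
  have cy2 := congrArg (· * m') (as_swap23 v w m)
  linear_combination (norm := (simp only [dl, gg, as, mul_sub, sub_mul, mul_add, add_mul, mul_neg,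
    neg_mul, mul_zero, zero_mul]; abel)) - e2 - l1 + l2 + d1 - sw + A1 + cy - cy2


theorem F3_6 (H : HF3 A X W D) {n : ℕ} (low : LowF3 W D n) (k : ℕ)
    (hn : 4 + k = n) (x y z e : A) (hx : x ∈ W 1) (hy : y ∈ W 1) (hz : z ∈ W 1)
    (he : e ∈ D k) : dl x (as x y z) e = 0 := by
  rw [dl_e1, I2_key]
  have hq := H.f2r _ _ _ _ _ _ hy hx he
  have e1 : e * (x * y) - (e * y) * x = - gp y x e := by
    have := as_cyc e y x
    linear_combination (norm := (simp only [gp, as, mul_sub]; abel)) this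
  rw [e1, as_neg3, neg_eq_zero]
  generalize gp y x e = q at hq
  unfold P2g at hq
  induction hq using AddSubgroup.closure_induction with
  | mem t ht =>
    obtain ⟨i, j, m, m', hij, hm, hm', rfl⟩ := ht
    rw [as_cyc (m * m') x z]
    exact F3_A H low 1 1 i j (by omega) (by omega) (by omega) z x m m' hz hx hm hm'
  | zero => exact as_zero3 _ _
  | add a b _ _ ha hb => rw [as_add3, ha, hb, add_zero]
  | neg a _ ha => rw [as_neg3, ha, neg_zero]

theorem F3_letter (H : HF3 A X W D) {n : ℕ} (low : LowF3 W D n) (k : ℕ)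
    (hn : 4 + k = n) (p : Fin 3) (e : A) (he : e ∈ D k) :
    dl (X p) (as (X 0) (X 1) (X 2)) e = 0 := by
  fin_cases p
  · exact F3_6 H low k hn _ _ _ e (H.gr.X_mem _) (H.gr.X_mem _) (H.gr.X_mem _) he
  · have h := F3_6 H low k hn (X 1) (X 2) (X 0) e (H.gr.X_mem _) (H.gr.X_mem _) (H.gr.X_mem _) he
    rw [as_cyc] at h
    exact h
  · have h := F3_6 H low k hn (X 2) (X 0) (X 1) e (H.gr.X_mem _) (H.gr.X_mem _) (H.gr.X_mem _) he
    rw [as_cyc2] at h
    exact h

theorem F3_step (H : HF3 A X W D) {n : ℕ} (low : LowF3 W D n) :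
    ∀ j i k, i + j + k = n → ∀ w ∈ W i, ∀ m ∈ D j, ∀ m' ∈ D k, dl w m m' = 0 := by
  have sB : ∀ i k, i + 3 + k = n → ∀ w ∈ W i, ∀ m' ∈ D k,
      dl w (as (X 0) (X 1) (X 2)) m' = 0 := by
    intro i
    induction i using Nat.strong_induction_on with
    | _ i ih =>
      intro k hn w hw m' hm'
      refine H.gr.W_rec (fun w => dl w (as (X 0) (X 1) (X 2)) m') (fun a b => dl_add1 _ _ _ _) i
        ?_ ?_ w hw
      · rintro rfl p
        exact F3_letter H low k (by omega) p m' hm'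
      · intro i1 i2 hi1 hi2 hii u1 hu1 u2 hu2
        show dl (u1 * u2) _ m' = 0
        rw [← F3_D2 H low i2 i1 3 k hi1 (by omega) u2 u1 _ m' hu2 hu1 H.gr.a_mem hm']
        exact ih i1 (by omega) (i2 + k) (by omega) u1 hu1 _ (H.gr.D_mul _ _ _ _ hu2 hm')
  intro j
  induction j using Nat.strong_induction_on with
  | _ j ih =>
    intro i k hn w hw m hm m' hm'
    by_cases hw0 : w = 0
    · rw [hw0, dl_zero1]
    have hi := H.gr.W_pos hw hw0
    by_cases hj : j = 3
    · subst hj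
      exact H.gr.D_three' (fun m => dl w m m') (fun a b => dl_add2 _ _ _ _)
        (sB i k (by omega) w hw m' hm') m hm
    · refine H.gr.D_ind' j hj (fun m => dl w m m') (fun a b => dl_add2 _ _ _ _) ?_ m hm
      intro l j' hl hlj u hu m1 hm1
      refine ⟨?_, ?_⟩
      · show dl w (u * m1) m' = 0
        rw [F3_D1 H low l i j' k hi (by omega) u w m1 m' hu hw hm1 hm']
        exact ih j' (by omega) (l + i) k (by omega) _ (H.gr.W_mul _ _ _ _ hu hw) m1 hm1 m' hm'
      · show dl w (m1 * u) m' = 0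
        rw [F3_D3 H low l i j' k hl hi (by omega) u w m1 m' hu hw hm1 hm']
        exact ih j' (by omega) i (l + k) (by omega) w hw m1 hm1 _
          (AddSubgroup.add_mem _ (H.gr.mul_D _ _ _ _ hu hm') (H.gr.D_mul _ _ _ _ hu hm'))

theorem F3_dl (H : HF3 A X W D) (i j k : ℕ) (w m m' : A) (hw : w ∈ W i)
    (hm : m ∈ D j) (hm' : m' ∈ D k) : dl w m m' = 0 := by
  have : ∀ n, ∀ i j k, i + j + k = n → ∀ w ∈ W i, ∀ m ∈ D j, ∀ m' ∈ D k, dl w m m' = 0 := by
    intro n
    induction n using Nat.strong_induction_on with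
    | _ n ih =>
      intro i j k hn w hw m hm m' hm'
      refine F3_step H (n := n) ?_ j i k hn w hw m hm m' hm'
      intro i j k hlt w hw m hm m' hm'
      exact ih _ hlt i j k rfl w hw m hm m' hm'
  exact this _ i j k rfl w hw m hm m' hm'

theorem F3_assoc (H : HF3 A X W D) (i j k l : ℕ) (w v m m' : A) (hw : w ∈ W i) (hv : v ∈ W j)
    (hm : m ∈ D k) (hm' : m' ∈ D l) : as (m * m') v w = 0 := by
  by_cases hw0 : w = 0
  · rw [hw0, as_zero3]
  by_cases hv0 : v = 0
  · rw [hv0, as_zero2]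
  refine F3_A H (n := i + j + k + l) ?_ i j k l (H.gr.W_pos hw hw0) (H.gr.W_pos hv hv0) rfl
    w v m m' hw hv hm hm'
  intro i j k _ w hw m hm m' hm'
  exact F3_dl H i j k w m m' hw hm hm'

end

end Pool.Agent.Helper74
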