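import Pool.Agent.Helper74.Pk

set_option autoImplicit false
set_option linter.unusedSimpArgs false
set_option linter.unusedSectionVars false
set_option linter.unusedVariables false

namespace Pool.Agent.Helper74

noncomputable section

/-- the associator of the letters -/
def aa : FA := as (XX 0) (XX 1) (XX 2)

theorem aa_mem : aa ∈ DT := ev_DT Mon.a

/-- the subgroup `t * P_k` -/
def lm (t : FA) (k : ℕ) : AddSubgroup FA := (Pw DT k).map (AddMonoidHom.mulLeft t)

theorem mem_lm_sup (t y : FA) (k j : ℕ) :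
    y ∈ lm t k ⊔ Pw DT j ↔ ∃ d ∈ Pw DT k, ∃ p ∈ Pw DT j, y = t * d + p := by
  rw [AddSubgroup.mem_sup]
  constructor
  · rintro ⟨_, ⟨d, hd, rfl⟩, p, hp, rfl⟩
    exact ⟨d, hd, p, hp, rfl⟩
  · rintro ⟨d, hd, p, hp, rfl⟩
    exact ⟨_, ⟨d, hd, rfl⟩, p, hp, rfl⟩

theorem Pid (k : ℕ) : IsId (Pw DT k) := Pw_isId DT DT_isId k

/-- generators of `D` modulo the square -/
def S4 : AddSubgroup FA := AddSubgroup.closure {t | t = aa ∨ (∃ u, t = u * aa) ∨
  (∃ v, t = aa * v) ∨ ∃ u v, t = u * (aa * v)} ⊔ Pw DT 1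

theorem S4_P {t : FA} (h : t ∈ Pw DT 1) : t ∈ S4 := AddSubgroup.mem_sup_right h

theorem S4_a : aa ∈ S4 := AddSubgroup.mem_sup_left (AddSubgroup.subset_closure (Or.inl rfl))

theorem S4_ua (u : FA) : u * aa ∈ S4 :=
  AddSubgroup.mem_sup_left (AddSubgroup.subset_closure (Or.inr (Or.inl ⟨u, rfl⟩)))

theorem S4_av (v : FA) : aa * v ∈ S4 :=
  AddSubgroup.mem_sup_left (AddSubgroup.subset_closure (Or.inr (Or.inr (Or.inl ⟨v, rfl⟩))))

theorem S4_uav (u v : FA) : u * (aa * v) ∈ S4 :=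
  AddSubgroup.mem_sup_left (AddSubgroup.subset_closure (Or.inr (Or.inr (Or.inr ⟨u, v, rfl⟩))))

/-- induction principle for S4 -/
theorem S4_ind (T : AddSubgroup FA) (f : FA → FA) (hf : ∀ a b, f (a + b) = f a + f b)
    (h0 : f aa ∈ T) (h1 : ∀ u, f (u * aa) ∈ T) (h2 : ∀ v, f (aa * v) ∈ T)
    (h3 : ∀ u v, f (u * (aa * v)) ∈ T) (h4 : ∀ p ∈ Pw DT 1, f p ∈ T) (t : FA) (ht : t ∈ S4) :
    f t ∈ T := by
  have : S4 ≤ T.comap (AddMonoidHom.mk' f hf) := by
    unfold S4
    rw [sup_le_iff]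
    constructor
    · rw [AddSubgroup.closure_le]
      rintro _ (rfl | ⟨u, rfl⟩ | ⟨v, rfl⟩ | ⟨u, v, rfl⟩)
      · exact h0
      · exact h1 u
      · exact h2 v
      · exact h3 u v
    · intro p hp
      exact h4 p hp
  exact this ht

theorem aav_mem (v : FA) : aa * v ∈ DT := DT_isId.2 _ _ aa_mem

theorem S4_left (w t : FA) (ht : t ∈ S4) : w * t ∈ S4 := by
  refine S4_ind S4 (fun t => w * t) (fun a b => mul_add _ _ _) (S4_ua w) ?_ (fun v => S4_uav w v)
    ?_ (fun p hp => S4_P ((Pid 1).1 w p hp)) t ht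
  · intro u
    have e : w * (u * aa) = (u * w) * aa - gg w u aa := by
      simp only [gg, as, sub_mul]; abel
    show w * (u * aa) ∈ S4
    rw [e]
    exact AddSubgroup.sub_mem _ (S4_ua _) (S4_P (FA_gg w u aa aa_mem))
  · intro u v
    have e : w * (u * (aa * v)) = (u * w) * (aa * v) - gg w u (aa * v) := by
      simp only [gg, as, sub_mul]; abel
    show w * (u * (aa * v)) ∈ S4
    rw [e]
    exact AddSubgroup.sub_mem _ (S4_uav _ _) (S4_P (FA_gg w u _ (aav_mem v)))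

theorem S4_right (w t : FA) (ht : t ∈ S4) : t * w ∈ S4 := by
  have hav : ∀ v, (aa * v) * w ∈ S4 := by
    intro v
    have e : (aa * v) * w = aa * (v * w) + (v * w - w * v) * aa + gg v w aa := by
      have := as_cyc aa v w
      linear_combination (norm := (simp only [gg, as, sub_mul]; abel)) - this
    rw [e]
    exact AddSubgroup.add_mem _ (AddSubgroup.add_mem _ (S4_av _) (S4_ua _))
      (S4_P (FA_gg v w aa aa_mem))
  refine S4_ind S4 (fun t => t * w) (fun a b => add_mul _ _ _) (S4_av w) ?_ hav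
    ?_ (fun p hp => S4_P ((Pid 1).2 w p hp)) t ht
  · intro u
    have e : (u * aa) * w = u * (aa * w) - (u * w - w * u) * aa - gg u w aa := by
      have := as_swap23 u w aa
      linear_combination (norm := (simp only [gg, as, sub_mul]; abel)) this
    show (u * aa) * w ∈ S4
    rw [e]
    exact AddSubgroup.sub_mem _ (AddSubgroup.sub_mem _ (S4_uav _ _) (S4_ua _))
      (S4_P (FA_gg u w aa aa_mem))
  · intro u v
    have e : (u * (aa * v)) * w = u * ((aa * v) * w) - (u * w - w * u) * (aa * v)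
        - gg u w (aa * v) := by
      have := as_swap23 u w (aa * v)
      linear_combination (norm := (simp only [gg, as, sub_mul]; abel)) this
    show (u * (aa * v)) * w ∈ S4
    rw [e]
    exact AddSubgroup.sub_mem _ (AddSubgroup.sub_mem _ (S4_left u _ (hav v)) (S4_uav _ _))
      (S4_P (FA_gg u w _ (aav_mem v)))

theorem DT_le_S4 : DT ≤ S4 := by
  refine DT_ind S4 (fun m => ?_)
  induction m with
  | a => exact S4_a
  | L w m ih => exact S4_left _ _ ih
  | R w m ih => exact S4_right _ _ ih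

/-! ### `P_2 ⊂ a D + P_3` -/

/-- `a D + P_3` -/
def E2 : AddSubgroup FA := lm aa 0 ⊔ Pw DT 2

theorem E2_ad (d : FA) (hd : d ∈ DT) : aa * d ∈ E2 := AddSubgroup.mem_sup_left ⟨d, hd, rfl⟩

theorem E2_P {p : FA} (hp : p ∈ Pw DT 2) : p ∈ E2 := AddSubgroup.mem_sup_right hp

theorem E2_left (w t : FA) (ht : t ∈ E2) : w * t ∈ E2 := by
  obtain ⟨d, hd, p, hp, rfl⟩ := (mem_lm_sup _ _ _ _).mp ht
  have hd' : d ∈ DT := hd
  have e : w * (aa * d + p) = aa * (d * w) + dl w aa d + w * p := by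
    rw [dl_e1, mul_add]; abel
  rw [e]
  exact AddSubgroup.add_mem _ (AddSubgroup.add_mem _ (E2_ad _ (DT_isId.2 w d hd'))
    (E2_P (FA_dl w aa d aa_mem hd'))) (E2_P ((Pid 2).1 w p hp))

theorem E2_right (w t : FA) (ht : t ∈ E2) : t * w ∈ E2 := by
  obtain ⟨d, hd, p, hp, rfl⟩ := (mem_lm_sup _ _ _ _).mp ht
  rw [add_mul]
  refine AddSubgroup.add_mem _ ?_ (E2_P ((Pid 2).2 w p hp))
  refine S4_ind E2 (fun d => (aa * d) * w) (fun a b => by rw [mul_add, add_mul]) ?_ ?_ ?_ ?_ ?_ d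
    (DT_le_S4 hd)
  · show (aa * aa) * w ∈ E2
    rw [left_alt]
    exact E2_ad _ (aav_mem w)
  · intro u
    show (aa * (u * aa)) * w ∈ E2
    rw [← flex, moufangL]
    exact E2_ad _ (DT_isId.1 _ _ (aav_mem w))
  · intro v
    show (aa * (aa * v)) * w ∈ E2
    rw [← left_alt]
    have e : ((aa * aa) * v) * w = aa * (aa * (v * w)) + as (aa * aa) v w := by
      rw [← left_alt]; simp only [as]; abel
    rw [e]
    exact AddSubgroup.add_mem _ (E2_ad _ (aav_mem _)) (E2_P (FA_pas _ _ _ _ aa_mem aa_mem))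
  · intro u v
    show (aa * (u * (aa * v))) * w ∈ E2
    rw [← moufangL]
    have e : (((aa * u) * aa) * v) * w = aa * (u * (aa * (v * w))) + as ((aa * u) * aa) v w := by
      rw [← moufangL]; simp only [as]; abel
    rw [e]
    exact AddSubgroup.add_mem _ (E2_ad _ (DT_isId.1 _ _ (aav_mem _)))
      (E2_P (FA_pas _ _ _ _ (aav_mem u) aa_mem))
  · intro p hp
    exact E2_P ((Pid 2).2 _ _ (Pw_mul_left DT 1 p aa hp aa_mem))

theorem P2_le_E2 : Pw DT 1 ≤ E2 := by
  have key : ∀ m : Mon, ∀ m' ∈ DT, m.ev * m' ∈ E2 := by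
    intro m
    induction m with
    | a => intro m' hm'; exact E2_ad m' hm'
    | L w m ih =>
      intro m' hm'
      show (wd w * m.ev) * m' ∈ E2
      have e : (wd w * m.ev) * m' = (m.ev * m') * wd w + dl (wd w) m.ev m' := by
        simp only [dl]; abel
      rw [e]
      exact AddSubgroup.add_mem _ (E2_right _ _ (ih m' hm')) (E2_P (FA_dl _ _ _ (ev_DT m) hm'))
    | R w m ih =>
      intro m' hm'
      show (m.ev * wd w) * m' ∈ E2
      have e : (m.ev * wd w) * m' = m.ev * (wd w * m' + m' * wd w) - (m.ev * m') * wd w := by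
        have h1 := dl_e2 (wd w) m.ev m'
        linear_combination (norm := (simp only [dl, add_mul, mul_add]; abel)) - h1
      rw [e]
      exact AddSubgroup.sub_mem _ (ih _ (AddSubgroup.add_mem _ (DT_isId.1 _ _ hm')
        (DT_isId.2 _ _ hm'))) (E2_right _ _ (ih m' hm'))
  have key2 : ∀ m ∈ DT, ∀ m' ∈ DT, m * m' ∈ E2 := by
    intro m hm m' hm'
    exact DT_ind' E2 (fun m => m * m') (fun a b => add_mul _ _ _) (fun m => key m m' hm') m hm
  exact Pw_succ_le DT 0 E2 (fun p hp d hd => ⟨key2 p hp d hd, key2 d hd p hp⟩)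

/-! ### Letter generation of `D` modulo `P_2` -/

theorem DT_letter (S : AddSubgroup FA) (ha : aa ∈ S) (hP : Pw DT 1 ≤ S)
    (h : ∀ d ∈ S, d ∈ DT → ∀ i, XX i * d ∈ S ∧ d * XX i ∈ S) : DT ≤ S := by
  have claim : ∀ w : FreeMagma (Fin 3), ∀ d ∈ S, d ∈ DT → wd w * d ∈ S ∧ d * wd w ∈ S := by
    intro w
    induction w with
    | ih1 i => intro d hd hd'; exact h d hd hd' i
    | ih2 u v ihu ihv =>
      intro d hd hd'
      have e0 : wd (u * v) = wd u * wd v := wd_mul u v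
      rw [e0]
      have e1 : (wd u * wd v) * d = wd v * (wd u * d) + gg (wd v) (wd u) d := by
        simp only [gg, as, sub_mul]; abel
      have e2 : d * (wd u * wd v) = (d * wd v) * wd u - gp (wd v) (wd u) d := by
        have := as_cyc d (wd v) (wd u)
        linear_combination (norm := (simp only [gp, as, mul_sub]; abel)) this
      rw [e1, e2]
      constructor
      · exact AddSubgroup.add_mem _ (ihv _ (ihu d hd hd').1 (DT_isId.1 _ _ hd')).1
          (hP (FA_gg _ _ _ hd'))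
      · exact AddSubgroup.sub_mem _ (ihu _ (ihv d hd hd').2 (DT_isId.2 _ _ hd')).2
          (hP (FA_gp _ _ _ hd'))
  refine DT_ind S (fun m => ?_)
  induction m with
  | a => exact ha
  | L w m ih => exact (claim w _ ih (ev_DT m)).1
  | R w m ih => exact (claim w _ ih (ev_DT m)).2

/-! ### `P_3 ⊂ s D + P_4` -/

/-- the square of the associator -/
def ss : FA := aa * aa

theorem ss_comm (x y z : FA) : x * (as x y z * as x y z) = (as x y z * as x y z) * x := by
  have h := I2_key x y z (as x y z)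
  have h1 := I1_assoc x y z
  rw [h1, sub_self, as_zero3] at h
  rw [sub_eq_zero.mp h, left_alt]

theorem ss_letter (i : Fin 3) : XX i * ss = ss * XX i := by
  unfold ss aa
  fin_cases i
  · exact ss_comm (XX 0) (XX 1) (XX 2)
  · have h := ss_comm (XX 1) (XX 2) (XX 0)
    rw [as_cyc] at h
    exact h
  · have h := ss_comm (XX 2) (XX 0) (XX 1)
    rw [as_cyc2] at h
    exact h

theorem ss_mem : ss ∈ Pw DT 1 := Pw_mul_right DT 0 _ _ aa_mem aa_mem

/-- `s D + P_4` -/
def E3 : AddSubgroup FA := lm ss 0 ⊔ Pw DT 3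

theorem E3_sd (d : FA) (hd : d ∈ DT) : ss * d ∈ E3 := AddSubgroup.mem_sup_left ⟨d, hd, rfl⟩

theorem E3_P {p : FA} (hp : p ∈ Pw DT 3) : p ∈ E3 := AddSubgroup.mem_sup_right hp

theorem E3_ap (p : FA) (hp : p ∈ Pw DT 1) : aa * p ∈ E3 := by
  obtain ⟨d, hd, q, hq, rfl⟩ := (mem_lm_sup _ _ _ _).mp (P2_le_E2 hp)
  rw [mul_add, ← left_alt]
  exact AddSubgroup.add_mem _ (E3_sd d hd) (E3_P (Pw_mul_left DT 2 q aa hq aa_mem))

theorem E3_pa (p : FA) (hp : p ∈ Pw DT 1) : p * aa ∈ E3 := by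
  obtain ⟨d, hd, q, hq, rfl⟩ := (mem_lm_sup _ _ _ _).mp (P2_le_E2 hp)
  rw [add_mul, flex]
  exact AddSubgroup.add_mem _ (E3_ap _ (Pw_mul_right DT 0 _ _ hd aa_mem))
    (E3_P (Pw_mul_right DT 2 q aa hq aa_mem))

theorem E3_zeta (w d : FA) (hd : d ∈ DT) : as ss w d ∈ E3 := by
  unfold ss
  rw [as_sq]
  have h : as aa w d ∈ Pw DT 1 :=
    AddSubgroup.sub_mem _ (Pw_mul_right DT 0 _ _ (aav_mem w) hd)
      (Pw_mul_right DT 0 _ _ aa_mem (DT_isId.1 _ _ hd))
  exact AddSubgroup.add_mem _ (E3_ap _ h) (E3_pa _ h)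

theorem E3_letter_left (i : Fin 3) (t : FA) (ht : t ∈ E3) : XX i * t ∈ E3 := by
  obtain ⟨d, hd, p, hp, rfl⟩ := (mem_lm_sup _ _ _ _).mp ht
  have hd' : d ∈ DT := hd
  rw [mul_add]
  refine AddSubgroup.add_mem _ ?_ (E3_P ((Pid 3).1 _ p hp))
  have e : XX i * (ss * d) = ss * (XX i * d) + as ss (XX i) d + as ss (XX i) d := by
    have h1 := as_swap12 ss (XX i) d
    have h2 := congrArg (· * d) (ss_letter i)
    linear_combination (norm := (simp only [as]; abel)) - h1 + h2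
  rw [e]
  exact AddSubgroup.add_mem _ (AddSubgroup.add_mem _ (E3_sd _ (DT_isId.1 _ _ hd'))
    (E3_zeta _ _ hd')) (E3_zeta _ _ hd')

theorem E3_letter_right (i : Fin 3) (t : FA) (ht : t ∈ E3) : t * XX i ∈ E3 := by
  obtain ⟨d, hd, p, hp, rfl⟩ := (mem_lm_sup _ _ _ _).mp ht
  have hd' : d ∈ DT := hd
  rw [add_mul]
  refine AddSubgroup.add_mem _ ?_ (E3_P ((Pid 3).2 _ p hp))
  have e : (ss * d) * XX i = ss * (d * XX i) - as ss (XX i) d := by
    have h1 := as_swap23 ss (XX i) d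
    linear_combination (norm := (simp only [as]; abel)) h1
  rw [e]
  exact AddSubgroup.sub_mem _ (E3_sd _ (DT_isId.2 _ _ hd')) (E3_zeta _ _ hd')

/-- the subgroup of all `d` with `d P_2 + P_2 d ⊂ s D + P_4`. -/
def QQ : AddSubgroup FA where
  carrier := {d | ∀ p ∈ Pw DT 1, d * p ∈ E3 ∧ p * d ∈ E3}
  zero_mem' := fun p _ => by rw [zero_mul, mul_zero]; exact ⟨E3.zero_mem, E3.zero_mem⟩
  add_mem' := fun ha hb p hp => by
    rw [add_mul, mul_add]
    exact ⟨E3.add_mem (ha p hp).1 (hb p hp).1, E3.add_mem (ha p hp).2 (hb p hp).2⟩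
  neg_mem' := fun ha p hp => by
    rw [neg_mul, mul_neg]
    exact ⟨E3.neg_mem (ha p hp).1, E3.neg_mem (ha p hp).2⟩

theorem DT_le_QQ : DT ≤ QQ := by
  refine DT_letter QQ (fun p hp => ⟨E3_ap p hp, E3_pa p hp⟩) ?_ ?_
  · intro q hq p hp
    exact ⟨E3_P (Pw_mul DT DT_isId 1 1 q hq p hp), E3_P (Pw_mul DT DT_isId 1 1 p hp q hq)⟩
  · intro d hd hd' i
    have h1 : ∀ p ∈ Pw DT 1, (d * XX i) * p ∈ E3 := by
      intro p hp
      have e : (d * XX i) * p = d * (XX i * p + p * XX i) - (d * p) * XX i := by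
        have := as_swap23 d (XX i) p
        linear_combination (norm := (simp only [as, mul_add]; abel)) this
      rw [e]
      exact AddSubgroup.sub_mem _ (hd _ (AddSubgroup.add_mem _ ((Pid 1).1 _ _ hp)
        ((Pid 1).2 _ _ hp))).1 (E3_letter_right i _ (hd p hp).1)
    have h2 : ∀ p ∈ Pw DT 1, (XX i * d) * p ∈ E3 := by
      intro p hp
      have e : (XX i * d) * p = XX i * (d * p) + d * (XX i * p) - (d * XX i) * p := by
        have := as_swap12 (XX i) d p
        linear_combination (norm := (simp only [as, mul_add]; abel)) this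
      rw [e]
      exact AddSubgroup.sub_mem _ (AddSubgroup.add_mem _ (E3_letter_left i _ (hd p hp).1)
        (hd _ ((Pid 1).1 _ _ hp)).1) (h1 p hp)
    have h3 : ∀ p ∈ Pw DT 1, p * (XX i * d) ∈ E3 := by
      intro p hp
      have e : p * (XX i * d) = (XX i * p + p * XX i) * d - XX i * (p * d) := by
        have := as_swap12 (XX i) p d
        linear_combination (norm := (simp only [as, add_mul]; abel)) - this
      rw [e]
      exact AddSubgroup.sub_mem _ (hd _ (AddSubgroup.add_mem _ ((Pid 1).1 _ _ hp)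
        ((Pid 1).2 _ _ hp))).2 (E3_letter_left i _ (hd p hp).2)
    have h4 : ∀ p ∈ Pw DT 1, p * (d * XX i) ∈ E3 := by
      intro p hp
      have e : p * (d * XX i) = (p * d) * XX i + (p * XX i) * d - p * (XX i * d) := by
        have := as_swap23 p (XX i) d
        linear_combination (norm := (simp only [as, add_mul]; abel)) - this
      rw [e]
      exact AddSubgroup.sub_mem _ (AddSubgroup.add_mem _ (E3_letter_right i _ (hd p hp).2)
        (hd _ ((Pid 1).2 _ _ hp)).2) (h3 p hp)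
    exact ⟨fun p hp => ⟨h2 p hp, h3 p hp⟩, fun p hp => ⟨h1 p hp, h4 p hp⟩⟩

theorem P3_le_E3 : Pw DT 2 ≤ E3 :=
  Pw_succ_le DT 1 E3 (fun p hp d hd => ⟨((DT_le_QQ hd) p hp).2, ((DT_le_QQ hd) p hp).1⟩)

/-! ### The filtration -/

theorem fil_ay (k : ℕ) (y : FA) (hy : y ∈ lm ss k ⊔ Pw DT (k + 3)) :
    aa * y ∈ lm ss (k + 1) ⊔ Pw DT (k + 4) := by
  obtain ⟨d, hd, p, hp, rfl⟩ := (mem_lm_sup _ _ _ _).mp hy
  rw [mem_lm_sup]
  refine ⟨aa * d, Pw_mul_left DT k d aa hd aa_mem, aa * p, Pw_mul_left DT (k + 3) p aa hp aa_mem,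
    ?_⟩
  unfold ss
  rw [mul_add, left_alt, ← left_alt aa (aa * d)]

theorem fil_ya (k : ℕ) (y : FA) (hy : y ∈ lm ss k ⊔ Pw DT (k + 3)) :
    y * aa ∈ lm ss (k + 1) ⊔ Pw DT (k + 4) := by
  obtain ⟨d, hd, p, hp, rfl⟩ := (mem_lm_sup _ _ _ _).mp hy
  rw [mem_lm_sup]
  refine ⟨d * aa, Pw_mul_right DT k d aa hd aa_mem, p * aa, Pw_mul_right DT (k + 3) p aa hp aa_mem,
    ?_⟩
  have h : as ss d aa = 0 := by
    unfold ss
    rw [as_sq, as_self13]; simp
  rw [add_mul]
  congr 1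
  exact sub_eq_zero.mp h

theorem fil_step (k : ℕ) (h0 : Pw DT 2 ≤ lm ss 0 ⊔ Pw DT 3)
    (ih : Pw DT (k + 2) ≤ lm ss k ⊔ Pw DT (k + 3)) :
    Pw DT (k + 3) ≤ lm ss (k + 1) ⊔ Pw DT (k + 4) := by
  -- associators `as s p d` and `as s d p`
  have has : ∀ y z, as aa y z ∈ Pw DT (k + 2) → as ss y z ∈ lm ss (k + 1) ⊔ Pw DT (k + 4) := by
    intro y z h
    unfold ss
    rw [as_sq]
    exact AddSubgroup.add_mem _ (fil_ay k _ (ih h)) (fil_ya k _ (ih h))
  have hs1 : ∀ p ∈ Pw DT k, ∀ d ∈ DT, as ss p d ∈ lm ss (k + 1) ⊔ Pw DT (k + 4) := by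
    intro p hp d hd
    refine has _ _ (AddSubgroup.sub_mem _ ?_ ?_)
    · exact Pw_mul_right DT (k + 1) _ _ (Pw_mul_left DT k p aa hp aa_mem) hd
    · exact Pw_mul_left DT (k + 1) _ _ (Pw_mul_right DT k p d hp hd) aa_mem
  have hs2 : ∀ p ∈ Pw DT k, ∀ d ∈ DT, as ss d p ∈ lm ss (k + 1) ⊔ Pw DT (k + 4) := by
    intro p hp d hd
    rw [as_swap23 ss p d]
    exact AddSubgroup.neg_mem _ (hs1 p hp d hd)
  have hsp : ∀ p ∈ Pw DT (k + 1), ss * p ∈ lm ss (k + 1) ⊔ Pw DT (k + 4) :=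
    fun p hp => AddSubgroup.mem_sup_left ⟨p, hp, rfl⟩
  have hP : ∀ p ∈ Pw DT (k + 4), p ∈ lm ss (k + 1) ⊔ Pw DT (k + 4) :=
    fun p hp => AddSubgroup.mem_sup_right hp
  refine Pw_succ_le DT (k + 2) _ (fun y hy d hd => ?_)
  obtain ⟨p, hp, q, hq, rfl⟩ := (mem_lm_sup _ _ _ _).mp (ih hy)
  constructor
  · have e : (ss * p + q) * d = as ss p d + ss * (p * d) + q * d := by
      rw [add_mul]; simp only [as]; abel
    rw [e]
    exact AddSubgroup.add_mem _ (AddSubgroup.add_mem _ (hs1 p hp d hd)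
      (hsp _ (Pw_mul_right DT k p d hp hd))) (hP _ (Pw_mul_right DT (k + 3) q d hq hd))
  · have hds : d * ss ∈ lm ss 0 ⊔ Pw DT 3 := by
      refine h0 ?_
      exact Pw_mul_left DT 1 ss d ss_mem hd
    obtain ⟨d', hd', q', hq', he⟩ := (mem_lm_sup _ _ _ _).mp hds
    have hd'' : d' ∈ DT := hd'
    have e : d * (ss * p + q) = as ss d' p + ss * (d' * p) + q' * p + as ss d p + d * q := by
      have h1 := as_swap12 ss d p
      have h2 := congrArg (· * p) he
      linear_combination (norm := (simp only [as, mul_add, add_mul]; abel)) h2 - h1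
    rw [e]
    refine AddSubgroup.add_mem _ (AddSubgroup.add_mem _ (AddSubgroup.add_mem _
      (AddSubgroup.add_mem _ (hs2 p hp d' hd'')
      (hsp _ (Pw_mul_left DT k p d' hp hd''))) (hP _ ?_)) (hs2 p hp d hd))
      (hP _ (Pw_mul_left DT (k + 3) q d hq hd))
    have := Pw_mul DT DT_isId 3 k q' hq' p hp
    rwa [show 3 + k + 1 = k + 4 by omega] at this

theorem fil_all (k : ℕ) : Pw DT (k + 2) ≤ lm ss k ⊔ Pw DT (k + 3) := by
  induction k with
  | zero => exact P3_le_E3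
  | succ k ih => exact fil_step k P3_le_E3 ih

theorem P2_le (K : ℕ) : Pw DT 1 ≤ lm aa 0 ⊔ Pw DT (K + 1) := by
  induction K with
  | zero => exact le_sup_right
  | succ K ih =>
    cases K with
    | zero => exact P2_le_E2
    | succ K =>
      refine ih.trans (sup_le le_sup_left ?_)
      refine (fil_all K).trans (sup_le ?_ ?_)
      · rintro _ ⟨d, hd, rfl⟩
        refine AddSubgroup.mem_sup_left ⟨aa * d, DT_isId.2 _ _ aa_mem, ?_⟩
        exact (left_alt aa d).symm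
      · exact le_sup_right

end

end Pool.Agent.Helper74
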