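import Pool.Agent.Helper74.Oct

set_option autoImplicit false
set_option linter.unusedSimpArgs false
set_option linter.unusedSectionVars false
set_option linter.unusedVariables false

namespace Pool.Agent.Helper74

noncomputable section

/-- first matrix -/
def q0 (x1 x2 : ℂ) : M2 ℂ := !![x1, 0; 0, x2]

/-- second matrix -/
def q1 (y1 y2 y3 : ℂ) : M2 ℂ := !![y1, 1; y3, y2]

/-- third matrix -/
def q2 (z1 z2 z3 z4 : ℂ) : M2 ℂ := !![z1, z3; z4, z2]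

/-- the nine invariants of a triple of matrices -/
def inv9 (Q : Fin 3 → M2 ℂ) : Fin 9 → ℂ :=
  ![tr (Q 0), nm (Q 0), tr (Q 1), nm (Q 1), nn (Q 0) (Q 1), tr (Q 2), nm (Q 2),
    nn (Q 0) (Q 2), nn (Q 1) (Q 2)]

theorem inv9_eq (x1 x2 y1 y2 y3 z1 z2 z3 z4 : ℂ) :
    inv9 ![q0 x1 x2, q1 y1 y2 y3, q2 z1 z2 z3 z4] =
      ![x1 + x2, x1 * x2, y1 + y2, y1 * y2 - y3, x1 * y2 + y1 * x2, z1 + z2, z1 * z2 - z3 * z4,
        x1 * z2 + z1 * x2, y1 * z2 + z1 * y2 - z4 - z3 * y3] := by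
  funext i
  fin_cases i <;> simp [inv9, tr, nm, nn, q0, q1, q2]

/-- the general element -/
def comb (c : M2 ℂ) (Q : Fin 3 → M2 ℂ) (p : Fin 8 → ℂ) : M2 ℂ :=
  (((p 0) • c + ((p 1) • c) * Q 2) + ((p 2) • c + ((p 3) • c) * Q 2) * Q 1)
    + (((p 4) • c + ((p 5) • c) * Q 2) + ((p 6) • c + ((p 7) • c) * Q 2) * Q 1) * Q 0

theorem off_cancel (α β : ℂ) (hα : α ≠ 0) (hβ : β ≠ 0) (T : M2 ℂ)
    (h : (!![0, α; β, 0] : M2 ℂ) * T = 0) : T = 0 := by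
  have h00 := congrFun (congrFun h 0) 0
  have h01 := congrFun (congrFun h 0) 1
  have h10 := congrFun (congrFun h 1) 0
  have h11 := congrFun (congrFun h 1) 1
  simp [Matrix.mul_apply, Fin.sum_univ_two, hα, hβ] at h00 h01 h10 h11
  ext i j
  fin_cases i <;> fin_cases j
  · exact h10
  · exact h11
  · exact h00
  · exact h01

theorem U_cancel (x1 x2 y1 y2 y3 a b c d : ℂ) (hx : x1 ≠ x2) (hy : y3 ≠ 0)
    (h : a • (1 : M2 ℂ) + b • q1 y1 y2 y3 + (c • (1 : M2 ℂ) + d • q1 y1 y2 y3) * q0 x1 x2 = 0) :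
    a = 0 ∧ b = 0 ∧ c = 0 ∧ d = 0 := by
  have h00 := congrFun (congrFun h 0) 0
  have h01 := congrFun (congrFun h 0) 1
  have h10 := congrFun (congrFun h 1) 0
  have h11 := congrFun (congrFun h 1) 1
  simp [q0, q1, Matrix.mul_apply, Fin.sum_univ_two, Matrix.add_apply, Matrix.smul_apply] at h00 h01 h10 h11
  have hs : x1 - x2 ≠ 0 := sub_ne_zero.mpr hx
  have hd : d = 0 := by
    have : y3 * (d * (x1 - x2)) = 0 := by linear_combination h10 - y3 * h01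
    rcases mul_eq_zero.mp this with h | h
    · exact absurd h hy
    · rcases mul_eq_zero.mp h with h | h
      · exact h
      · exact absurd h hs
  subst hd
  have hb : b = 0 := by linear_combination h01
  subst hb
  have hc : c = 0 := by
    have : c * (x1 - x2) = 0 := by linear_combination h00 - h11
    rcases mul_eq_zero.mp this with h | h
    · exact h
    · exact absurd h hs
  subst hc
  exact ⟨by linear_combination h00, rfl, rfl, rfl⟩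

theorem step1 (x1 x2 y1 y2 y3 z1 z2 z3 z4 : ℂ) (hx : x1 ≠ x2) (hy : y3 ≠ 0)
    (hz : z4 ≠ y3 * z3) (p : Fin 8 → ℂ)
    (h1 : comb (q0 x1 x2 * q1 y1 y2 y3 - q1 y1 y2 y3 * q0 x1 x2)
      ![q0 x1 x2, q1 y1 y2 y3, q2 z1 z2 z3 z4] p = 0)
    (h2 : comb (q0 x1 x2 * q1 y1 y2 y3 - q1 y1 y2 y3 * q0 x1 x2)
      ![q0 x1 x2, q1 y1 y2 y3, q2 z1 z2 (z4 / y3) (y3 * z3)] p = 0) :
    ∀ i, p i = 0 := by
  have hs : x1 - x2 ≠ 0 := sub_ne_zero.mpr hx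
  have hc : q0 x1 x2 * q1 y1 y2 y3 - q1 y1 y2 y3 * q0 x1 x2
      = !![0, x1 - x2; - ((x1 - x2) * y3), 0] := by
    ext i j
    fin_cases i <;> fin_cases j <;> simp [q0, q1, Matrix.mul_apply, Fin.sum_univ_two] <;> ring
  rw [hc] at h1 h2
  set c : M2 ℂ := !![0, x1 - x2; - ((x1 - x2) * y3), 0] with hcdef
  set U : M2 ℂ := (p 0) • (1 : M2 ℂ) + (p 2) • q1 y1 y2 y3
    + ((p 4) • (1 : M2 ℂ) + (p 6) • q1 y1 y2 y3) * q0 x1 x2 with hU
  set V : M2 ℂ := (p 1) • (1 : M2 ℂ) + (p 3) • q1 y1 y2 y3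
    + ((p 5) • (1 : M2 ℂ) + (p 7) • q1 y1 y2 y3) * q0 x1 x2 with hV
  have key : ∀ q : M2 ℂ, comb c ![q0 x1 x2, q1 y1 y2 y3, q] p = c * (U + q * V) := by
    intro q
    rw [hU, hV]
    show (((p 0) • c + ((p 1) • c) * q) + ((p 2) • c + ((p 3) • c) * q) * q1 y1 y2 y3)
      + (((p 4) • c + ((p 5) • c) * q) + ((p 6) • c + ((p 7) • c) * q) * q1 y1 y2 y3) * q0 x1 x2
      = _
    simp only [mul_add, add_mul, smul_mul_assoc, mul_smul_comm, mul_assoc, mul_one, one_mul]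
    abel
  rw [key] at h1 h2
  have hα : x1 - x2 ≠ 0 := hs
  have hβ : - ((x1 - x2) * y3) ≠ 0 := neg_ne_zero.mpr (mul_ne_zero hs hy)
  have e1 := off_cancel _ _ hα hβ _ h1
  have e2 := off_cancel _ _ hα hβ _ h2
  have hdiff : q2 z1 z2 z3 z4 - q2 z1 z2 (z4 / y3) (y3 * z3)
      = !![0, z3 - z4 / y3; z4 - y3 * z3, 0] := by
    ext i j
    fin_cases i <;> fin_cases j <;> simp [q2]
  have e3 : (!![0, z3 - z4 / y3; z4 - y3 * z3, 0] : M2 ℂ) * V = 0 := by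
    rw [← hdiff, sub_mul]
    linear_combination (norm := abel) e1 - e2
  have hz' : z4 - y3 * z3 ≠ 0 := sub_ne_zero.mpr hz
  have hz'' : z3 - z4 / y3 ≠ 0 := by
    intro h
    apply hz'
    field_simp at h
    linear_combination - h
  have hV0 := off_cancel _ _ hz'' hz' _ e3
  have hU0 : U = 0 := by
    rw [hV0, mul_zero, add_zero] at e1
    exact e1
  obtain ⟨a0, a2, a4, a6⟩ := U_cancel _ _ _ _ _ _ _ _ _ hx hy (hU ▸ hU0)
  obtain ⟨a1, a3, a5, a7⟩ := U_cancel _ _ _ _ _ _ _ _ _ hx hy (hV ▸ hV0)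
  intro i
  fin_cases i
  · exact a0
  · exact a1
  · exact a2
  · exact a3
  · exact a4
  · exact a5
  · exact a6
  · exact a7


/-- genericity polynomial -/
def Hval {R : Type*} [CommRing R] (θ : Fin 9 → R) : R :=
  (θ 0 ^ 2 - 4 * θ 1) *
  (θ 4 ^ 2 + θ 0 ^ 2 * θ 3 + θ 2 ^ 2 * θ 1 - θ 0 * θ 2 * θ 4 - 4 * θ 1 * θ 3) *
  ((θ 0 * θ 2 * θ 7 + θ 0 * θ 5 * θ 4 - 2 * θ 1 * θ 2 * θ 5 - 2 * θ 4 * θ 7
      - θ 8 * (θ 0 ^ 2 - 4 * θ 1)) ^ 2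
    - 4 * (θ 4 ^ 2 + θ 0 ^ 2 * θ 3 + θ 2 ^ 2 * θ 1 - θ 0 * θ 2 * θ 4 - 4 * θ 1 * θ 3)
      * (θ 7 ^ 2 + θ 0 ^ 2 * θ 6 + θ 5 ^ 2 * θ 1 - θ 0 * θ 5 * θ 7 - 4 * θ 1 * θ 6))

theorem step2 (θ : Fin 9 → ℂ) (hθ : Hval θ ≠ 0) :
    ∃ x1 x2 y1 y2 y3 z1 z2 z3 z4 : ℂ, x1 ≠ x2 ∧ y3 ≠ 0 ∧ z4 ≠ y3 * z3 ∧
      inv9 ![q0 x1 x2, q1 y1 y2 y3, q2 z1 z2 z3 z4] = θ ∧
      inv9 ![q0 x1 x2, q1 y1 y2 y3, q2 z1 z2 (z4 / y3) (y3 * z3)] = θ := by
  obtain ⟨s, hs⟩ := IsAlgClosed.exists_pow_nat_eq (θ 0 ^ 2 - 4 * θ 1) (n := 2) (by norm_num)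
  unfold Hval at hθ
  have hE : θ 0 ^ 2 - 4 * θ 1 ≠ 0 := fun h => hθ (by rw [h]; ring)
  have hD : θ 4 ^ 2 + θ 0 ^ 2 * θ 3 + θ 2 ^ 2 * θ 1 - θ 0 * θ 2 * θ 4 - 4 * θ 1 * θ 3 ≠ 0 :=
    fun h => hθ (by rw [h]; ring)
  have hF : (θ 0 * θ 2 * θ 7 + θ 0 * θ 5 * θ 4 - 2 * θ 1 * θ 2 * θ 5 - 2 * θ 4 * θ 7
      - θ 8 * (θ 0 ^ 2 - 4 * θ 1)) ^ 2
    - 4 * (θ 4 ^ 2 + θ 0 ^ 2 * θ 3 + θ 2 ^ 2 * θ 1 - θ 0 * θ 2 * θ 4 - 4 * θ 1 * θ 3)
      * (θ 7 ^ 2 + θ 0 ^ 2 * θ 6 + θ 5 ^ 2 * θ 1 - θ 0 * θ 5 * θ 7 - 4 * θ 1 * θ 6) ≠ 0 :=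
    fun h => hθ (by rw [h]; ring)
  have hs0 : s ≠ 0 := by
    rintro rfl
    apply hE
    rw [← hs]; ring
  set t1 := θ 0 with ht1
  set n1 := θ 1 with hn1
  set t2 := θ 2 with ht2
  set n2 := θ 3 with hn2
  set n12 := θ 4 with hn12
  set t3 := θ 5 with ht3
  set n3 := θ 6 with hn3
  set n13 := θ 7 with hn13
  set n23 := θ 8 with hn23
  have hn1' : n1 = (t1 ^ 2 - s ^ 2) / 4 := by rw [hs]; ring
  set x1 := (t1 + s) / 2 with hx1
  set x2 := (t1 - s) / 2 with hx2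
  set y1 := (x1 * t2 - n12) / s with hy1
  set y2 := (n12 - x2 * t2) / s with hy2
  set y3 := y1 * y2 - n2 with hy3
  set z1 := (x1 * t3 - n13) / s with hz1
  set z2 := (n13 - x2 * t3) / s with hz2
  set b := y1 * z2 + y2 * z1 - n23 with hb
  obtain ⟨r, hr⟩ := IsAlgClosed.exists_pow_nat_eq (b ^ 2 - 4 * y3 * (z1 * z2 - n3)) (n := 2)
    (by norm_num)
  set z4 := (b + r) / 2 with hz4
  have hy3' : s ^ 2 * y3 = - (n12 ^ 2 + t1 ^ 2 * n2 + t2 ^ 2 * n1 - t1 * t2 * n12 - 4 * n1 * n2) := by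
    rw [hy3, hy1, hy2, hx1, hx2, hn1']
    field_simp
    ring
  have hy30 : y3 ≠ 0 := by
    intro h
    apply hD
    rw [h, mul_zero] at hy3'
    linear_combination hy3'
  have hb' : s ^ 2 * b = t1 * t2 * n13 + t1 * t3 * n12 - 2 * n1 * t2 * t3 - 2 * n12 * n13
      - n23 * (t1 ^ 2 - 4 * n1) := by
    rw [hb, hy1, hy2, hz1, hz2, hx1, hx2, hn1']
    field_simp
    ring
  have hA' : s ^ 2 * (z1 * z2 - n3)
      = - (n13 ^ 2 + t1 ^ 2 * n3 + t3 ^ 2 * n1 - t1 * t3 * n13 - 4 * n1 * n3) := by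
    rw [hz1, hz2, hx1, hx2, hn1']
    field_simp
    ring
  have hr0 : r ≠ 0 := by
    rintro rfl
    apply hF
    rw [← hb']
    linear_combination (s ^ 4) * (- hr) + 4 * (s ^ 2 * (z1 * z2 - n3)) * hy3'
      - 4 * (n12 ^ 2 + t1 ^ 2 * n2 + t2 ^ 2 * n1 - t1 * t2 * n12 - 4 * n1 * n2) * hA'
  have hxx : x1 ≠ x2 := by
    intro h
    apply hs0
    have : x1 - x2 = s := by rw [hx1, hx2]; ring
    rw [← this, h, sub_self]
  set z3 := (b - r) / (2 * y3) with hz3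
  have hyz : y3 * z3 = (b - r) / 2 := by
    rw [hz3]; field_simp
  have hzz : z4 / y3 * (y3 * z3) = z1 * z2 - n3 := by
    rw [hyz, hz4]
    field_simp
    linear_combination - hr
  have hzz' : z3 * z4 = z1 * z2 - n3 := by
    rw [← hzz]; field_simp
  have e0 : x1 + x2 = t1 := by rw [hx1, hx2]; ring
  have e1 : x1 * x2 = n1 := by rw [hx1, hx2, hn1']; ring
  have e2 : y1 + y2 = t2 := by rw [hy1, hy2, hx1, hx2]; field_simp; ring
  have e3 : y1 * y2 - y3 = n2 := by rw [hy3]; ring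
  have e4 : x1 * y2 + y1 * x2 = n12 := by rw [hy1, hy2, hx1, hx2]; field_simp; ring
  have e5 : z1 + z2 = t3 := by rw [hz1, hz2, hx1, hx2]; field_simp; ring
  have e7 : x1 * z2 + z1 * x2 = n13 := by rw [hz1, hz2, hx1, hx2]; field_simp; ring
  have e8 : y1 * z2 + z1 * y2 - z4 - y3 * z3 = n23 := by
    rw [hyz, hz4]
    linear_combination - hb
  refine ⟨x1, x2, y1, y2, y3, z1, z2, z3, z4, hxx, hy30, ?_, ?_, ?_⟩
  · rw [hyz, hz4]
    intro h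
    apply hr0
    linear_combination h
  · rw [inv9_eq, e0, e1, e2, e3, e4, e5, e7, mul_comm z3 y3, e8, hzz']
    funext i
    fin_cases i
    · rfl
    · rfl
    · rfl
    · rfl
    · rfl
    · rfl
    · show z1 * z2 - (z1 * z2 - n3) = n3
      ring
    · rfl
    · rfl
  · rw [inv9_eq, e0, e1, e2, e3, e4, e5, e7, hzz]
    have e8' : y1 * z2 + z1 * y2 - y3 * z3 - z4 / y3 * y3 = n23 := by
      rw [← e8]; field_simp; ring
    rw [e8']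
    funext i
    fin_cases i
    · rfl
    · rfl
    · rfl
    · rfl
    · rfl
    · rfl
    · show z1 * z2 - (z1 * z2 - n3) = n3
      ring
    · rfl
    · rfl

theorem step3 (P : MvPolynomial (Fin 9) ℤ)
    (h : ∀ θ : Fin 9 → ℂ, Hval θ ≠ 0 → MvPolynomial.eval₂ (Int.castRingHom ℂ) θ P = 0) : P = 0 := by
  have hmap : MvPolynomial.map (Int.castRingHom ℂ) P * Hval (fun i => MvPolynomial.X i) = 0 := by
    apply MvPolynomial.funext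
    intro θ
    rw [map_mul, MvPolynomial.eval_map, map_zero]
    have e : (MvPolynomial.eval θ) (Hval fun i => MvPolynomial.X i) = Hval θ := by
      simp [Hval]
    rw [e]
    by_cases hθ : Hval θ = 0
    · rw [hθ, mul_zero]
    · rw [h θ hθ, zero_mul]
  have hH : Hval (fun i => (MvPolynomial.X i : MvPolynomial (Fin 9) ℂ)) ≠ 0 := by
    intro h0
    have := congrArg (MvPolynomial.eval (![1, 0, 0, 0, 1, 0, 0, 0, 1] : Fin 9 → ℂ)) h0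
    simp [Hval] at this
  rcases mul_eq_zero.mp hmap with h1 | h1
  · have hinj := MvPolynomial.map_injective (σ := Fin 9) (Int.castRingHom ℂ) Int.cast_injective
    apply hinj
    rw [h1, map_zero]
  · exact absurd h1 hH

/-- The independence theorem. -/
theorem indep (P : Fin 8 → MvPolynomial (Fin 9) ℤ)
    (h : ∀ x1 x2 y1 y2 y3 z1 z2 z3 z4 : ℂ, x1 ≠ x2 → y3 ≠ 0 →
      comb (q0 x1 x2 * q1 y1 y2 y3 - q1 y1 y2 y3 * q0 x1 x2)
        ![q0 x1 x2, q1 y1 y2 y3, q2 z1 z2 z3 z4]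
        (fun i => MvPolynomial.eval₂ (Int.castRingHom ℂ)
          (inv9 ![q0 x1 x2, q1 y1 y2 y3, q2 z1 z2 z3 z4]) (P i)) = 0) :
    ∀ i, P i = 0 := by
  intro i
  refine step3 (P i) (fun θ hθ => ?_)
  obtain ⟨x1, x2, y1, y2, y3, z1, z2, z3, z4, hx, hy, hz, e1, e2⟩ := step2 θ hθ
  have h1 := h x1 x2 y1 y2 y3 z1 z2 z3 z4 hx hy
  have h2 := h x1 x2 y1 y2 y3 z1 z2 (z4 / y3) (y3 * z3) hx hy
  rw [e1] at h1
  rw [e2] at h2
  exact step1 x1 x2 y1 y2 y3 z1 z2 z3 z4 hx hy hz _ h1 h2 i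

end

end Pool.Agent.Helper74
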