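import Pool.Agent.Helper74.Span
import Pool.Agent.Helper74.Indep

set_option autoImplicit false
set_option linter.unusedSimpArgs false
set_option linter.unusedSectionVars false
set_option linter.unusedVariables false

namespace Pool.Agent.Helper74

noncomputable section

open Polynomial

/-! ### Homogeneous components and powers -/

theorem pj_mul (k : ℕ) (p q : FA) :
    pj k (p * q) = ∑ ij ∈ Finset.HasAntidiagonal.antidiagonal k, pj ij.1 p * pj ij.2 q := by
  obtain ⟨p, rfl⟩ := mk_surj p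
  obtain ⟨q, rfl⟩ := mk_surj q
  rw [← map_mul, pj_mk, pr_mul, map_sum]
  refine Finset.sum_congr rfl (fun ij _ => ?_)
  rw [map_mul, pj_mk, pj_mk]

theorem pj_Pw (k : ℕ) : ∀ p ∈ Pw DT k, ∀ n, n < 3 * (k + 1) → pj n p = 0 := by
  have h0 : ∀ p ∈ DT, ∀ n, n < 3 → pj n p = 0 := by
    intro p hp n hn
    refine DT_ind (pj n).ker (fun m => ?_) hp
    rw [AddMonoidHom.mem_ker, pj_W n m.deg _ (DD_le _ (ev_mem m)), if_neg]
    have := deg_ge m
    omega
  induction k with
  | zero => intro p hp n hn; exact h0 p hp n (by omega)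
  | succ k ih =>
    intro p hp n hn
    refine Pw_succ_le DT k (pj n).ker (fun p hp d hd => ?_) hp
    rw [AddMonoidHom.mem_ker, AddMonoidHom.mem_ker, pj_mul, pj_mul]
    constructor
    · refine Finset.sum_eq_zero ?_
      rintro ⟨i, j⟩ hij
      rw [Finset.HasAntidiagonal.mem_antidiagonal] at hij
      simp only at hij ⊢
      by_cases hi : i < 3 * (k + 1)
      · rw [ih p hp i hi, zero_mul]
      · rw [h0 d hd j (by omega), mul_zero]
    · refine Finset.sum_eq_zero ?_
      rintro ⟨i, j⟩ hij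
      rw [Finset.HasAntidiagonal.mem_antidiagonal] at hij
      simp only at hij ⊢
      by_cases hj : j < 3 * (k + 1)
      · rw [ih p hp j hj, mul_zero]
      · rw [h0 d hd i (by omega), zero_mul]

theorem P2_homog (n : ℕ) (f : FA) (hf : f ∈ DD n) (hf2 : f ∈ Pw DT 1) :
    f = 0 ∨ ∃ m, m + 3 = n ∧ ∃ f1 ∈ DD m, f = aa * f1 := by
  obtain ⟨d, hd, p, hp, he⟩ := (mem_lm_sup _ _ _ _).mp (P2_le n hf2)
  have h1 : pj n f = f := by rw [pj_W n n f (DD_le _ hf), if_pos rfl]
  have h2 : pj n p = 0 := pj_Pw (n + 1) p hp n (by omega)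
  have h3 : f = pj n (aa * d) := by
    rw [← h1, he, map_add, h2, add_zero]
  rw [pj_mul] at h3
  by_cases hn : 3 ≤ n
  · right
    obtain ⟨m, rfl⟩ := Nat.exists_eq_add_of_le hn
    refine ⟨m, by omega, pj m d, pj_DT m d hd, ?_⟩
    rw [h3, Finset.sum_eq_single (3, m)]
    · rw [pj_W 3 3 aa (DD_le _ (ev_mem Mon.a)), if_pos rfl]
    · rintro ⟨i, j⟩ hij hne
      rw [Finset.HasAntidiagonal.mem_antidiagonal] at hij
      simp only at hij ⊢
      rw [pj_W i 3 aa (DD_le _ (ev_mem Mon.a)), if_neg, zero_mul]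
      rintro rfl
      exact hne (by rw [Prod.mk.injEq]; exact ⟨rfl, by omega⟩)
    · intro h
      exact absurd (by rw [Finset.HasAntidiagonal.mem_antidiagonal]) h
  · left
    rw [h3]
    refine Finset.sum_eq_zero ?_
    rintro ⟨i, j⟩ hij
    rw [Finset.HasAntidiagonal.mem_antidiagonal] at hij
    simp only at hij ⊢
    rw [pj_W i 3 aa (DD_le _ (ev_mem Mon.a)), if_neg (by omega), zero_mul]

/-! ### Factoring homomorphisms -/

theorem exists_factor {A B C : Type*} [NonUnitalNonAssocRing A] [NonUnitalNonAssocRing B]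
    [NonUnitalNonAssocRing C] (q : A →ₙ+* B) (hq : Function.Surjective q) (φ : A →ₙ+* C)
    (h : ∀ t, q t = 0 → φ t = 0) : ∃ χ : B →ₙ+* C, ∀ t, χ (q t) = φ t := by
  have key : ∀ s t, q s = q t → φ s = φ t := by
    intro s t hst
    rw [← sub_eq_zero, ← map_sub]
    exact h _ (by rw [map_sub, hst, sub_self])
  have hs := Function.surjInv_eq hq
  refine ⟨{ toFun := fun b => φ (Function.surjInv hq b)
            map_mul' := ?_
            map_zero' := ?_
            map_add' := ?_ }, ?_⟩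
  · intro a b
    rw [← map_mul]
    exact key _ _ (by rw [map_mul, hs, hs, hs])
  · rw [← map_zero φ]
    exact key _ _ (by rw [hs, map_zero])
  · intro a b
    rw [← map_add]
    exact key _ _ (by rw [map_add, hs, hs, hs])
  · intro t
    exact key _ _ (hs _)

/-! ### Detection modulo `P_2` -/

/-- properties of the specialised homomorphism -/
structure Det (Q : Fin 3 → M2 ℂ) (φ : FA →ₙ+* Oct ℂ 0) : Prop where
  a : ∀ i, (φ (XX i)).a = Q i
  b0 : (φ (XX 0)).b = 0
  b1 : (φ (XX 1)).b = 0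
  b2 : (φ (XX 2)).b = 1

theorem Det.val {Q : Fin 3 → M2 ℂ} {φ : FA →ₙ+* Oct ℂ 0} (h : Det Q φ) :
    (φ aa).a = 0 ∧ (φ aa).b = Q 0 * Q 1 - Q 1 * Q 0 := by
  unfold Pool.Agent.Helper74.aa
  rw [map_as]
  constructor
  · simp only [as, Oct.sub_a, Oct.mul_a, h.a, zero_smul, add_zero]
    rw [mul_assoc, sub_self]
  · simp only [as, Oct.sub_b, Oct.mul_b, Oct.mul_a, h.a, h.b0, h.b1, h.b2, zero_smul, add_zero,
      zero_mul, one_mul]

theorem Det.DT_a {Q : Fin 3 → M2 ℂ} {φ : FA →ₙ+* Oct ℂ 0} (h : Det Q φ) (t : FA) (ht : t ∈ DT) :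
    (φ t).a = 0 := by
  let S : AddSubgroup FA :=
    { carrier := {t | (φ t).a = 0}
      zero_mem' := by
        show (φ 0).a = 0
        rw [map_zero]; rfl
      add_mem' := by
        intro a b ha hb
        show (φ (a + b)).a = 0
        rw [map_add, Oct.add_a]
        rw [show (φ a).a = 0 from ha, show (φ b).a = 0 from hb, add_zero]
      neg_mem' := by
        intro a ha
        show (φ (-a)).a = 0
        rw [map_neg, Oct.neg_a, show (φ a).a = 0 from ha, neg_zero] }
  refine DT_ind S (fun m => ?_) ht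
  induction m with
  | a => exact h.val.1
  | L w m ih =>
    show (φ (wd w * m.ev)).a = 0
    rw [map_mul, Oct.mul_a, show (φ m.ev).a = 0 from ih, mul_zero, zero_smul, add_zero]
  | R w m ih =>
    show (φ (m.ev * wd w)).a = 0
    rw [map_mul, Oct.mul_a, show (φ m.ev).a = 0 from ih, zero_mul, zero_smul, add_zero]

theorem Det.P2 {Q : Fin 3 → M2 ℂ} {φ : FA →ₙ+* Oct ℂ 0} (h : Det Q φ) (t : FA)
    (ht : t ∈ Pw DT 1) : φ t = 0 := by
  let S : AddSubgroup FA :=
    { carrier := {t | φ t = 0}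
      zero_mem' := map_zero φ
      add_mem' := by
        intro a b ha hb
        show φ (a + b) = 0
        rw [map_add, show φ a = 0 from ha, show φ b = 0 from hb, add_zero]
      neg_mem' := by
        intro a ha
        show φ (-a) = 0
        rw [map_neg, show φ a = 0 from ha, neg_zero] }
  have key : ∀ p ∈ DT, ∀ d ∈ DT, φ (p * d) = 0 := by
    intro p hp d hd
    have h1 := h.DT_a p hp
    have h2 := h.DT_a d hd
    rw [map_mul]
    ext1
    · rw [Oct.mul_a, h1, zero_mul, zero_smul, add_zero]; rfl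
    · rw [Oct.mul_b, h1, h2, bar_zero, mul_zero, mul_zero, add_zero]; rfl
  exact Pw_succ_le DT 0 S (fun p hp d hd => ⟨key p hp d hd, key d hd p hp⟩) ht

/-- the quotient is a Cayley bimodule -/
theorem CB_quot {B : Type} [NonUnitalNonAssocRing B] (q : FA →ₙ+* B)
    (hq : Function.Surjective q) (hker : ∀ t, q t = 0 ↔ t ∈ Pw DT 1) : CB B (DT.map q) where
  left u m hm := by
    obtain ⟨u, rfl⟩ := hq u
    obtain ⟨m, hm, rfl⟩ := hm
    exact ⟨u * m, DT_isId.1 u m hm, map_mul q u m⟩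
  right u m hm := by
    obtain ⟨u, rfl⟩ := hq u
    obtain ⟨m, hm, rfl⟩ := hm
    exact ⟨m * u, DT_isId.2 u m hm, map_mul q m u⟩
  g u v m hm := by
    obtain ⟨u, rfl⟩ := hq u
    obtain ⟨v, rfl⟩ := hq v
    obtain ⟨m, hm, rfl⟩ := hm
    have := (hker _).mpr (FA_gg u v m hm)
    rw [gg, map_sub, map_as, map_mul, map_sub, map_mul, map_mul] at this
    exact sub_eq_zero.mp this
  g' u v m hm := by
    obtain ⟨u, rfl⟩ := hq u
    obtain ⟨v, rfl⟩ := hq v
    obtain ⟨m, hm, rfl⟩ := hm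
    have := (hker _).mpr (FA_gp u v m hm)
    rw [gp, map_add, map_as, map_mul, map_sub, map_mul, map_mul] at this
    exact eq_neg_of_add_eq_zero_left this

theorem detect (f : FA) (hf : f ∈ DT)
    (h : ∀ x1 x2 y1 y2 y3 z1 z2 z3 z4 : ℂ, x1 ≠ x2 → y3 ≠ 0 → ∃ φ : FA →ₙ+* Oct ℂ 0,
      Det ![q0 x1 x2, q1 y1 y2 y3, q2 z1 z2 z3 z4] φ ∧ φ f = 0) : f ∈ Pw DT 1 := by
  have hid := Pw_isId DT DT_isId 1
  obtain ⟨B, instB, q, hq, hker⟩ := exists_quotient (Pw DT 1) hid.1 hid.2
  have : IsAlt B := IsAlt.of_surjective q hq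
  obtain ⟨M, H, hM1, hM2⟩ : ∃ M : AddSubgroup B, CB B M ∧ (∀ t ∈ DT, q t ∈ M) ∧
      (∀ b ∈ M, ∃ t ∈ DT, q t = b) :=
    ⟨_, CB_quot q hq hker, fun t ht => ⟨t, ht, rfl⟩, fun b hb => hb⟩
  obtain ⟨Ψ, hΨ⟩ := exists_eval (Th H (fun i => q (XX i))) (Th_comm H _)
  let a : M := ⟨q aa, hM1 _ aa_mem⟩
  let m : M := ⟨q f, hM1 _ hf⟩
  obtain ⟨P, hP⟩ := span_thm H (fun i => q (XX i)) a Ψ hΨ (by
    intro S ha hS m
    obtain ⟨m, hm⟩ := m
    obtain ⟨t, ht, rfl⟩ := hM2 m hm
    have h1 : DT ≤ (S.map M.subtype).comap q.toAddMonoidHom := by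
      refine DT_letter _ ⟨a, ha, rfl⟩ ?_ ?_
      · intro p hp
        refine ⟨0, S.zero_mem, ?_⟩
        exact ((hker p).mpr hp).symm
      · rintro d ⟨⟨_, hd1⟩, hd2, rfl⟩ hd i
        have := hS _ hd2 i
        exact ⟨⟨_, this.1, (map_mul q _ _).symm⟩, ⟨_, this.2, (map_mul q _ _).symm⟩⟩
    obtain ⟨⟨s, hs1⟩, hs2, hs3⟩ := h1 ht
    have : s = q t := hs3
    subst this
    exact hs2) m
  have hP0 : ∀ i, P i = 0 := by
    refine indep P ?_
    intro x1 x2 y1 y2 y3 z1 z2 z3 z4 hx hy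
    obtain ⟨φ, hφ, hφf⟩ := h x1 x2 y1 y2 y3 z1 z2 z3 z4 hx hy
    set Q : Fin 3 → M2 ℂ := ![q0 x1 x2, q1 y1 y2 y3, q2 z1 z2 z3 z4] with hQ
    obtain ⟨χ, hχ⟩ := exists_factor q hq φ (fun t ht => hφ.P2 t ((hker t).mp ht))
    -- the map lam
    let lam : M →+ M2 ℂ := AddMonoidHom.mk' (fun m : M => (χ (m : B)).b) (fun a b => by
      rw [AddSubgroup.coe_add, map_add, Oct.add_b])
    have hchi_a : ∀ m : M, (χ (m : B)).a = 0 := by
      rintro ⟨m, hm⟩
      obtain ⟨t, ht, rfl⟩ := hM2 m hm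
      show (χ (q t)).a = 0
      rw [hχ]
      exact hφ.DT_a t ht
    have hL : ∀ u (m : M), lam (Lo H u m) = lam m * (χ u).a := by
      intro u m
      show (χ (u * (m : B))).b = (χ (m : B)).b * (χ u).a
      rw [map_mul, Oct.mul_b, hchi_a, bar_zero, mul_zero, add_zero]
    have hR : ∀ u (m : M), lam (Ro H u m) = lam m * bar (χ u).a := by
      intro u m
      show (χ ((m : B) * u)).b = (χ (m : B)).b * bar (χ u).a
      rw [map_mul, Oct.mul_b, hchi_a, mul_zero, zero_add]
    have hT : ∀ u (m : M), lam (To H u m) = tr (χ u).a • lam m := by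
      intro u m
      show lam (Lo H u m + Ro H u m) = _
      rw [map_add, hL, hR, ← mul_add, add_bar, mul_smul_comm, mul_one]
    have hN : ∀ u (m : M), lam (No H u m) = nm (χ u).a • lam m := by
      intro u m
      show lam (Lo H u (Ro H u m)) = _
      rw [hL, hR, mul_assoc, bar_mul_self, mul_smul_comm, mul_one]
    have hNN : ∀ u v (m : M), lam (NNo H u v m) = nn (χ u).a (χ v).a • lam m := by
      intro u v m
      show lam (Lo H u (Ro H v m) + Lo H v (Ro H u m)) = _
      rw [map_add, hL, hR, hL, hR, mul_assoc, mul_assoc, ← mul_add, add_comm, bar_mul_add,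
        mul_smul_comm, mul_one]
    have hXa : ∀ i, (χ (q (XX i))).a = Q i := by
      intro i
      rw [hχ]
      exact hφ.a i
    have hTh : ∀ i (m : M), lam (Th H (fun i => q (XX i)) i m) = inv9 Q i • lam m := by
      intro i m
      fin_cases i
      · exact (hT _ m).trans (by rw [hXa]; rfl)
      · exact (hN _ m).trans (by rw [hXa]; rfl)
      · exact (hT _ m).trans (by rw [hXa]; rfl)
      · exact (hN _ m).trans (by rw [hXa]; rfl)
      · exact (hNN _ _ m).trans (by rw [hXa, hXa]; rfl)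
      · exact (hT _ m).trans (by rw [hXa]; rfl)
      · exact (hN _ m).trans (by rw [hXa]; rfl)
      · exact (hNN _ _ m).trans (by rw [hXa, hXa]; rfl)
      · exact (hNN _ _ m).trans (by rw [hXa, hXa]; rfl)
    have hPsi : ∀ (p : MvPolynomial (Fin 9) ℤ) (m : M),
        lam (Ψ p m) = MvPolynomial.eval₂ (Int.castRingHom ℂ) (inv9 Q) p • lam m := by
      intro p
      induction p using MvPolynomial.induction_on with
      | C z =>
        intro m
        have e : Ψ (MvPolynomial.C z) = (z : AddMonoid.End (M)) := by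
          have : (MvPolynomial.C z : MvPolynomial (Fin 9) ℤ) = (z : MvPolynomial (Fin 9) ℤ) := by
            simp
          rw [this, map_intCast]
        rw [e, MvPolynomial.eval₂_C]
        have e2 : ((z : AddMonoid.End (M)) : AddMonoid.End (M)) m = z • m := by
          simp
        rw [e2, map_zsmul]
        exact (Int.cast_smul_eq_zsmul ℂ z (lam m)).symm
      | add p p' hp hp' =>
        intro m
        have e : Ψ (p + p') m = Ψ p m + Ψ p' m := by rw [map_add]; rfl
        rw [e, map_add, hp, hp', MvPolynomial.eval₂_add, add_smul]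
      | mul_X p i hp =>
        intro m
        rw [map_mul, hΨ, MvPolynomial.eval₂_mul, MvPolynomial.eval₂_X]
        show lam (Ψ p (Th H (fun i => q (XX i)) i m)) = _
        rw [hp, hTh, smul_smul]
    have hlama : lam a = q0 x1 x2 * q1 y1 y2 y3 - q1 y1 y2 y3 * q0 x1 x2 := by
      show (χ (q aa)).b = _
      rw [hχ]
      exact hφ.val.2
    have hlamm : lam m = 0 := by
      show (χ (q f)).b = 0
      rw [hχ, hφf]
      rfl
    rw [hP] at hlamm
    simp only [map_add, hL, hPsi, hlama, hXa] at hlamm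
    unfold comb
    simp only [add_mul] at hlamm ⊢
    exact hlamm
  have hm : m = 0 := by
    rw [hP]
    simp [hP0]
  have : q f = 0 := congrArg Subtype.val hm
  exact (hker f).mp this

/-! ### The generic homomorphism -/

theorem off_left {R : Type*} [CommRing R] [IsDomain R] (α β : R) (hα : α ≠ 0) (hβ : β ≠ 0)
    (T : M2 R) (h : (!![0, α; β, 0] : M2 R) * T = 0) : T = 0 := by
  have h00 := congrFun (congrFun h 0) 0
  have h01 := congrFun (congrFun h 0) 1
  have h10 := congrFun (congrFun h 1) 0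
  have h11 := congrFun (congrFun h 1) 1
  simp [Matrix.mul_apply, Fin.sum_univ_two, hα, hβ] at h00 h01 h10 h11
  ext i j
  fin_cases i <;> fin_cases j
  · exact h10
  · exact h11
  · exact h00
  · exact h01

theorem off_right {R : Type*} [CommRing R] [IsDomain R] (α β : R) (hα : α ≠ 0) (hβ : β ≠ 0)
    (T : M2 R) (h : T * (!![0, α; β, 0] : M2 R) = 0) : T = 0 := by
  have h00 := congrFun (congrFun h 0) 0
  have h01 := congrFun (congrFun h 0) 1
  have h10 := congrFun (congrFun h 1) 0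
  have h11 := congrFun (congrFun h 1) 1
  simp [Matrix.mul_apply, Fin.sum_univ_two, hα, hβ] at h00 h01 h10 h11
  ext i j
  fin_cases i <;> fin_cases j
  · exact h01
  · exact h00
  · exact h11
  · exact h10

/-- properties of the generic homomorphism -/
structure DetX (Q : Fin 3 → M2 ℂ) (φ : FA →ₙ+* Oct ℂ[X] X) : Prop where
  a : ∀ i, (φ (XX i)).a = (Q i).map C
  b0 : (φ (XX 0)).b = 0
  b1 : (φ (XX 1)).b = 0
  b2 : (φ (XX 2)).b = 1

theorem exists_detX (Q : Fin 3 → M2 ℂ) : ∃ φ : FA →ₙ+* Oct ℂ[X] X, DetX Q φ := by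
  obtain ⟨φ, hφ⟩ := exists_lift (B := Oct ℂ[X] X)
    ![⟨(Q 0).map C, 0⟩, ⟨(Q 1).map C, 0⟩, ⟨(Q 2).map C, 1⟩]
  have h0 : φ (XX 0) = ⟨(Q 0).map C, 0⟩ := hφ 0
  have h1 : φ (XX 1) = ⟨(Q 1).map C, 0⟩ := hφ 1
  have h2 : φ (XX 2) = ⟨(Q 2).map C, 1⟩ := hφ 2
  refine ⟨φ, ⟨?_, ?_, ?_, ?_⟩⟩
  · intro i
    fin_cases i
    · show (φ (XX 0)).a = _
      rw [h0]; rfl
    · show (φ (XX 1)).a = _
      rw [h1]; rfl
    · show (φ (XX 2)).a = _
      rw [h2]; rfl
  · rw [h0]
  · rw [h1]
  · rw [h2]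

theorem DetX.det {Q : Fin 3 → M2 ℂ} {φ : FA →ₙ+* Oct ℂ[X] X} (h : DetX Q φ) :
    Det Q ((Oct.map X (Polynomial.evalRingHom (0 : ℂ)) 0 (by simp)).comp φ) := by
  constructor
  · intro i
    show ((φ (XX i)).a).map (Polynomial.evalRingHom (0 : ℂ)) = Q i
    rw [h.a]
    ext i j
    simp
  · show ((φ (XX 0)).b).map (Polynomial.evalRingHom (0 : ℂ)) = 0
    rw [h.b0]
    ext i j
    simp
  · show ((φ (XX 1)).b).map (Polynomial.evalRingHom (0 : ℂ)) = 0
    rw [h.b1]
    ext i j
    simp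
  · show ((φ (XX 2)).b).map (Polynomial.evalRingHom (0 : ℂ)) = 1
    rw [h.b2]
    ext i j
    fin_cases i <;> fin_cases j <;> simp

theorem DetX.val {Q : Fin 3 → M2 ℂ} {φ : FA →ₙ+* Oct ℂ[X] X} (h : DetX Q φ) :
    (φ aa).a = 0 ∧ (φ aa).b = (Q 0).map C * (Q 1).map C - (Q 1).map C * (Q 0).map C := by
  unfold Pool.Agent.Helper74.aa
  rw [map_as]
  constructor
  · simp only [as, Oct.sub_a, Oct.mul_a, Oct.mul_b, h.a, h.b0, h.b1, h.b2, zero_mul, mul_zero,
      smul_zero, add_zero, zero_add, bar_zero]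
    rw [mul_assoc, sub_self]
  · simp only [as, Oct.sub_b, Oct.mul_b, Oct.mul_a, h.a, h.b0, h.b1, h.b2, zero_mul, mul_zero,
      smul_zero, add_zero, zero_add, bar_zero, one_mul]

/-- cancellation of the associator -/
theorem DetX.cancel {x1 x2 y1 y2 y3 z1 z2 z3 z4 : ℂ} (hx : x1 ≠ x2) (hy : y3 ≠ 0)
    {φ : FA →ₙ+* Oct ℂ[X] X}
    (h : DetX ![q0 x1 x2, q1 y1 y2 y3, q2 z1 z2 z3 z4] φ) (f : FA) (hf : φ (aa * f) = 0) :
    φ f = 0 := by
  obtain ⟨ha, hb⟩ := h.val
  have hs : x1 - x2 ≠ 0 := sub_ne_zero.mpr hx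
  have hb' : (φ Pool.Agent.Helper74.aa).b
      = !![0, C (x1 - x2); C (- ((x1 - x2) * y3)), 0] := by
    rw [hb]
    ext i j : 1
    fin_cases i <;> fin_cases j <;>
      simp [q0, q1, Matrix.mul_apply, Fin.sum_univ_two] <;> ring
  have hα : (C (x1 - x2) : ℂ[X]) ≠ 0 := by
    rw [Ne, Polynomial.C_eq_zero]; exact hs
  have hβ : (C (- ((x1 - x2) * y3)) : ℂ[X]) ≠ 0 := by
    rw [Ne, Polynomial.C_eq_zero]; exact neg_ne_zero.mpr (mul_ne_zero hs hy)
  rw [map_mul] at hf
  have e1 := congrArg Oct.a hf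
  have e2 := congrArg Oct.b hf
  rw [Oct.mul_a, ha, zero_mul, zero_add, hb'] at e1
  rw [Oct.mul_b, ha, mul_zero, zero_add, hb'] at e2
  have e2' := off_left _ _ hα hβ _ e2
  have e1' : bar (φ f).b * !![0, C (x1 - x2); C (- ((x1 - x2) * y3)), 0] = 0 := by
    ext i j : 1
    have := congrFun (congrFun e1 i) j
    rw [Matrix.smul_apply, smul_eq_mul] at this
    rcases mul_eq_zero.mp this with h | h
    · exact absurd h Polynomial.X_ne_zero
    · exact h
  have e3 := off_right _ _ hα hβ _ e1'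
  ext1
  · rw [← bar_bar (φ f).a, e2', bar_zero]; rfl
  · rw [← bar_bar (φ f).b, e3, bar_zero]; rfl

theorem final_D (n : ℕ) : ∀ f ∈ DD n, (∀ x1 x2 y1 y2 y3 z1 z2 z3 z4 : ℂ, x1 ≠ x2 → y3 ≠ 0 →
    ∀ φ, DetX ![q0 x1 x2, q1 y1 y2 y3, q2 z1 z2 z3 z4] φ → φ f = 0) → f = 0 := by
  induction n using Nat.strong_induction_on with
  | _ n ih =>
    intro f hf h
    have hP2 : f ∈ Pw DT 1 := by
      refine detect f (DD_le_DT n hf) ?_
      intro x1 x2 y1 y2 y3 z1 z2 z3 z4 hx hy
      obtain ⟨φ, hφ⟩ := exists_detX ![q0 x1 x2, q1 y1 y2 y3, q2 z1 z2 z3 z4]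
      refine ⟨_, hφ.det, ?_⟩
      rw [NonUnitalRingHom.comp_apply, h x1 x2 y1 y2 y3 z1 z2 z3 z4 hx hy φ hφ, map_zero]
    rcases P2_homog n f hf hP2 with h0 | ⟨m, hm, f1, hf1, rfl⟩
    · exact h0
    · have : f1 = 0 := by
        refine ih m (by omega) f1 hf1 ?_
        intro x1 x2 y1 y2 y3 z1 z2 z3 z4 hx hy φ hφ
        exact hφ.cancel hx hy f1 (h x1 x2 y1 y2 y3 z1 z2 z3 z4 hx hy φ hφ)
      rw [this, mul_zero]

/-! ### Words are independent modulo `D` -/

/-- the free associative ring on three generators -/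
abbrev FAss := MonoidAlgebra ℤ (FreeMonoid (Fin 3))

instance : IsAlt FAss where
  left_alt a b := mul_assoc a a b
  right_alt a b := mul_assoc b a a

theorem W_torsion (k : ℕ) (g : FA) (hg : g ∈ WW k) (n : ℕ) (hn : 0 < n) (h : n • g = 0) :
    g ∈ DD k := by
  obtain ⟨ψ, hψ⟩ := exists_lift (B := FAss) (fun i => MonoidAlgebra.single (FreeMonoid.of i) 1)
  have hψ' : ∀ i, ψ (XX i) = MonoidAlgebra.single (FreeMonoid.of i) 1 := hψ
  have hD : ∀ t ∈ DT, ψ t = 0 := by
    intro t ht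
    let S : AddSubgroup FA :=
      { carrier := {t | ψ t = 0}
        zero_mem' := map_zero ψ
        add_mem' := by
          intro a b ha hb
          show ψ (a + b) = 0
          rw [map_add, show ψ a = 0 from ha, show ψ b = 0 from hb, add_zero]
        neg_mem' := by
          intro a ha
          show ψ (-a) = 0
          rw [map_neg, show ψ a = 0 from ha, neg_zero] }
    refine DT_ind S (fun m => ?_) ht
    induction m with
    | a =>
      show ψ (as _ _ _) = 0
      rw [map_as, as, mul_assoc, sub_self]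
    | L w m ih =>
      show ψ (wd w * m.ev) = 0
      rw [map_mul, show ψ m.ev = 0 from ih, mul_zero]
    | R w m ih =>
      show ψ (m.ev * wd w) = 0
      rw [map_mul, show ψ m.ev = 0 from ih, zero_mul]
  -- the section
  let sec : FreeMonoid (Fin 3) → FA := fun w => match FreeMonoid.toList w with
    | [] => 0
    | q :: L => Rv XX L (XX q)
  let σ : FAss →+ FA :=
    (Finsupp.liftAddHom (fun w => (zmultiplesHom FA) (sec w))).comp
      (MonoidAlgebra.coeffAddEquiv (R := ℤ) (M := FreeMonoid (Fin 3))).toAddMonoidHom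
  have hσ : ∀ w, σ (MonoidAlgebra.single w 1) = sec w := by
    intro w
    show (Finsupp.liftAddHom (fun w => (zmultiplesHom FA) (sec w)))
      (MonoidAlgebra.single w 1).coeff = sec w
    rw [MonoidAlgebra.coeff_single, Finsupp.liftAddHom_apply_single]
    simp
  have hR : ∀ (L : List (Fin 3)) (w : FreeMonoid (Fin 3)) (v : FA),
      ψ v = MonoidAlgebra.single w 1 →
      ψ (Rv XX L v) = MonoidAlgebra.single (w * FreeMonoid.ofList L) 1 := by
    intro L
    induction L with
    | nil =>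
      intro w v hv
      rw [Rv_nil, hv]
      simp
    | cons i L ih =>
      intro w v hv
      rw [Rv_cons, ih (w * FreeMonoid.of i) (v * XX i)
        (by rw [map_mul, hv, hψ', MonoidAlgebra.single_mul_single, mul_one]), mul_assoc]
      rfl
  have hLN : ∀ t ∈ LN XX k, σ (ψ t) = t := by
    intro t ht
    unfold LN at ht
    induction ht using AddSubgroup.closure_induction with
    | mem t ht =>
      obtain ⟨q, L, hL, rfl⟩ := ht
      rw [hR L _ _ (hψ' q), hσ]
      rfl
    | zero => simp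
    | add a b _ _ ha hb => rw [map_add, map_add, ha, hb]
    | neg a _ ha => rw [map_neg, map_neg, ha]
  obtain ⟨g1, h1, g2, h2, rfl⟩ := AddSubgroup.mem_sup.mp (LN_span grFA FA_t3 k hg)
  have e1 : n • ψ g1 = 0 := by
    have := congrArg ψ h
    rw [map_nsmul, map_add, hD g2 (DD_le_DT k h2), add_zero, map_zero] at this
    exact this
  have e2 : ψ g1 = 0 := by
    rcases smul_eq_zero.mp e1 with h | h
    · omega
    · exact h
  have e3 : g1 = 0 := by rw [← hLN g1 h1, e2, map_zero]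
  rw [e3, zero_add]
  exact h2

theorem FA_torsion_free (f : FA) (n : ℕ) (hn : 0 < n) (h : n • f = 0) : f = 0 := by
  have key : ∀ k, pj k f = 0 := by
    intro k
    have h1 : n • pj k f = 0 := by rw [← map_nsmul, h, map_zero]
    have h2 := W_torsion k (pj k f) (pj_mem k f) n hn h1
    refine final_D k _ h2 ?_
    intro x1 x2 y1 y2 y3 z1 z2 z3 z4 hx hy φ hφ
    have h3 : n • φ (pj k f) = 0 := by rw [← map_nsmul, h1, map_zero]
    have hna : ∀ (m : ℕ) (x : Oct ℂ[X] X), (m • x).a = m • x.a := by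
      intro m x
      induction m with
      | zero => simp
      | succ m ih => rw [succ_nsmul, Oct.add_a, ih, succ_nsmul]
    have hnb : ∀ (m : ℕ) (x : Oct ℂ[X] X), (m • x).b = m • x.b := by
      intro m x
      induction m with
      | zero => simp
      | succ m ih => rw [succ_nsmul, Oct.add_b, ih, succ_nsmul]
    have h4 : n • (φ (pj k f)).a = 0 := by rw [← hna, h3]; rfl
    have h5 : n • (φ (pj k f)).b = 0 := by rw [← hnb, h3]; rfl
    ext1
    · ext i j : 1
      have h6 := congrFun (congrFun h4 i) j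
      rw [Matrix.smul_apply] at h6
      rcases smul_eq_zero.mp h6 with h | h
      · omega
      · exact h
    · ext i j : 1
      have h6 := congrFun (congrFun h5 i) j
      rw [Matrix.smul_apply] at h6
      rcases smul_eq_zero.mp h6 with h | h
      · omega
      · exact h
  obtain ⟨N, hN⟩ := pj_sum f
  rw [← hN]
  exact Finset.sum_eq_zero (fun k _ => key k)

end

end Pool.Agent.Helper74
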