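import Pool.Agent.Helper74.F3

set_option autoImplicit false
set_option linter.unusedSimpArgs false
set_option linter.unusedSectionVars false
set_option linter.unusedVariables false

namespace Pool.Agent.Helper74

noncomputable section

/-- the free nonassociative ring on three generators -/
abbrev FM := MonoidAlgebra ℤ (FreeMagma (Fin 3))

/-- the alternative laws -/
def rel : FM → FM → Prop := fun p q =>
  ∃ a b : FM, (p = (a * a) * b ∧ q = a * (a * b)) ∨ (p = (b * a) * a ∧ q = b * (a * a))

/-- the free alternative ring on three generators -/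
def FA : Type := (ringConGen rel).Quotient

instance : NonUnitalNonAssocRing FA := inferInstanceAs (NonUnitalNonAssocRing (ringConGen rel).Quotient)

/-- the projection -/
def mk : FM →ₙ+* FA where
  toFun := fun a => (a : (ringConGen rel).Quotient)
  map_mul' := fun a b => rfl
  map_zero' := rfl
  map_add' := fun a b => rfl

theorem mk_surj : Function.Surjective mk := by
  intro b
  induction b using Quotient.inductionOn' with
  | h a => exact ⟨a, rfl⟩

theorem mk_eq_iff (p q : FM) : mk p = mk q ↔ RingConGen.Rel rel p q :=
  (ringConGen rel).eq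

instance : IsAlt FA where
  left_alt a b := by
    obtain ⟨a, rfl⟩ := mk_surj a
    obtain ⟨b, rfl⟩ := mk_surj b
    rw [← map_mul, ← map_mul, ← map_mul, ← map_mul, mk_eq_iff]
    exact RingConGen.Rel.of _ _ ⟨a, b, Or.inl ⟨rfl, rfl⟩⟩
  right_alt a b := by
    obtain ⟨a, rfl⟩ := mk_surj a
    obtain ⟨b, rfl⟩ := mk_surj b
    rw [← map_mul, ← map_mul, ← map_mul, ← map_mul, mk_eq_iff]
    exact RingConGen.Rel.of _ _ ⟨a, b, Or.inr ⟨rfl, rfl⟩⟩

/-- the universal property -/
theorem exists_lift {B : Type*} [NonUnitalNonAssocRing B] [IsAlt B] (y : Fin 3 → B) :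
    ∃ φ : FA →ₙ+* B, ∀ i, φ (mk (MonoidAlgebra.single (FreeMagma.of i) 1)) = y i := by
  let ψ : FM →ₙₐ[ℤ] B := MonoidAlgebra.liftMagma ℤ (FreeMagma.lift y)
  have hψ : ∀ p q : FM, RingConGen.Rel rel p q → ψ p = ψ q := by
    intro p q h
    induction h with
    | of p q h =>
      obtain ⟨a, b, h | h⟩ := h
      · rw [h.1, h.2, map_mul, map_mul, map_mul, map_mul, Pool.Agent.Helper74.left_alt]
      · rw [h.1, h.2, map_mul, map_mul, map_mul, map_mul, Pool.Agent.Helper74.right_alt]
    | refl => rfl
    | symm _ h => exact h.symm
    | trans _ _ h1 h2 => exact h1.trans h2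
    | add _ _ h1 h2 => rw [map_add, map_add, h1, h2]
    | mul _ _ h1 h2 => rw [map_mul, map_mul, h1, h2]
  refine ⟨{ toFun := Quotient.lift (s := (ringConGen rel).toSetoid) ψ hψ
            map_mul' := ?_
            map_zero' := map_zero ψ
            map_add' := ?_ }, ?_⟩
  · intro a b
    obtain ⟨a, rfl⟩ := mk_surj a
    obtain ⟨b, rfl⟩ := mk_surj b
    exact map_mul ψ a b
  · intro a b
    obtain ⟨a, rfl⟩ := mk_surj a
    obtain ⟨b, rfl⟩ := mk_surj b
    exact map_add ψ a b
  · intro i
    show ψ _ = _
    simp [ψ]

/-! ### Homogeneous components -/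

/-- projection to the homogeneous component of degree `k` -/
def pr (k : ℕ) : FM →+ FM where
  toFun f := MonoidAlgebra.ofCoeff (f.coeff.filter (fun w => w.length = k))
  map_zero' := by rw [MonoidAlgebra.coeff_zero, Finsupp.filter_zero, MonoidAlgebra.ofCoeff_zero]
  map_add' f g := by
    rw [MonoidAlgebra.coeff_add, Finsupp.filter_add, MonoidAlgebra.ofCoeff_add]

theorem pr_single (k : ℕ) (w : FreeMagma (Fin 3)) (a : ℤ) :
    pr k (MonoidAlgebra.single w a) = if w.length = k then MonoidAlgebra.single w a else 0 := by
  show MonoidAlgebra.ofCoeff _ = _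
  rw [MonoidAlgebra.coeff_single]
  split_ifs with h
  · rw [Finsupp.filter_single_of_pos (fun w : FreeMagma (Fin 3) => w.length = k) h,
      MonoidAlgebra.ofCoeff_single]
  · rw [Finsupp.filter_single_of_neg (fun w : FreeMagma (Fin 3) => w.length = k) h,
      MonoidAlgebra.ofCoeff_zero]

theorem pr_mul (k : ℕ) (p q : FM) :
    pr k (p * q) = ∑ ij ∈ Finset.HasAntidiagonal.antidiagonal k, pr ij.1 p * pr ij.2 q := by
  induction p using MonoidAlgebra.induction_linear with
  | zero => simp
  | add p p' h h' => simp only [add_mul, map_add, h, h', Finset.sum_add_distrib]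
  | single u a =>
    induction q using MonoidAlgebra.induction_linear with
    | zero => simp
    | add p p' h h' => simp only [mul_add, map_add, h, h', Finset.sum_add_distrib]
    | single v b =>
      rw [MonoidAlgebra.single_mul_single, pr_single]
      have hl : (u * v).length = u.length + v.length := rfl
      rw [hl]
      split_ifs with h
      · rw [Finset.sum_eq_single (u.length, v.length)]
        · rw [pr_single, pr_single, if_pos rfl, if_pos rfl, MonoidAlgebra.single_mul_single]
        · rintro ⟨i, j⟩ _ hne
          rw [pr_single, pr_single]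
          split_ifs with h1 h2
          · exact absurd (by simp [h1, h2]) hne
          · rw [mul_zero]
          · rw [zero_mul]
          · rw [zero_mul]
        · intro hn
          exact absurd (Finset.HasAntidiagonal.mem_antidiagonal.mpr h) hn
      · symm
        refine Finset.sum_eq_zero ?_
        rintro ⟨i, j⟩ hij
        rw [Finset.HasAntidiagonal.mem_antidiagonal] at hij
        simp only at hij
        rw [pr_single, pr_single]
        split_ifs with h1 h2
        · exact absurd (by omega) h
        · rw [mul_zero]
        · rw [zero_mul]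
        · rw [zero_mul]


theorem mk_single_hom (w : FreeMagma (Fin 3)) (a : ℤ) (k : ℕ)
    (h : mk (MonoidAlgebra.single w a) = 0) : mk (pr k (MonoidAlgebra.single w a)) = 0 := by
  rw [pr_single]
  split_ifs
  · exact h
  · exact map_zero mk

theorem as_single (u v w : FreeMagma (Fin 3)) (a b c : ℤ) :
    as (MonoidAlgebra.single u a : FM) (MonoidAlgebra.single v b) (MonoidAlgebra.single w c)
    = MonoidAlgebra.single (u * v * w) (a * b * c) - MonoidAlgebra.single (u * (v * w)) (a * b * c)
    := by
  simp only [as, MonoidAlgebra.single_mul_single, mul_assoc]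

/-- projections of homogeneous differences -/
theorem pr_as_single (k : ℕ) (u v w : FreeMagma (Fin 3)) (a b c : ℤ) :
    pr k (as (MonoidAlgebra.single u a : FM) (MonoidAlgebra.single v b)
      (MonoidAlgebra.single w c)) =
    if u.length + v.length + w.length = k then
      as (MonoidAlgebra.single u a : FM) (MonoidAlgebra.single v b) (MonoidAlgebra.single w c)
    else 0 := by
  rw [as_single, map_sub, pr_single, pr_single]
  have h1 : (u * v * w).length = u.length + v.length + w.length := rfl
  have h2 : (u * (v * w)).length = u.length + (v.length + w.length) := rfl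
  rw [h1, h2, ← add_assoc]
  split_ifs
  · rfl
  · exact sub_zero _

theorem mk_as (a b c : FM) : mk (as a b c) = as (mk a) (mk b) (mk c) := map_as mk a b c

theorem mk_pr_lin12 (k : ℕ) (a c b : FM) : mk (pr k (as a c b + as c a b)) = 0 := by
  induction a using MonoidAlgebra.induction_linear with
  | zero => simp
  | add p p' h h' =>
    have e : as (p + p') c b + as c (p + p') b = (as p c b + as c p b) + (as p' c b + as c p' b) := by
      rw [as_add1, as_add2]; abel
    rw [e, map_add, map_add, h, h', add_zero]
  | single u x =>
    induction c using MonoidAlgebra.induction_linear with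
    | zero => simp
    | add p p' h h' =>
      have e : as (MonoidAlgebra.single u x) (p + p') b + as (p + p') (MonoidAlgebra.single u x) b
          = (as (MonoidAlgebra.single u x) p b + as p (MonoidAlgebra.single u x) b)
          + (as (MonoidAlgebra.single u x) p' b + as p' (MonoidAlgebra.single u x) b) := by
        rw [as_add1, as_add2]; abel
      rw [e, map_add, map_add, h, h', add_zero]
    | single v y =>
      induction b using MonoidAlgebra.induction_linear with
      | zero => simp
      | add p p' h h' =>
        rw [as_add3, as_add3]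
        have e : ∀ a b c d : FM, a + b + (c + d) = (a + c) + (b + d) := by intros; abel
        rw [e, map_add, map_add, h, h', add_zero]
      | single w z =>
        rw [map_add, pr_as_single, pr_as_single, add_comm v.length u.length]
        split_ifs
        · rw [map_add, mk_as, mk_as, as_swap12 (mk (MonoidAlgebra.single v y))]
          abel
        · rw [add_zero, map_zero]

theorem mk_pr_lin23 (k : ℕ) (a c b : FM) : mk (pr k (as b a c + as b c a)) = 0 := by
  induction a using MonoidAlgebra.induction_linear with
  | zero => simp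
  | add p p' h h' =>
    have e : as b (p + p') c + as b c (p + p') = (as b p c + as b c p) + (as b p' c + as b c p') := by
      rw [as_add2, as_add3]; abel
    rw [e, map_add, map_add, h, h', add_zero]
  | single u x =>
    induction c using MonoidAlgebra.induction_linear with
    | zero => simp
    | add p p' h h' =>
      have e : as b (MonoidAlgebra.single u x) (p + p') + as b (p + p') (MonoidAlgebra.single u x)
          = (as b (MonoidAlgebra.single u x) p + as b p (MonoidAlgebra.single u x))
          + (as b (MonoidAlgebra.single u x) p' + as b p' (MonoidAlgebra.single u x)) := by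
        rw [as_add2, as_add3]; abel
      rw [e, map_add, map_add, h, h', add_zero]
    | single v y =>
      induction b using MonoidAlgebra.induction_linear with
      | zero => simp
      | add p p' h h' =>
        rw [as_add1, as_add1]
        have e : ∀ a b c d : FM, a + b + (c + d) = (a + c) + (b + d) := by intros; abel
        rw [e, map_add, map_add, h, h', add_zero]
      | single w z =>
        rw [map_add, pr_as_single, pr_as_single, add_right_comm w.length v.length u.length]
        split_ifs
        · rw [map_add, mk_as, mk_as, as_swap23 _ (mk (MonoidAlgebra.single v y))]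
          abel
        · rw [add_zero, map_zero]

theorem mk_pr_as12 (k : ℕ) (a b : FM) : mk (pr k (as a a b)) = 0 := by
  induction a using MonoidAlgebra.induction_linear with
  | zero => simp
  | add p p' h h' =>
    have e : as (p + p') (p + p') b = as p p b + as p' p' b + (as p p' b + as p' p b) := by
      rw [as_add1, as_add2, as_add2]; abel
    rw [e, map_add, map_add, map_add, map_add, h, h', mk_pr_lin12]
    simp
  | single u x =>
    induction b using MonoidAlgebra.induction_linear with
    | zero => simp
    | add p p' h h' => rw [as_add3, map_add, map_add, h, h', add_zero]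
    | single w z =>
      rw [pr_as_single]
      split_ifs
      · rw [mk_as, as_self12]
      · exact map_zero mk

theorem mk_pr_as23 (k : ℕ) (a b : FM) : mk (pr k (as b a a)) = 0 := by
  induction a using MonoidAlgebra.induction_linear with
  | zero => simp
  | add p p' h h' =>
    have e : as b (p + p') (p + p') = as b p p + as b p' p' + (as b p p' + as b p' p) := by
      rw [as_add2, as_add3, as_add3]; abel
    rw [e, map_add, map_add, map_add, map_add, h, h', mk_pr_lin23]
    simp
  | single u x =>
    induction b using MonoidAlgebra.induction_linear with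
    | zero => simp
    | add p p' h h' => rw [as_add1, map_add, map_add, h, h', add_zero]
    | single w z =>
      rw [pr_as_single]
      split_ifs
      · rw [mk_as, as_self23]
      · exact map_zero mk

theorem mk_pr_eq (p q : FM) (h : RingConGen.Rel rel p q) : ∀ k, mk (pr k p) = mk (pr k q) := by
  induction h with
  | of p q h =>
    intro k
    obtain ⟨a, b, h | h⟩ := h
    · rw [h.1, h.2, ← sub_eq_zero, ← map_sub, ← map_sub]
      exact mk_pr_as12 k a b
    · rw [h.1, h.2, ← sub_eq_zero, ← map_sub, ← map_sub]
      exact mk_pr_as23 k a b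
  | refl => intro k; rfl
  | symm _ h => intro k; exact (h k).symm
  | trans _ _ h1 h2 => intro k; exact (h1 k).trans (h2 k)
  | add _ _ h1 h2 => intro k; simp only [map_add, h1 k, h2 k]
  | mul _ _ h1 h2 =>
    intro k
    rw [pr_mul, pr_mul, map_sum, map_sum]
    refine Finset.sum_congr rfl ?_
    rintro ⟨i, j⟩ _
    rw [map_mul, map_mul, h1, h2]

/-- projection of the free alternative ring to its homogeneous component of degree `k` -/
def pj (k : ℕ) : FA →+ FA where
  toFun := Quotient.lift (s := (ringConGen rel).toSetoid) (fun p => mk (pr k p))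
    (fun p q h => mk_pr_eq p q h k)
  map_zero' := by
    show mk (pr k 0) = 0
    rw [map_zero, map_zero]
  map_add' a b := by
    obtain ⟨a, rfl⟩ := mk_surj a
    obtain ⟨b, rfl⟩ := mk_surj b
    show mk (pr k (a + b)) = mk (pr k a) + mk (pr k b)
    rw [map_add, map_add]

theorem pj_mk (k : ℕ) (p : FM) : pj k (mk p) = mk (pr k p) := rfl

theorem pr_sum (f : FM) : ∃ N, ∀ M, N ≤ M → ∑ k ∈ Finset.range M, pr k f = f := by
  induction f using MonoidAlgebra.induction_linear with
  | zero => exact ⟨0, fun M _ => by simp⟩
  | add p q hp hq =>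
    obtain ⟨N1, h1⟩ := hp
    obtain ⟨N2, h2⟩ := hq
    refine ⟨max N1 N2, fun M hM => ?_⟩
    simp only [map_add, Finset.sum_add_distrib]
    rw [h1 M (le_trans (le_max_left _ _) hM), h2 M (le_trans (le_max_right _ _) hM)]
  | single w a =>
    refine ⟨w.length + 1, fun M hM => ?_⟩
    rw [Finset.sum_eq_single w.length]
    · rw [pr_single, if_pos rfl]
    · intro k _ hk
      rw [pr_single, if_neg (Ne.symm hk)]
    · intro h
      exact absurd (Finset.mem_range.mpr (by omega)) h

theorem pj_sum (f : FA) : ∃ N, ∑ k ∈ Finset.range N, pj k f = f := by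
  obtain ⟨f, rfl⟩ := mk_surj f
  obtain ⟨N, hN⟩ := pr_sum f
  refine ⟨N, ?_⟩
  simp only [pj_mk]
  rw [← map_sum, hN N le_rfl]

/-! ### The graded data -/

/-- letters -/
def XX (i : Fin 3) : FA := mk (MonoidAlgebra.single (FreeMagma.of i) 1)

/-- words evaluated -/
def wd (w : FreeMagma (Fin 3)) : FA := mk (MonoidAlgebra.single w 1)

theorem wd_mul (u v : FreeMagma (Fin 3)) : wd (u * v) = wd u * wd v := by
  unfold wd
  rw [← map_mul, MonoidAlgebra.single_mul_single, mul_one]

/-- the span of words of length `n` -/
def WW (n : ℕ) : AddSubgroup FA := AddSubgroup.closure {t | ∃ w, w.length = n ∧ t = wd w}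

/-- monomials in the ideal generated by the associator -/
inductive Mon : Type
  | a : Mon
  | L (w : FreeMagma (Fin 3)) (m : Mon) : Mon
  | R (w : FreeMagma (Fin 3)) (m : Mon) : Mon

/-- degree -/
def Mon.deg : Mon → ℕ
  | Mon.a => 3
  | Mon.L w m => w.length + m.deg
  | Mon.R w m => w.length + m.deg

/-- evaluation -/
def Mon.ev : Mon → FA
  | Mon.a => as (XX 0) (XX 1) (XX 2)
  | Mon.L w m => wd w * m.ev
  | Mon.R w m => m.ev * wd w

/-- the degree `n` component of the ideal generated by the associator -/
def DD (n : ℕ) : AddSubgroup FA := AddSubgroup.closure {t | ∃ m : Mon, m.deg = n ∧ t = m.ev}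

theorem mul_mem_gen {A : Type*} [NonUnitalNonAssocRing A] (S T : Set A) (U : AddSubgroup A)
    (h : ∀ s ∈ S, ∀ t ∈ T, s * t ∈ U) : ∀ s ∈ AddSubgroup.closure S,
    ∀ t ∈ AddSubgroup.closure T, s * t ∈ U := by
  intro s hs t ht
  induction hs using AddSubgroup.closure_induction with
  | mem s hs =>
    induction ht using AddSubgroup.closure_induction with
    | mem t ht => exact h s hs t ht
    | zero => rw [mul_zero]; exact U.zero_mem
    | add a b _ _ ha hb => rw [mul_add]; exact U.add_mem ha hb
    | neg a _ ha => rw [mul_neg]; exact U.neg_mem ha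
  | zero => rw [zero_mul]; exact U.zero_mem
  | add a b _ _ ha hb => rw [add_mul]; exact U.add_mem ha hb
  | neg a _ ha => rw [neg_mul]; exact U.neg_mem ha

theorem deg_ge (m : Mon) : 3 ≤ m.deg := by
  induction m with
  | a => exact le_rfl
  | L w m ih => simp only [Mon.deg]; omega
  | R w m ih => simp only [Mon.deg]; omega

theorem wd_mem (w : FreeMagma (Fin 3)) : wd w ∈ WW w.length :=
  AddSubgroup.subset_closure ⟨w, rfl, rfl⟩

theorem ev_mem (m : Mon) : m.ev ∈ DD m.deg :=
  AddSubgroup.subset_closure ⟨m, rfl, rfl⟩

theorem WW_mul (i j : ℕ) (u v : FA) (hu : u ∈ WW i) (hv : v ∈ WW j) : u * v ∈ WW (i + j) := by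
  refine mul_mem_gen _ _ (WW (i + j)) ?_ u hu v hv
  rintro _ ⟨w, hw, rfl⟩ _ ⟨w', hw', rfl⟩
  refine AddSubgroup.subset_closure ⟨w * w', ?_, (wd_mul w w').symm⟩
  show w.length + w'.length = _
  rw [hw, hw']

theorem DD_le (n : ℕ) : DD n ≤ WW n := by
  have key : ∀ m : Mon, m.ev ∈ WW m.deg := by
    intro m
    induction m with
    | a =>
      show as (XX 0) (XX 1) (XX 2) ∈ WW 3
      refine AddSubgroup.sub_mem _ ?_ ?_
      · exact WW_mul 2 1 _ _ (WW_mul 1 1 _ _ (wd_mem (FreeMagma.of 0)) (wd_mem (FreeMagma.of 1)))
          (wd_mem (FreeMagma.of 2))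
      · exact WW_mul 1 2 _ _ (wd_mem (FreeMagma.of 0)) (WW_mul 1 1 _ _ (wd_mem (FreeMagma.of 1))
          (wd_mem (FreeMagma.of 2)))
    | L w m ih => exact WW_mul _ _ _ _ (wd_mem w) ih
    | R w m ih =>
      show _ ∈ WW (w.length + m.deg)
      rw [add_comm]
      exact WW_mul _ _ _ _ ih (wd_mem w)
  unfold DD
  rw [AddSubgroup.closure_le]
  rintro _ ⟨m, rfl, rfl⟩
  exact key m

theorem grFA : Gr FA XX WW DD where
  X_mem i := wd_mem (FreeMagma.of i)
  W_mul := WW_mul
  W_zero u hu := by
    have : WW 0 = ⊥ := by
      unfold WW
      rw [AddSubgroup.closure_eq_bot_iff]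
      rintro _ ⟨w, hw, rfl⟩
      have := FreeMagma.length_pos w
      omega
    rw [this] at hu
    exact AddSubgroup.mem_bot.mp hu
  W_one S h := by
    unfold WW
    rw [AddSubgroup.closure_le]
    rintro _ ⟨w, hw, rfl⟩
    cases w with
    | of i => exact h i
    | mul u v =>
      have h1 := FreeMagma.length_pos u
      have h2 := FreeMagma.length_pos v
      have h3 : u.length + v.length = 1 := hw
      omega
  W_ind n hn S h := by
    unfold WW
    rw [AddSubgroup.closure_le]
    rintro _ ⟨w, hw, rfl⟩
    cases w with
    | of i =>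
      have : 1 = n := hw
      omega
    | mul u v =>
      have h3 : u.length + v.length = n := hw
      have : wd (u.mul v) = wd u * wd v := wd_mul u v
      rw [this]
      exact h _ _ (FreeMagma.length_pos u) (FreeMagma.length_pos v) h3 _ (wd_mem u) _ (wd_mem v)
  a_mem := ev_mem Mon.a
  mul_D i j u m hu hm := by
    refine mul_mem_gen _ _ (DD (i + j)) ?_ u hu m hm
    rintro _ ⟨w, hw, rfl⟩ _ ⟨m, hm, rfl⟩
    refine AddSubgroup.subset_closure ⟨Mon.L w m, ?_, rfl⟩
    simp only [Mon.deg, hw, hm]
  D_mul i j u m hu hm := by
    refine mul_mem_gen _ _ (DD (i + j)) ?_ m hm u hu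
    rintro _ ⟨m, hm, rfl⟩ _ ⟨w, hw, rfl⟩
    refine AddSubgroup.subset_closure ⟨Mon.R w m, ?_, rfl⟩
    simp only [Mon.deg, hw, hm]
  D_le := DD_le
  D_three S h := by
    unfold DD
    rw [AddSubgroup.closure_le]
    rintro _ ⟨m, hm, rfl⟩
    cases m with
    | a => exact h
    | L w m =>
      have := deg_ge m
      have := FreeMagma.length_pos w
      simp only [Mon.deg] at hm
      omega
    | R w m =>
      have := deg_ge m
      have := FreeMagma.length_pos w
      simp only [Mon.deg] at hm
      omega
  D_ind n hn S h := by
    unfold DD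
    rw [AddSubgroup.closure_le]
    rintro _ ⟨m, hm, rfl⟩
    cases m with
    | a => exact absurd hm.symm hn
    | L w m =>
      exact (h _ _ (FreeMagma.length_pos w) hm _ (wd_mem w) _ (ev_mem m)).1
    | R w m =>
      exact (h _ _ (FreeMagma.length_pos w) hm _ (wd_mem w) _ (ev_mem m)).2

theorem pj_wd (k : ℕ) (w : FreeMagma (Fin 3)) : pj k (wd w) = if w.length = k then wd w else 0 := by
  unfold wd
  rw [pj_mk, pr_single]
  split_ifs
  · rfl
  · exact map_zero mk

theorem pj_W (k n : ℕ) (t : FA) (ht : t ∈ WW n) : pj k t = if n = k then t else 0 := by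
  unfold WW at ht
  induction ht using AddSubgroup.closure_induction with
  | mem t ht =>
    obtain ⟨w, rfl, rfl⟩ := ht
    exact pj_wd k w
  | zero => simp
  | add a b _ _ ha hb =>
    rw [map_add, ha, hb]
    split_ifs
    · rfl
    · exact add_zero _
  | neg a _ ha =>
    rw [map_neg, ha]
    split_ifs
    · rfl
    · exact neg_zero

theorem pj_mem (k : ℕ) (f : FA) : pj k f ∈ WW k := by
  obtain ⟨f, rfl⟩ := mk_surj f
  rw [pj_mk]
  induction f using MonoidAlgebra.induction_linear with
  | zero => rw [map_zero, map_zero]; exact AddSubgroup.zero_mem _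
  | add p q hp hq => rw [map_add, map_add]; exact AddSubgroup.add_mem _ hp hq
  | single w a =>
    rw [pr_single]
    split_ifs with h
    · have : MonoidAlgebra.single w a = a • (MonoidAlgebra.single w 1 : FM) := by
        rw [MonoidAlgebra.smul_single]; simp
      rw [this, map_zsmul]
      refine AddSubgroup.zsmul_mem _ ?_ _
      subst h
      exact wd_mem w
    · rw [map_zero]; exact AddSubgroup.zero_mem _

end

end Pool.Agent.Helper74
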