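import Pool.Agent.Helper74.Alt

set_option autoImplicit false
set_option linter.unusedSimpArgs false

namespace Pool.Agent.Helper74

/-- Graded data on a ring with three letters: `W n` is spanned by the words of length `n`,
`D n` by the homogeneous elements of degree `n` in the ideal generated by the associator
of the letters. -/
structure Gr (A : Type*) [NonUnitalNonAssocRing A] (X : Fin 3 → A) (W D : ℕ → AddSubgroup A) :
    Prop where
  X_mem : ∀ i, X i ∈ W 1
  W_mul : ∀ i j u v, u ∈ W i → v ∈ W j → u * v ∈ W (i + j)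
  W_zero : ∀ u, u ∈ W 0 → u = 0
  W_one : ∀ S : AddSubgroup A, (∀ i, X i ∈ S) → W 1 ≤ S
  W_ind : ∀ n, 2 ≤ n → ∀ S : AddSubgroup A,
    (∀ i j, 0 < i → 0 < j → i + j = n → ∀ u ∈ W i, ∀ v ∈ W j, u * v ∈ S) → W n ≤ S
  a_mem : as (X 0) (X 1) (X 2) ∈ D 3
  mul_D : ∀ i j u m, u ∈ W i → m ∈ D j → u * m ∈ D (i + j)
  D_mul : ∀ i j u m, u ∈ W i → m ∈ D j → m * u ∈ D (i + j)
  D_le : ∀ n, D n ≤ W n
  D_three : ∀ S : AddSubgroup A, as (X 0) (X 1) (X 2) ∈ S → D 3 ≤ S
  D_ind : ∀ n, n ≠ 3 → ∀ S : AddSubgroup A,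
    (∀ i j, 0 < i → i + j = n → ∀ u ∈ W i, ∀ m ∈ D j, u * m ∈ S ∧ m * u ∈ S) → D n ≤ S

section

variable {A : Type*} [NonUnitalNonAssocRing A] {X : Fin 3 → A} {W D : ℕ → AddSubgroup A}

theorem Gr.W_pos (H : Gr A X W D) {i : ℕ} {u : A} (hu : u ∈ W i) (h0 : u ≠ 0) : 0 < i := by
  rcases Nat.eq_zero_or_pos i with h | h
  · subst h
    exact absurd (H.W_zero u hu) h0
  · exact h

/-- kernel version of the induction principle for `W n`. -/
theorem Gr.W_ind' (H : Gr A X W D) {B : Type*} [AddCommGroup B] (n : ℕ) (hn : 2 ≤ n)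
    (f : A → B) (hf : ∀ a b, f (a + b) = f a + f b)
    (h : ∀ i j, 0 < i → 0 < j → i + j = n → ∀ u ∈ W i, ∀ v ∈ W j, f (u * v) = 0) :
    ∀ u ∈ W n, f u = 0 := by
  intro u hu
  have := H.W_ind n hn (AddMonoidHom.mk' f hf).ker
    (fun i j hi hj hij u hu v hv => by
      rw [AddMonoidHom.mem_ker]; exact h i j hi hj hij u hu v hv) hu
  rwa [AddMonoidHom.mem_ker] at this

theorem Gr.W_one' (H : Gr A X W D) {B : Type*} [AddCommGroup B]
    (f : A → B) (hf : ∀ a b, f (a + b) = f a + f b)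
    (h : ∀ i, f (X i) = 0) : ∀ u ∈ W 1, f u = 0 := by
  intro u hu
  have := H.W_one (AddMonoidHom.mk' f hf).ker
    (fun i => by rw [AddMonoidHom.mem_ker]; exact h i) hu
  rwa [AddMonoidHom.mem_ker] at this

theorem Gr.D_ind' (H : Gr A X W D) {B : Type*} [AddCommGroup B] (n : ℕ) (hn : n ≠ 3)
    (f : A → B) (hf : ∀ a b, f (a + b) = f a + f b)
    (h : ∀ i j, 0 < i → i + j = n → ∀ u ∈ W i, ∀ m ∈ D j, f (u * m) = 0 ∧ f (m * u) = 0) :
    ∀ u ∈ D n, f u = 0 := by
  intro u hu
  have := H.D_ind n hn (AddMonoidHom.mk' f hf).ker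
    (fun i j hi hij u hu v hv => by
      rw [AddMonoidHom.mem_ker, AddMonoidHom.mem_ker]; exact h i j hi hij u hu v hv) hu
  rwa [AddMonoidHom.mem_ker] at this

theorem Gr.D_three' (H : Gr A X W D) {B : Type*} [AddCommGroup B]
    (f : A → B) (hf : ∀ a b, f (a + b) = f a + f b)
    (h : f (as (X 0) (X 1) (X 2)) = 0) : ∀ u ∈ D 3, f u = 0 := by
  intro u hu
  have := H.D_three (AddMonoidHom.mk' f hf).ker
    (by rw [AddMonoidHom.mem_ker]; exact h) hu
  rwa [AddMonoidHom.mem_ker] at this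

/-- strong kernel induction for `W`: enough to check letters and products. -/
theorem Gr.W_rec (H : Gr A X W D) {B : Type*} [AddCommGroup B]
    (f : A → B) (hf : ∀ a b, f (a + b) = f a + f b) (n : ℕ)
    (h1 : n = 1 → ∀ i, f (X i) = 0)
    (h : ∀ i j, 0 < i → 0 < j → i + j = n → ∀ u ∈ W i, ∀ v ∈ W j, f (u * v) = 0) :
    ∀ u ∈ W n, f u = 0 := by
  rcases Nat.lt_or_ge n 2 with h2 | h2
  · interval_cases n
    · intro u hu
      rw [H.W_zero u hu]
      have := hf 0 0
      rw [add_zero] at this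
      exact left_eq_add.mp this
    · exact H.W_one' f hf (h1 rfl)
  · exact H.W_ind' n h2 f hf h

/-! ### Transfer to the opposite ring -/

/-- the additive subgroup of the opposite ring -/
def opS (S : AddSubgroup A) : AddSubgroup Aᵐᵒᵖ where
  carrier := {t | MulOpposite.unop t ∈ S}
  zero_mem' := S.zero_mem
  add_mem' := fun ha hb => S.add_mem ha hb
  neg_mem' := fun ha => S.neg_mem ha

theorem mem_opS {S : AddSubgroup A} {t : Aᵐᵒᵖ} : t ∈ opS S ↔ MulOpposite.unop t ∈ S := Iff.rfl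

/-- the additive subgroup of the original ring -/
def unopS (S : AddSubgroup Aᵐᵒᵖ) : AddSubgroup A where
  carrier := {t | MulOpposite.op t ∈ S}
  zero_mem' := S.zero_mem
  add_mem' := fun ha hb => S.add_mem ha hb
  neg_mem' := fun ha => S.neg_mem ha

theorem mem_unopS {S : AddSubgroup Aᵐᵒᵖ} {t : A} : t ∈ unopS S ↔ MulOpposite.op t ∈ S := Iff.rfl

theorem Gr.op [IsAlt A] (H : Gr A X W D) :
    Gr Aᵐᵒᵖ (fun i => MulOpposite.op (X i)) (fun n => opS (W n)) (fun n => opS (D n)) where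
  X_mem i := H.X_mem i
  W_mul i j u v hu hv := by
    rw [mem_opS, MulOpposite.unop_mul, add_comm]
    exact H.W_mul _ _ _ _ hv hu
  W_zero u hu := MulOpposite.unop_injective (H.W_zero _ hu)
  W_one S h := by
    have h1 := H.W_one (unopS S) (fun i => h i)
    intro t ht
    exact h1 ht
  W_ind n hn S h := by
    have h1 := H.W_ind n hn (unopS S) (by
      intro i j hi hj hij u hu v hv
      rw [mem_unopS, MulOpposite.op_mul]
      exact h j i hj hi (by omega) _ hv _ hu)
    intro t ht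
    exact h1 ht
  a_mem := by
    rw [mem_opS, as_op]
    exact H.a_mem
  mul_D i j u m hu hm := by
    rw [mem_opS, MulOpposite.unop_mul]
    exact H.D_mul _ _ _ _ hu hm
  D_mul i j u m hu hm := by
    rw [mem_opS, MulOpposite.unop_mul]
    exact H.mul_D _ _ _ _ hu hm
  D_le n t ht := H.D_le n ht
  D_three S h := by
    have h1 := H.D_three (unopS S) (by rw [mem_unopS, ← as_op]; exact h)
    intro t ht
    exact h1 ht
  D_ind n hn S h := by
    have h1 := H.D_ind n hn (unopS S) (by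
      intro i j hi hij u hu m hm
      rw [mem_unopS, mem_unopS, MulOpposite.op_mul, MulOpposite.op_mul]
      exact (h i j hi hij (MulOpposite.op u) hu (MulOpposite.op m) hm).symm)
    intro t ht
    exact h1 ht

/-! ### Transfer along surjective homomorphisms -/

theorem map_as {B : Type*} [NonUnitalNonAssocRing B] (φ : A →ₙ+* B) (a b c : A) :
    φ (as a b c) = as (φ a) (φ b) (φ c) := by
  simp only [as, map_sub, map_mul]

theorem Gr.map (H : Gr A X W D) {B : Type*} [NonUnitalNonAssocRing B] (φ : A →ₙ+* B) :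
    Gr B (fun i => φ (X i)) (fun n => (W n).map φ) (fun n => (D n).map φ) where
  X_mem i := ⟨X i, H.X_mem i, rfl⟩
  W_mul i j u v hu hv := by
    obtain ⟨u', hu', rfl⟩ := hu
    obtain ⟨v', hv', rfl⟩ := hv
    exact ⟨u' * v', H.W_mul _ _ _ _ hu' hv', map_mul φ _ _⟩
  W_zero u hu := by
    obtain ⟨u', hu', rfl⟩ := hu
    rw [H.W_zero u' hu']
    exact map_zero φ
  W_one S h := by
    rw [AddSubgroup.map_le_iff_le_comap]
    exact H.W_one _ (fun i => h i)
  W_ind n hn S h := by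
    rw [AddSubgroup.map_le_iff_le_comap]
    refine H.W_ind n hn _ ?_
    intro i j hi hj hij u hu v hv
    have := h i j hi hj hij (φ u) ⟨u, hu, rfl⟩ (φ v) ⟨v, hv, rfl⟩
    rw [AddSubgroup.mem_comap]
    rw [← map_mul] at this
    exact this
  a_mem := ⟨_, H.a_mem, map_as φ _ _ _⟩
  mul_D i j u m hu hm := by
    obtain ⟨u', hu', rfl⟩ := hu
    obtain ⟨m', hm', rfl⟩ := hm
    exact ⟨u' * m', H.mul_D _ _ _ _ hu' hm', map_mul φ _ _⟩
  D_mul i j u m hu hm := by
    obtain ⟨u', hu', rfl⟩ := hu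
    obtain ⟨m', hm', rfl⟩ := hm
    exact ⟨m' * u', H.D_mul _ _ _ _ hu' hm', map_mul φ _ _⟩
  D_le n := AddSubgroup.map_mono (H.D_le n)
  D_three S h := by
    rw [AddSubgroup.map_le_iff_le_comap]
    refine H.D_three _ ?_
    rw [AddSubgroup.mem_comap]
    rw [← map_as] at h
    exact h
  D_ind n hn S h := by
    rw [AddSubgroup.map_le_iff_le_comap]
    refine H.D_ind n hn _ ?_
    intro i j hi hij u hu m hm
    have := h i j hi hij (φ u) ⟨u, hu, rfl⟩ (φ m) ⟨m, hm, rfl⟩
    rw [AddSubgroup.mem_comap, AddSubgroup.mem_comap]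
    rw [← map_mul, ← map_mul] at this
    exact this

theorem IsAlt.of_surjective [IsAlt A] {B : Type*} [NonUnitalNonAssocRing B] (φ : A →ₙ+* B)
    (hφ : Function.Surjective φ) : IsAlt B where
  left_alt a b := by
    obtain ⟨a, rfl⟩ := hφ a
    obtain ⟨b, rfl⟩ := hφ b
    rw [← map_mul, ← map_mul, ← map_mul, ← map_mul, Pool.Agent.Helper74.left_alt]
  right_alt a b := by
    obtain ⟨a, rfl⟩ := hφ a
    obtain ⟨b, rfl⟩ := hφ b
    rw [← map_mul, ← map_mul, ← map_mul, ← map_mul, Pool.Agent.Helper74.right_alt]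

/-- associators of letters are multiples of `a` -/
theorem as_letters [IsAlt A] (X : Fin 3 → A) (S : AddSubgroup A)
    (h : as (X 0) (X 1) (X 2) ∈ S) (i j k : Fin 3) : as (X i) (X j) (X k) ∈ S := by
  have h12 := as_swap12 (X 0) (X 1) (X 2)
  have h23 := as_swap23 (X 0) (X 1) (X 2)
  have h13 := as_swap13 (X 0) (X 1) (X 2)
  have hc := as_cyc (X 0) (X 1) (X 2)
  have hc2 := as_cyc2 (X 0) (X 1) (X 2)
  have hn := S.neg_mem h
  have hz := S.zero_mem
  fin_cases i <;> fin_cases j <;> fin_cases k <;>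
    simp only [Fin.zero_eta, Fin.mk_one, Fin.reduceFinMk, as_self12, as_self13, as_self23, h12, h23,
      h13, hc, hc2, h, hn, hz]

end

/-! ### Quotients by ideals -/

universe u0

theorem exists_quotient {A : Type u0} [NonUnitalNonAssocRing A] (I : AddSubgroup A)
    (hl : ∀ a t, t ∈ I → a * t ∈ I) (hr : ∀ a t, t ∈ I → t * a ∈ I) :
    ∃ (B : Type u0) (_ : NonUnitalNonAssocRing B) (q : A →ₙ+* B), Function.Surjective q ∧
      ∀ t, q t = 0 ↔ t ∈ I := by
  let J : TwoSidedIdeal A := TwoSidedIdeal.mk' (I : Set A) I.zero_mem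
    (fun ha hb => I.add_mem ha hb) (fun ha => I.neg_mem ha) (fun {x y} hy => hl x y hy)
    (fun {x y} hx => hr y x hx)
  refine ⟨J.ringCon.Quotient, inferInstance, ?_, ?_, ?_⟩
  · exact
      { toFun := fun a => (a : J.ringCon.Quotient)
        map_mul' := fun a b => rfl
        map_zero' := rfl
        map_add' := fun a b => rfl }
  · intro b
    induction b using Quotient.inductionOn' with
    | h a => exact ⟨a, rfl⟩
  · intro t
    have h1 : ((t : J.ringCon.Quotient) = ((0 : A) : J.ringCon.Quotient)) ↔ J.ringCon t 0 :=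
      J.ringCon.eq
    have h2 : t ∈ J ↔ J.ringCon t 0 := TwoSidedIdeal.mem_iff J t
    have h3 : t ∈ J ↔ t ∈ I := by
      show t ∈ TwoSidedIdeal.mk' _ _ _ _ _ _ ↔ _
      rw [TwoSidedIdeal.mem_mk']
      rfl
    exact h1.trans (h2.symm.trans h3)

end Pool.Agent.Helper74
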