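import Pool.Agent.Helper74.Alt

set_option autoImplicit false
set_option linter.unusedSimpArgs false
set_option linter.unusedSectionVars false
set_option linter.unusedVariables false

namespace Pool.Agent.Helper74

noncomputable section

section oct

/-- two by two matrices -/
abbrev M2 (R : Type*) := Matrix (Fin 2) (Fin 2) R

variable {R : Type*} [CommRing R]

/-- the symplectic involution of two by two matrices -/
def bar (A : M2 R) : M2 R :=
  !![A 1 1, - A 0 1; - A 1 0, A 0 0]

theorem bar_add (A B : M2 R) : bar (A + B) = bar A + bar B := by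
  ext i j
  fin_cases i <;> fin_cases j <;> simp [bar] <;> ring

theorem bar_neg (A : M2 R) : bar (-A) = - bar A := by
  ext i j
  fin_cases i <;> fin_cases j <;> simp [bar]

theorem bar_zero : bar (0 : M2 R) = 0 := by
  ext i j
  fin_cases i <;> fin_cases j <;> simp [bar]

theorem bar_one : bar (1 : M2 R) = 1 := by
  ext i j
  fin_cases i <;> fin_cases j <;> simp [bar]

theorem bar_mul (A B : M2 R) : bar (A * B) = bar B * bar A := by
  ext i j
  fin_cases i <;> fin_cases j <;> simp [bar, Matrix.mul_apply, Fin.sum_univ_two] <;> ring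

theorem bar_bar (A : M2 R) : bar (bar A) = A := by
  ext i j
  fin_cases i <;> fin_cases j <;> simp [bar]

theorem bar_smul (r : R) (A : M2 R) : bar (r • A) = r • bar A := by
  ext i j
  fin_cases i <;> fin_cases j <;> simp [bar]

/-- trace -/
def tr (A : M2 R) : R := A 0 0 + A 1 1

/-- norm -/
def nm (A : M2 R) : R := A 0 0 * A 1 1 - A 0 1 * A 1 0

/-- polar form of the norm -/
def nn (A B : M2 R) : R := A 0 0 * B 1 1 + B 0 0 * A 1 1 - A 0 1 * B 1 0 - B 0 1 * A 1 0

theorem add_bar (A : M2 R) : A + bar A = tr A • (1 : M2 R) := by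
  ext i j
  fin_cases i <;> fin_cases j <;> simp [bar, tr] <;> ring

theorem mul_bar (A : M2 R) : A * bar A = nm A • (1 : M2 R) := by
  ext i j
  fin_cases i <;> fin_cases j <;> simp [bar, nm, Matrix.mul_apply, Fin.sum_univ_two] <;> ring

theorem bar_mul_self (A : M2 R) : bar A * A = nm A • (1 : M2 R) := by
  ext i j
  fin_cases i <;> fin_cases j <;>
    simp only [Matrix.mul_apply, Fin.sum_univ_two] <;> simp [bar, nm] <;> ring

theorem bar_mul_add (A B : M2 R) : bar A * B + bar B * A = nn A B • (1 : M2 R) := by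
  ext i j
  fin_cases i <;> fin_cases j <;>
    simp only [Matrix.mul_apply, Fin.sum_univ_two, Matrix.add_apply] <;> simp [bar, nn] <;> ring

/-- Cayley-Dickson double of the two by two matrices with parameter `g`. -/
@[ext] structure Oct (R : Type*) [CommRing R] (g : R) where
  /-- first component -/
  a : M2 R
  /-- second component -/
  b : M2 R

variable (g : R)

instance : Add (Oct R g) := ⟨fun x y => ⟨x.a + y.a, x.b + y.b⟩⟩
instance : Zero (Oct R g) := ⟨⟨0, 0⟩⟩
instance : Neg (Oct R g) := ⟨fun x => ⟨-x.a, -x.b⟩⟩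
instance : Mul (Oct R g) :=
  ⟨fun x y => ⟨x.a * y.a + g • (bar y.b * x.b), y.b * x.a + x.b * bar y.a⟩⟩

@[simp] theorem Oct.add_a (x y : Oct R g) : (x + y).a = x.a + y.a := rfl
@[simp] theorem Oct.add_b (x y : Oct R g) : (x + y).b = x.b + y.b := rfl
@[simp] theorem Oct.zero_a : (0 : Oct R g).a = 0 := rfl
@[simp] theorem Oct.zero_b : (0 : Oct R g).b = 0 := rfl
@[simp] theorem Oct.neg_a (x : Oct R g) : (-x).a = - x.a := rfl
@[simp] theorem Oct.neg_b (x : Oct R g) : (-x).b = - x.b := rfl
@[simp] theorem Oct.mul_a (x y : Oct R g) : (x * y).a = x.a * y.a + g • (bar y.b * x.b) := rfl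
@[simp] theorem Oct.mul_b (x y : Oct R g) : (x * y).b = y.b * x.a + x.b * bar y.a := rfl

instance : NonUnitalNonAssocRing (Oct R g) where
  add_assoc x y z := by ext1 <;> simp [add_assoc]
  zero_add x := by ext1 <;> simp
  add_zero x := by ext1 <;> simp
  add_comm x y := by ext1 <;> simp [add_comm]
  neg_add_cancel x := by ext1 <;> simp
  nsmul := nsmulRec
  zsmul := zsmulRec
  left_distrib x y z := by
    ext1
    · simp only [Oct.mul_a, Oct.add_a, Oct.add_b, bar_add, mul_add, add_mul, smul_add]
      abel
    · simp only [Oct.mul_b, Oct.add_a, Oct.add_b, bar_add, mul_add, add_mul, smul_add]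
      abel
  right_distrib x y z := by
    ext1
    · simp only [Oct.mul_a, Oct.add_a, Oct.add_b, bar_add, mul_add, add_mul, smul_add]
      abel
    · simp only [Oct.mul_b, Oct.add_a, Oct.add_b, bar_add, mul_add, add_mul, smul_add]
      abel
  zero_mul x := by ext1 <;> simp
  mul_zero x := by ext1 <;> simp [bar_zero]

@[simp] theorem Oct.sub_a (x y : Oct R g) : (x - y).a = x.a - y.a := by
  rw [sub_eq_add_neg, sub_eq_add_neg, Oct.add_a, Oct.neg_a]
@[simp] theorem Oct.sub_b (x y : Oct R g) : (x - y).b = x.b - y.b := by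
  rw [sub_eq_add_neg, sub_eq_add_neg, Oct.add_b, Oct.neg_b]

instance : IsAlt (Oct R g) where
  left_alt x y := by
    have h1 : (x.a * x.a + g • (bar x.b * x.b)) = x.a * x.a + g • (nm x.b • (1 : M2 R)) := by
      rw [bar_mul_self]
    have h2 : x.b * x.a + x.b * bar x.a = tr x.a • x.b := by
      rw [← mul_add, add_bar, mul_smul_comm, mul_one]
    ext1
    · simp only [Oct.mul_a, Oct.mul_b]
      rw [h1, h2]
      have h3 : bar (y.b * x.a + x.b * bar y.a) * x.b =
          bar x.a * (bar y.b * x.b) + nm x.b • y.a := by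
        rw [bar_add, bar_mul, bar_mul, bar_bar, add_mul, mul_assoc, mul_assoc, bar_mul_self,
          mul_smul_comm, mul_one]
      have h4 : x.a * (bar y.b * x.b) + bar x.a * (bar y.b * x.b) = tr x.a • (bar y.b * x.b) := by
        rw [← add_mul, add_bar, smul_mul_assoc, one_mul]
      rw [h3, mul_add, add_mul, mul_smul_comm g x.a, smul_mul_assoc, smul_mul_assoc, one_mul,
        mul_smul_comm, ← h4, mul_assoc]
      simp only [smul_add]
      abel
    · simp only [Oct.mul_a, Oct.mul_b]
      rw [h1, h2]
      have h3 : x.b * bar (x.a * y.a + g • (bar y.b * x.b)) =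
          (x.b * bar y.a) * bar x.a + g • (nm x.b • y.b) := by
        rw [bar_add, bar_mul, bar_smul, bar_mul, bar_bar, mul_add, mul_smul_comm, ← mul_assoc,
          ← mul_assoc, mul_bar, smul_mul_assoc, one_mul]
      have h4 : (x.b * bar y.a) * x.a + (x.b * bar y.a) * bar x.a = tr x.a • (x.b * bar y.a) := by
        rw [← mul_add, add_bar, mul_smul_comm, mul_one]
      rw [h3, mul_add, add_mul, smul_mul_assoc, ← h4, mul_smul_comm, mul_smul_comm, mul_one,
        mul_assoc y.b]
      abel
  right_alt x y := by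
    have h1 : (x.a * x.a + g • (bar x.b * x.b)) = x.a * x.a + g • (nm x.b • (1 : M2 R)) := by
      rw [bar_mul_self]
    have h2 : x.b * x.a + x.b * bar x.a = tr x.a • x.b := by
      rw [← mul_add, add_bar, mul_smul_comm, mul_one]
    ext1
    · simp only [Oct.mul_a, Oct.mul_b]
      rw [h1, h2]
      have h3 : bar x.b * (x.b * y.a + y.b * bar x.a) =
          nm x.b • y.a + (bar x.b * y.b) * bar x.a := by
        rw [mul_add, ← mul_assoc, ← mul_assoc, bar_mul_self, smul_mul_assoc, one_mul]
      have h4 : (bar x.b * y.b) * x.a + (bar x.b * y.b) * bar x.a = tr x.a • (bar x.b * y.b) := by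
        rw [← mul_add, add_bar, mul_smul_comm, mul_one]
      rw [h3, mul_add, add_mul, bar_smul, smul_mul_assoc, smul_mul_assoc, ← h4, mul_smul_comm,
        mul_smul_comm, mul_one, mul_assoc y.a]
      simp only [smul_add]
      abel
    · simp only [Oct.mul_a, Oct.mul_b]
      rw [h1, h2]
      have h3 : x.b * (y.a * x.a + g • (bar x.b * y.b)) =
          (x.b * y.a) * x.a + g • (nm x.b • y.b) := by
        rw [mul_add, mul_smul_comm, ← mul_assoc, ← mul_assoc, mul_bar, smul_mul_assoc, one_mul]
      have h4 : (x.b * y.a) * x.a + (x.b * y.a) * bar x.a = tr x.a • (x.b * y.a) := by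
        rw [← mul_add, add_bar, mul_smul_comm, mul_one]
      have h5 : bar (x.a * x.a + g • (nm x.b • (1 : M2 R))) =
          bar x.a * bar x.a + g • (nm x.b • (1 : M2 R)) := by
        rw [bar_add, bar_mul, bar_smul, bar_smul, bar_one]
      rw [h3, h5, mul_add, add_mul, smul_mul_assoc, ← h4, mul_smul_comm, mul_smul_comm, mul_one,
        mul_assoc y.b]
      abel

/-- functoriality -/
def Oct.map {S : Type*} [CommRing S] (f : R →+* S) (g' : S) (hg : f g = g') :
    Oct R g →ₙ+* Oct S g' where
  toFun x := ⟨x.a.map f, x.b.map f⟩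
  map_zero' := by ext1 <;> simp [Matrix.map_zero]
  map_add' x y := by ext1 <;> simp [Matrix.map_add]
  map_mul' x y := by
    have hb : ∀ A : M2 R, (bar A).map f = bar (A.map f) := by
      intro A
      ext i j
      fin_cases i <;> fin_cases j <;> simp [bar]
    subst hg
    have hm : ∀ A B : M2 R, (A * B).map f = A.map f * B.map f := fun A B => Matrix.map_mul
    have ha : ∀ A B : M2 R, (A + B).map f = A.map f + B.map f := by
      intro A B; ext i j; simp
    have hs : ∀ (r : R) (A : M2 R), (r • A).map f = f r • A.map f := by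
      intro r A; ext i j; simp
    ext1
    · simp only [Oct.mul_a]
      rw [← hb, ha, hm, hs, hm]
    · simp only [Oct.mul_b]
      rw [← hb, ha, hm, hm]

end oct

end

end Pool.Agent.Helper74
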