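import Pool.Agent.Helper74.Free

set_option autoImplicit false
set_option linter.unusedSimpArgs false
set_option linter.unusedSectionVars false
set_option linter.unusedVariables false

namespace Pool.Agent.Helper74

noncomputable section

section powers

variable {A : Type*} [NonUnitalNonAssocRing A]

/-- two sided ideals, as additive subgroups -/
def IsId (I : AddSubgroup A) : Prop := (∀ a t, t ∈ I → a * t ∈ I) ∧ (∀ a t, t ∈ I → t * a ∈ I)

/-- powers of an ideal: `Pw I k` is the `(k+1)`-st power. -/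
def Pw (I : AddSubgroup A) : ℕ → AddSubgroup A
  | 0 => I
  | k + 1 => AddSubgroup.closure {t | ∃ p ∈ Pw I k, ∃ d ∈ I, t = p * d ∨ t = d * p}

theorem Pw_mul_right (I : AddSubgroup A) (k : ℕ) (p d : A) (hp : p ∈ Pw I k) (hd : d ∈ I) :
    p * d ∈ Pw I (k + 1) := AddSubgroup.subset_closure ⟨p, hp, d, hd, Or.inl rfl⟩

theorem Pw_mul_left (I : AddSubgroup A) (k : ℕ) (p d : A) (hp : p ∈ Pw I k) (hd : d ∈ I) :
    d * p ∈ Pw I (k + 1) := AddSubgroup.subset_closure ⟨p, hp, d, hd, Or.inr rfl⟩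

/-- induction principle -/
theorem Pw_succ_le (I : AddSubgroup A) (k : ℕ) (S : AddSubgroup A)
    (h : ∀ p ∈ Pw I k, ∀ d ∈ I, p * d ∈ S ∧ d * p ∈ S) : Pw I (k + 1) ≤ S := by
  show AddSubgroup.closure _ ≤ S
  rw [AddSubgroup.closure_le]
  rintro t ⟨p, hp, d, hd, rfl | rfl⟩
  · exact (h p hp d hd).1
  · exact (h p hp d hd).2

variable [IsAlt A]

theorem Pw_isId (I : AddSubgroup A) (hI : IsId I) (k : ℕ) : IsId (Pw I k) := by
  induction k with
  | zero => exact hI
  | succ k ih =>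
    have key : ∀ w, ∀ p ∈ Pw I k, ∀ d ∈ I, (w * (p * d) ∈ Pw I (k + 1) ∧
        w * (d * p) ∈ Pw I (k + 1)) ∧ ((p * d) * w ∈ Pw I (k + 1) ∧
        (d * p) * w ∈ Pw I (k + 1)) := by
      intro w p hp d hd
      have e1 : w * (p * d) = (w * p) * d + (p * w) * d - p * (w * d) := by
        have := as_swap12 w p d
        linear_combination (norm := (simp only [as]; abel)) - this
      have e2 : w * (d * p) = (w * d) * p + (d * w) * p - d * (w * p) := by
        have := as_swap12 w d p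
        linear_combination (norm := (simp only [as]; abel)) - this
      have e3 : (p * d) * w = p * (d * w) + p * (w * d) - (p * w) * d := by
        have := as_swap23 p w d
        linear_combination (norm := (simp only [as]; abel)) this
      have e4 : (d * p) * w = d * (p * w) + d * (w * p) - (d * w) * p := by
        have := as_swap23 d w p
        linear_combination (norm := (simp only [as]; abel)) this
      rw [e1, e2, e3, e4]
      refine ⟨⟨?_, ?_⟩, ?_, ?_⟩
      · exact AddSubgroup.sub_mem _ (AddSubgroup.add_mem _ (Pw_mul_right I k _ _ (ih.1 w p hp) hd)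
          (Pw_mul_right I k _ _ (ih.2 w p hp) hd)) (Pw_mul_right I k _ _ hp (hI.1 w d hd))
      · exact AddSubgroup.sub_mem _ (AddSubgroup.add_mem _ (Pw_mul_left I k _ _ hp (hI.1 w d hd))
          (Pw_mul_left I k _ _ hp (hI.2 w d hd))) (Pw_mul_left I k _ _ (ih.1 w p hp) hd)
      · exact AddSubgroup.sub_mem _ (AddSubgroup.add_mem _ (Pw_mul_right I k _ _ hp (hI.2 w d hd))
          (Pw_mul_right I k _ _ hp (hI.1 w d hd))) (Pw_mul_right I k _ _ (ih.2 w p hp) hd)
      · exact AddSubgroup.sub_mem _ (AddSubgroup.add_mem _ (Pw_mul_left I k _ _ (ih.2 w p hp) hd)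
          (Pw_mul_left I k _ _ (ih.1 w p hp) hd)) (Pw_mul_left I k _ _ hp (hI.2 w d hd))
    constructor
    · intro a t ht
      have := Pw_succ_le I k ((Pw I (k + 1)).comap (AddMonoidHom.mulLeft a))
        (fun p hp d hd => ⟨(key a p hp d hd).1.1, (key a p hp d hd).1.2⟩) ht
      exact this
    · intro a t ht
      have := Pw_succ_le I k ((Pw I (k + 1)).comap (AddMonoidHom.mulRight a))
        (fun p hp d hd => ⟨(key a p hp d hd).2.1, (key a p hp d hd).2.2⟩) ht
      exact this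

theorem Pw_anti (I : AddSubgroup A) (hI : IsId I) (k : ℕ) : Pw I (k + 1) ≤ Pw I k := by
  refine Pw_succ_le I k _ (fun p hp d hd => ?_)
  exact ⟨(Pw_isId I hI k).2 d p hp, (Pw_isId I hI k).1 d p hp⟩

theorem Pw_anti' (I : AddSubgroup A) (hI : IsId I) (k l : ℕ) (h : k ≤ l) : Pw I l ≤ Pw I k := by
  induction l, h using Nat.le_induction with
  | base => exact le_rfl
  | succ l _ ih => exact (Pw_anti I hI l).trans ih

theorem Pw_le (I : AddSubgroup A) (hI : IsId I) (k : ℕ) : Pw I k ≤ I :=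
  Pw_anti' I hI 0 k (Nat.zero_le _)

theorem Pw_mul (I : AddSubgroup A) (hI : IsId I) (i : ℕ) :
    ∀ j, ∀ p ∈ Pw I i, ∀ q ∈ Pw I j, p * q ∈ Pw I (i + j + 1) := by
  induction i with
  | zero =>
    intro j p hp q hq
    rw [Nat.zero_add]
    exact Pw_mul_left I j q p hq hp
  | succ i ih =>
    intro j p hp q hq
    have := Pw_succ_le I i ((Pw I (i + 1 + j + 1)).comap (AddMonoidHom.mulRight q))
      (fun p hp d hd => by
        have e1 : (p * d) * q = p * (d * q) - (p * q) * d + p * (q * d) := by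
          have := as_swap23 p q d
          linear_combination (norm := (simp only [as]; abel)) this
        have e2 : (d * p) * q = d * (p * q) + (p * q) * d - p * (q * d) := by
          have := as_cyc d p q
          linear_combination (norm := (simp only [as]; abel)) - this
        have h1 : p * (d * q) ∈ Pw I (i + 1 + j + 1) := by
          have := ih (j + 1) p hp _ (Pw_mul_left I j q d hq hd)
          rwa [show i + (j + 1) + 1 = i + 1 + j + 1 by omega] at this
        have h2 : p * (q * d) ∈ Pw I (i + 1 + j + 1) := by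
          have := ih (j + 1) p hp _ (Pw_mul_right I j q d hq hd)
          rwa [show i + (j + 1) + 1 = i + 1 + j + 1 by omega] at this
        have h3 : (p * q) * d ∈ Pw I (i + 1 + j + 1) := by
          have := Pw_mul_right I _ _ d (ih j p hp q hq) hd
          rwa [show i + j + 1 + 1 = i + 1 + j + 1 by omega] at this
        have h4 : d * (p * q) ∈ Pw I (i + 1 + j + 1) := by
          have := Pw_mul_left I _ _ d (ih j p hp q hq) hd
          rwa [show i + j + 1 + 1 = i + 1 + j + 1 by omega] at this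
        constructor
        · show (p * d) * q ∈ Pw I (i + 1 + j + 1)
          rw [e1]
          exact AddSubgroup.add_mem _ (AddSubgroup.sub_mem _ h1 h3) h2
        · show (d * p) * q ∈ Pw I (i + 1 + j + 1)
          rw [e2]
          exact AddSubgroup.sub_mem _ (AddSubgroup.add_mem _ h4 h3) h2) hp
    exact this

end powers

/-! ### The total ideal `DT` of the free alternative ring -/

/-- the ideal generated by the associator of the letters -/
def DT : AddSubgroup FA := AddSubgroup.closure {t | ∃ m : Mon, t = m.ev}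

theorem ev_DT (m : Mon) : m.ev ∈ DT := AddSubgroup.subset_closure ⟨m, rfl⟩

theorem FA_top : AddSubgroup.closure {t : FA | ∃ w, t = wd w} = ⊤ := by
  rw [eq_top_iff]
  intro f _
  obtain ⟨f, rfl⟩ := mk_surj f
  induction f using MonoidAlgebra.induction_linear with
  | zero => rw [map_zero]; exact AddSubgroup.zero_mem _
  | add p q hp hq =>
    rw [map_add]
    exact AddSubgroup.add_mem _ (hp trivial) (hq trivial)
  | single w a =>
    have : MonoidAlgebra.single w a = a • (MonoidAlgebra.single w 1 : FM) := by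
      rw [MonoidAlgebra.smul_single]; simp
    rw [this, map_zsmul]
    refine AddSubgroup.zsmul_mem _ (AddSubgroup.subset_closure ?_) _
    exact ⟨w, rfl⟩

/-- to prove an additive statement for all elements, check words -/
theorem FA_ind (S : AddSubgroup FA) (h : ∀ w, wd w ∈ S) (f : FA) : f ∈ S := by
  have : AddSubgroup.closure {t : FA | ∃ w, t = wd w} ≤ S := by
    rw [AddSubgroup.closure_le]
    rintro _ ⟨w, rfl⟩
    exact h w
  rw [FA_top] at this
  exact this trivial

theorem DT_ind (S : AddSubgroup FA) (h : ∀ m : Mon, m.ev ∈ S) : DT ≤ S := by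
  unfold DT
  rw [AddSubgroup.closure_le]
  rintro _ ⟨m, rfl⟩
  exact h m

/-- additive function version -/
theorem FA_ind' (S : AddSubgroup FA) (f : FA → FA) (hf : ∀ a b, f (a + b) = f a + f b)
    (h : ∀ w, f (wd w) ∈ S) (t : FA) : f t ∈ S :=
  FA_ind (S.comap (AddMonoidHom.mk' f hf)) h t

/-- additive function version -/
theorem DT_ind' (S : AddSubgroup FA) (f : FA → FA) (hf : ∀ a b, f (a + b) = f a + f b)
    (h : ∀ m : Mon, f m.ev ∈ S) (t : FA) (ht : t ∈ DT) : f t ∈ S :=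
  DT_ind (S.comap (AddMonoidHom.mk' f hf)) h ht

theorem DT_isId : IsId DT := by
  constructor
  · intro a t ht
    refine FA_ind (DT.comap (AddMonoidHom.mulRight t)) (fun w => ?_) a
    show wd w * t ∈ DT
    exact DT_ind (DT.comap (AddMonoidHom.mulLeft (wd w))) (fun m => ev_DT (Mon.L w m)) ht
  · intro a t ht
    refine FA_ind (DT.comap (AddMonoidHom.mulLeft t)) (fun w => ?_) a
    show t * wd w ∈ DT
    exact DT_ind (DT.comap (AddMonoidHom.mulRight (wd w))) (fun m => ev_DT (Mon.R w m)) ht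

theorem DD_le_DT (n : ℕ) : DD n ≤ DT := by
  unfold DD
  rw [AddSubgroup.closure_le]
  rintro _ ⟨m, _, rfl⟩
  exact ev_DT m

theorem pj_DT (n : ℕ) (t : FA) (ht : t ∈ DT) : pj n t ∈ DD n := by
  refine DT_ind ((DD n).comap (pj n)) (fun m => ?_) ht
  show pj n m.ev ∈ DD n
  rw [pj_W n m.deg _ (DD_le _ (ev_mem m))]
  split_ifs with h
  · subst h; exact ev_mem m
  · exact AddSubgroup.zero_mem _

/-- T3 for the free alternative ring -/
theorem FA_t3 (i j k : ℕ) (u v w : FA) (hu : u ∈ WW i) (hv : v ∈ WW j) (hw : w ∈ WW k) :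
    as u v w ∈ DD (i + j + k) := by
  obtain ⟨B, instB, q, hq, hker⟩ := exists_quotient DT DT_isId.1 DT_isId.2
  have : IsAlt B := IsAlt.of_surjective q hq
  have hgr := grFA.map q
  have ha : as (q (XX 0)) (q (XX 1)) (q (XX 2)) = 0 := by
    rw [← map_as, hker]
    exact ev_DT Mon.a
  have h := T3 hgr ha i j k (q u) (q v) (q w) ⟨u, hu, rfl⟩ ⟨v, hv, rfl⟩ ⟨w, hw, rfl⟩
  rw [← map_as, hker] at h
  have h2 := pj_DT (i + j + k) _ h
  have h3 : as u v w ∈ WW (i + j + k) := by
    refine AddSubgroup.sub_mem _ (WW_mul _ _ _ _ (WW_mul _ _ _ _ hu hv) hw) ?_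
    rw [add_assoc]
    exact WW_mul _ _ _ _ hu (WW_mul _ _ _ _ hv hw)
  rwa [pj_W _ _ _ h3, if_pos rfl] at h2

theorem FA_as_DT (u v w : FA) : as u v w ∈ DT := by
  refine FA_ind' DT (fun u => as u v w) (fun a b => as_add1 _ _ _ _) (fun u => ?_) u
  refine FA_ind' DT (fun v => as (wd u) v w) (fun a b => as_add2 _ _ _ _) (fun v => ?_) v
  refine FA_ind' DT (fun w => as (wd u) (wd v) w) (fun a b => as_add3 _ _ _ _) (fun w => ?_) w
  exact DD_le_DT _ (FA_t3 _ _ _ _ _ _ (wd_mem u) (wd_mem v) (wd_mem w))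

theorem pj_P2 (n : ℕ) (t : FA) (ht : t ∈ Pw DT 1) : pj n t ∈ P2g DD n := by
  have key : ∀ p ∈ DT, ∀ d ∈ DT, pj n (p * d) ∈ P2g DD n := by
    intro p hp d hd
    refine DT_ind ((P2g DD n).comap ((pj n).comp (AddMonoidHom.mulRight d))) (fun m => ?_) hp
    show pj n (m.ev * d) ∈ P2g DD n
    refine DT_ind ((P2g DD n).comap ((pj n).comp (AddMonoidHom.mulLeft m.ev))) (fun m' => ?_) hd
    show pj n (m.ev * m'.ev) ∈ P2g DD n
    rw [pj_W n (m.deg + m'.deg) _ (WW_mul _ _ _ _ (DD_le _ (ev_mem m)) (DD_le _ (ev_mem m')))]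
    split_ifs with h
    · exact AddSubgroup.subset_closure ⟨_, _, _, _, h, ev_mem m, ev_mem m', rfl⟩
    · exact AddSubgroup.zero_mem _
  exact Pw_succ_le DT 0 ((P2g DD n).comap (pj n)) (fun p hp d hd => ⟨key p hp d hd, key d hd p hp⟩)
    ht

theorem gg_W (i j k : ℕ) (u v m : FA) (hu : u ∈ WW i) (hv : v ∈ WW j) (hm : m ∈ WW k) :
    gg u v m ∈ WW (i + j + k) := by
  refine AddSubgroup.sub_mem _ (AddSubgroup.sub_mem _ (WW_mul _ _ _ _ (WW_mul _ _ _ _ hu hv) hm)
    ?_) ?_
  · rw [add_assoc]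
    exact WW_mul _ _ _ _ hu (WW_mul _ _ _ _ hv hm)
  · refine WW_mul _ _ _ _ (AddSubgroup.sub_mem _ (WW_mul _ _ _ _ hu hv) ?_) hm
    rw [add_comm]
    exact WW_mul _ _ _ _ hv hu

theorem gp_W (i j k : ℕ) (u v m : FA) (hu : u ∈ WW i) (hv : v ∈ WW j) (hm : m ∈ WW k) :
    gp u v m ∈ WW (i + j + k) := by
  refine AddSubgroup.add_mem _ (AddSubgroup.sub_mem _ (WW_mul _ _ _ _ (WW_mul _ _ _ _ hu hv) hm)
    ?_) ?_
  · rw [add_assoc]
    exact WW_mul _ _ _ _ hu (WW_mul _ _ _ _ hv hm)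
  · rw [add_comm]
    refine WW_mul _ _ _ _ hm (AddSubgroup.sub_mem _ (WW_mul _ _ _ _ hu hv) ?_)
    rw [add_comm]
    exact WW_mul _ _ _ _ hv hu

/-- F2 for the free alternative ring -/
theorem FA_f2 (i j k : ℕ) (u v m : FA) (hu : u ∈ WW i) (hv : v ∈ WW j) (hm : m ∈ DD k) :
    gg u v m ∈ P2g DD (i + j + k) ∧ gp u v m ∈ P2g DD (i + j + k) := by
  have hid := Pw_isId DT DT_isId 1
  obtain ⟨B, instB, q, hq, hker⟩ := exists_quotient (Pw DT 1) hid.1 hid.2
  have : IsAlt B := IsAlt.of_surjective q hq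
  have H : HF2 B (fun i => q (XX i)) (fun n => (WW n).map q) (fun n => (DD n).map q) :=
    { gr := grFA.map q
      dd := by
        rintro i j _ ⟨m, hm, rfl⟩ _ ⟨m', hm', rfl⟩
        show q m * q m' = 0
        rw [← map_mul, hker]
        exact Pw_mul_right DT 0 _ _ (DD_le_DT _ hm) (DD_le_DT _ hm')
      t3 := by
        rintro i j k _ _ _ ⟨u, hu, rfl⟩ ⟨v, hv, rfl⟩ ⟨w, hw, rfl⟩
        exact ⟨as u v w, FA_t3 i j k u v w hu hv hw, map_as q u v w⟩ }
  have hm' := DD_le _ hm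
  constructor
  · have h := F2_left H i j k (q u) (q v) (q m) ⟨u, hu, rfl⟩ ⟨v, hv, rfl⟩ ⟨m, hm, rfl⟩
    have e : q (gg u v m) = gg (q u) (q v) (q m) := by
      simp only [gg, map_as, map_sub, map_mul]
    rw [← e, hker] at h
    have h2 := pj_P2 (i + j + k) _ h
    rwa [pj_W _ _ _ (gg_W _ _ _ _ _ _ hu hv hm'), if_pos rfl] at h2
  · have h := F2_right H i j k (q u) (q v) (q m) ⟨u, hu, rfl⟩ ⟨v, hv, rfl⟩ ⟨m, hm, rfl⟩
    have e : q (gp u v m) = gp (q u) (q v) (q m) := by
      simp only [gp, map_as, map_add, map_sub, map_mul]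
    rw [← e, hker] at h
    have h2 := pj_P2 (i + j + k) _ h
    rwa [pj_W _ _ _ (gp_W _ _ _ _ _ _ hu hv hm'), if_pos rfl] at h2

theorem P2g_le (n : ℕ) : P2g DD n ≤ Pw DT 1 := by
  unfold P2g
  rw [AddSubgroup.closure_le]
  rintro _ ⟨i, j, m, m', _, hm, hm', rfl⟩
  exact Pw_mul_right DT 0 _ _ (DD_le_DT _ hm) (DD_le_DT _ hm')

/-- F2, total form -/
theorem FA_gg (u v m : FA) (hm : m ∈ DT) : gg u v m ∈ Pw DT 1 := by
  refine FA_ind' (Pw DT 1) (fun u => gg u v m) (fun a b => gg_add1 _ _ _ _) (fun u => ?_) u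
  refine FA_ind' (Pw DT 1) (fun v => gg (wd u) v m) (fun a b => gg_add2 _ _ _ _) (fun v => ?_) v
  refine DT_ind' (Pw DT 1) (fun m => gg (wd u) (wd v) m) (fun a b => gg_add3 _ _ _ _)
    (fun m => ?_) m hm
  exact P2g_le _ (FA_f2 _ _ _ _ _ _ (wd_mem u) (wd_mem v) (ev_mem m)).1

theorem gp_add1 (a b v m : FA) : gp (a + b) v m = gp a v m + gp b v m := by
  simp only [gp, as_add1, mul_add, add_mul, mul_sub, sub_mul]; abel

theorem gp_add2 (a b v m : FA) : gp v (a + b) m = gp v a m + gp v b m := by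
  simp only [gp, as_add2, mul_add, add_mul, mul_sub, sub_mul]; abel

theorem gp_add3 (a b v m : FA) : gp v m (a + b) = gp v m a + gp v m b := by
  simp only [gp, as_add3, mul_add, add_mul, mul_sub, sub_mul]; abel

theorem FA_gp (u v m : FA) (hm : m ∈ DT) : gp u v m ∈ Pw DT 1 := by
  refine FA_ind' (Pw DT 1) (fun u => gp u v m) (fun a b => gp_add1 _ _ _ _) (fun u => ?_) u
  refine FA_ind' (Pw DT 1) (fun v => gp (wd u) v m) (fun a b => gp_add2 _ _ _ _) (fun v => ?_) v
  refine DT_ind' (Pw DT 1) (fun m => gp (wd u) (wd v) m) (fun a b => gp_add3 _ _ _ _)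
    (fun m => ?_) m hm
  exact P2g_le _ (FA_f2 _ _ _ _ _ _ (wd_mem u) (wd_mem v) (ev_mem m)).2

/-- F3 for the free alternative ring, word form -/
theorem FA_f3 (w v : FreeMagma (Fin 3)) (m m' : Mon) :
    dl (wd w) m.ev m'.ev ∈ Pw DT 2 ∧ as (m.ev * m'.ev) (wd v) (wd w) ∈ Pw DT 2 := by
  have hid := Pw_isId DT DT_isId 2
  obtain ⟨B, instB, q, hq, hker⟩ := exists_quotient (Pw DT 2) hid.1 hid.2
  have : IsAlt B := IsAlt.of_surjective q hq
  have hP2 : ∀ n, ∀ t ∈ P2g DD n, q t ∈ P2g (fun n => (DD n).map q) n := by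
    intro n t ht
    unfold P2g at ht
    induction ht using AddSubgroup.closure_induction with
    | mem t ht =>
      obtain ⟨i, j, m, m', hij, hm, hm', rfl⟩ := ht
      rw [map_mul]
      exact AddSubgroup.subset_closure ⟨i, j, _, _, hij, ⟨m, hm, rfl⟩, ⟨m', hm', rfl⟩, rfl⟩
    | zero => rw [map_zero]; exact AddSubgroup.zero_mem _
    | add a b _ _ ha hb => rw [map_add]; exact AddSubgroup.add_mem _ ha hb
    | neg a _ ha => rw [map_neg]; exact AddSubgroup.neg_mem _ ha
  have H : HF3 B (fun i => q (XX i)) (fun n => (WW n).map q) (fun n => (DD n).map q) :=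
    { gr := grFA.map q
      ddd1 := by
        rintro i j k _ ⟨m, hm, rfl⟩ _ ⟨m', hm', rfl⟩ _ ⟨m'', hm'', rfl⟩
        show q m * q m' * q m'' = 0
        rw [← map_mul, ← map_mul, hker]
        exact Pw_mul_right DT 1 _ _ (Pw_mul_right DT 0 _ _ (DD_le_DT _ hm) (DD_le_DT _ hm'))
          (DD_le_DT _ hm'')
      ddd2 := by
        rintro i j k _ ⟨m, hm, rfl⟩ _ ⟨m', hm', rfl⟩ _ ⟨m'', hm'', rfl⟩
        show q m * (q m' * q m'') = 0
        rw [← map_mul, ← map_mul, hker]
        exact Pw_mul_left DT 1 _ _ (Pw_mul_right DT 0 _ _ (DD_le_DT _ hm') (DD_le_DT _ hm''))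
          (DD_le_DT _ hm)
      t3 := by
        rintro i j k _ _ _ ⟨u, hu, rfl⟩ ⟨v, hv, rfl⟩ ⟨w, hw, rfl⟩
        exact ⟨as u v w, FA_t3 i j k u v w hu hv hw, map_as q u v w⟩
      f2l := by
        rintro i j k _ _ _ ⟨u, hu, rfl⟩ ⟨v, hv, rfl⟩ ⟨w, hw, rfl⟩
        have e : gg (q u) (q v) (q w) = q (gg u v w) := by
          simp only [gg, map_as, map_sub, map_mul]
        show gg (q u) (q v) (q w) ∈ _
        rw [e]
        exact hP2 _ _ (FA_f2 i j k u v w hu hv hw).1
      f2r := by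
        rintro i j k _ _ _ ⟨u, hu, rfl⟩ ⟨v, hv, rfl⟩ ⟨w, hw, rfl⟩
        have e : gp (q u) (q v) (q w) = q (gp u v w) := by
          simp only [gp, map_as, map_sub, map_mul, map_add]
        show gp (q u) (q v) (q w) ∈ _
        rw [e]
        exact hP2 _ _ (FA_f2 i j k u v w hu hv hw).2 }
  constructor
  · have h := F3_dl H _ _ _ (q (wd w)) (q m.ev) (q m'.ev) ⟨_, wd_mem w, rfl⟩ ⟨_, ev_mem m, rfl⟩
      ⟨_, ev_mem m', rfl⟩
    have e : q (dl (wd w) m.ev m'.ev) = dl (q (wd w)) (q m.ev) (q m'.ev) := by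
      simp only [dl, map_sub, map_mul]
    rw [← e, hker] at h
    exact h
  · have h := F3_assoc H _ _ _ _ (q (wd w)) (q (wd v)) (q m.ev) (q m'.ev) ⟨_, wd_mem w, rfl⟩
      ⟨_, wd_mem v, rfl⟩ ⟨_, ev_mem m, rfl⟩ ⟨_, ev_mem m', rfl⟩
    rw [← map_mul, ← map_as, hker] at h
    exact h

theorem FA_dl (w m m' : FA) (hm : m ∈ DT) (hm' : m' ∈ DT) : dl w m m' ∈ Pw DT 2 := by
  refine FA_ind' (Pw DT 2) (fun w => dl w m m') (fun a b => dl_add1 _ _ _ _) (fun w => ?_) w
  refine DT_ind' (Pw DT 2) (fun m => dl (wd w) m m') (fun a b => dl_add2 _ _ _ _)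
    (fun m => ?_) m hm
  refine DT_ind' (Pw DT 2) (fun m' => dl (wd w) m.ev m') (fun a b => dl_add3 _ _ _ _)
    (fun m' => ?_) m' hm'
  exact (FA_f3 w w m m').1

theorem FA_pas (m m' v w : FA) (hm : m ∈ DT) (hm' : m' ∈ DT) : as (m * m') v w ∈ Pw DT 2 := by
  refine FA_ind' (Pw DT 2) (fun w => as (m * m') v w) (fun a b => as_add3 _ _ _ _)
    (fun w => ?_) w
  refine FA_ind' (Pw DT 2) (fun v => as (m * m') v (wd w)) (fun a b => as_add2 _ _ _ _)
    (fun v => ?_) v
  refine DT_ind' (Pw DT 2) (fun m => as (m * m') (wd v) (wd w))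
    (fun a b => by rw [add_mul, as_add1]) (fun m => ?_) m hm
  refine DT_ind' (Pw DT 2) (fun m' => as (m.ev * m') (wd v) (wd w))
    (fun a b => by rw [mul_add, as_add1]) (fun m' => ?_) m' hm'
  exact (FA_f3 w v m m').2

end

end Pool.Agent.Helper74
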