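import Pool.Agent.Helper74.Fil

set_option autoImplicit false
set_option linter.unusedSimpArgs false
set_option linter.unusedSectionVars false
set_option linter.unusedVariables false

namespace Pool.Agent.Helper74

noncomputable section

/-! ### Evaluation of polynomials at commuting elements -/

theorem exists_eval {R : Type*} [Ring R] {n : ℕ} (Θ : Fin n → R)
    (h : ∀ i j, Θ i * Θ j = Θ j * Θ i) :
    ∃ Ψ : MvPolynomial (Fin n) ℤ →+* R, ∀ i, Ψ (MvPolynomial.X i) = Θ i := by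
  have hc : ∀ x ∈ Set.range Θ, ∀ y ∈ Set.range Θ, x * y = y * x := by
    rintro _ ⟨i, rfl⟩ _ ⟨j, rfl⟩
    exact h i j
  let _ : CommRing (Subring.closure (Set.range Θ)) :=
    { (inferInstance : Ring (Subring.closure (Set.range Θ))) with
      mul_comm := (Subring.isMulCommutative_closure hc).is_comm.comm }
  let Θ' : Fin n → Subring.closure (Set.range Θ) :=
    fun i => ⟨Θ i, Subring.subset_closure ⟨i, rfl⟩⟩
  refine ⟨(Subring.subtype _).comp (MvPolynomial.eval₂Hom (Int.castRingHom _) Θ'), fun i => ?_⟩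
  rw [RingHom.comp_apply, MvPolynomial.eval₂Hom_X']
  rfl

/-- Cayley bimodule data -/
structure CB (B : Type*) [NonUnitalNonAssocRing B] (M : AddSubgroup B) : Prop where
  left : ∀ u m, m ∈ M → u * m ∈ M
  right : ∀ u m, m ∈ M → m * u ∈ M
  g : ∀ u v m, m ∈ M → as u v m = (u * v - v * u) * m
  g' : ∀ u v m, m ∈ M → as u v m = - (m * (u * v - v * u))

section

variable {B : Type*} [NonUnitalNonAssocRing B] [IsAlt B] {M : AddSubgroup B} (H : CB B M)

/-- left multiplication operator -/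
def Lo (u : B) : AddMonoid.End M where
  toFun m := ⟨u * m, H.left u m m.2⟩
  map_zero' := by ext; simp
  map_add' a b := by ext; simp [mul_add]

/-- right multiplication operator -/
def Ro (u : B) : AddMonoid.End M where
  toFun m := ⟨m * u, H.right u m m.2⟩
  map_zero' := by ext; simp
  map_add' a b := by ext; simp [add_mul]

/-- trace operator -/
def To (u : B) : AddMonoid.End M := Lo H u + Ro H u

/-- norm operator -/
def No (u : B) : AddMonoid.End M := Lo H u * Ro H u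

/-- polar norm operator -/
def NNo (u v : B) : AddMonoid.End M := Lo H u * Ro H v + Lo H v * Ro H u

theorem Lo_apply (u : B) (m : M) : ((Lo H u m : M) : B) = u * m := rfl

theorem Ro_apply (u : B) (m : M) : ((Ro H u m : M) : B) = m * u := rfl

theorem To_Lo (w u : B) : To H w * Lo H u = Lo H u * To H w := by
  ext m
  show w * (u * (m : B)) + (u * (m : B)) * w = u * (w * m + m * w)
  have h1 := H.g u w m m.2
  have h2 := as_swap23 u w (m : B)
  have h3 := as_swap12 u w (m : B)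
  linear_combination (norm := (simp only [as, sub_mul, mul_add]; abel)) h2 - h3 + h1

theorem To_Ro (w u : B) : To H w * Ro H u = Ro H u * To H w := by
  ext m
  show w * ((m : B) * u) + ((m : B) * u) * w = (w * (m : B) + m * w) * u
  have h1 := H.g' u w m m.2
  have h2 := as_swap23 w u (m : B)
  have h3 := as_swap12 u w (m : B)
  have h4 := as_cyc (m : B) u w
  have h5 := as_cyc (m : B) w u
  linear_combination (norm := (simp only [as, mul_sub, add_mul]; abel)) h1 - h2 - h4 + h5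

theorem No_Lo (w u : B) : No H w * Lo H u = Lo H u * No H w := by
  ext m
  show w * ((u * (m : B)) * w) = u * (w * ((m : B) * w))
  obtain ⟨m, hm⟩ := m
  show w * ((u * m) * w) = u * (w * (m * w))
  have A1 := H.g u w (m * w) (H.right w m hm)
  have A2 := congrArg (w * ·) (as_swap23 u w m)
  have A3 := congrArg (w * ·) (H.g u w m hm)
  have A4 := H.g w u (m * w) (H.right w m hm)
  have A5 := H.g w (u * w - w * u) m hm
  have A6a := congrArg (· * w) (H.g u w m hm)
  have A6b := congrArg (· * w) (H.g' u w m hm)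
  have A7a := as_cyc m (u * w - w * u) w
  have A7b := H.g' (u * w - w * u) w m hm
  have A8a := as_swap23 (u * w - w * u) w m
  have A8b := H.g (u * w - w * u) w m hm
  have A9a := H.g (w * u) w m hm
  have A9b := H.g' (w * u) w m hm
  have F1 := congrArg (· * m) (flex w u)
  have F2 := congrArg (m * ·) (flex w u)
  linear_combination (norm := skip) A1 - A4 + A5 + A2 - A3 + A7a - A7b + A8b - A8a + A6b - A6a
    + A9a - A9b + F1 + F2
  simp only [as, mul_sub, add_mul, sub_mul, mul_add, mul_neg, neg_mul]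
  abel

theorem Lo_add (u v : B) : Lo H (u + v) = Lo H u + Lo H v := by
  ext m
  show (u + v) * (m : B) = u * m + v * m
  rw [add_mul]

theorem Ro_add (u v : B) : Ro H (u + v) = Ro H u + Ro H v := by
  ext m
  show (m : B) * (u + v) = m * u + m * v
  rw [mul_add]

theorem NNo_eq (u v : B) : NNo H u v = No H (u + v) - No H u - No H v := by
  unfold NNo No
  rw [Lo_add, Ro_add, mul_add, add_mul, add_mul]
  abel

theorem Ro_eq (u : B) : Ro H u = To H u - Lo H u := by
  unfold To; abel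

/-- operators commuting with all multiplications -/
def Zc (θ : AddMonoid.End M) : Prop := ∀ u, θ * Lo H u = Lo H u * θ ∧ θ * Ro H u = Ro H u * θ

theorem Zc_To (w : B) : Zc H (To H w) := fun u => ⟨To_Lo H w u, To_Ro H w u⟩

theorem Zc_No (w : B) : Zc H (No H w) := by
  intro u
  have h1 := No_Lo H w u
  refine ⟨h1, ?_⟩
  have h2 : No H w * To H u = To H u * No H w := by
    unfold No
    rw [mul_assoc, ← To_Ro H u w, ← mul_assoc, ← mul_assoc, To_Lo H u w]
  rw [Ro_eq, mul_sub, sub_mul, h1, h2]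

theorem Zc.sub {θ θ' : AddMonoid.End M} (h : Zc H θ) (h' : Zc H θ') : Zc H (θ - θ') := by
  intro u
  rw [sub_mul, sub_mul, mul_sub, mul_sub, (h u).1, (h u).2, (h' u).1, (h' u).2]
  exact ⟨rfl, rfl⟩

theorem Zc_NNo (u v : B) : Zc H (NNo H u v) := by
  rw [NNo_eq]
  exact Zc.sub H (Zc.sub H (Zc_No H _) (Zc_No H _)) (Zc_No H _)

theorem Zc.comm_To {θ : AddMonoid.End M} (h : Zc H θ) (u : B) : θ * To H u = To H u * θ := by
  unfold To
  rw [mul_add, add_mul, (h u).1, (h u).2]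

theorem Zc.comm_No {θ : AddMonoid.End M} (h : Zc H θ) (u : B) : θ * No H u = No H u * θ := by
  unfold No
  rw [← mul_assoc, (h u).1, mul_assoc, (h u).2, mul_assoc]

theorem Zc.comm_NNo {θ : AddMonoid.End M} (h : Zc H θ) (u v : B) :
    θ * NNo H u v = NNo H u v * θ := by
  rw [NNo_eq, mul_sub, mul_sub, sub_mul, sub_mul, h.comm_No, h.comm_No, h.comm_No]

theorem Lo_sq (w : B) : Lo H w * Lo H w = To H w * Lo H w - No H w := by
  have h : Ro H w * Lo H w = Lo H w * Ro H w := by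
    ext m
    show (w * (m : B)) * w = w * (m * w)
    exact flex _ _
  unfold To No
  rw [add_mul, h]
  abel

theorem Lo_Lo (w v : B) :
    Lo H w * Lo H v = To H w * Lo H v + To H v * Lo H w - NNo H w v - Lo H v * Lo H w := by
  have h : Ro H w * Lo H v + Ro H v * Lo H w = Lo H v * Ro H w + Lo H w * Ro H v := by
    ext m
    show (v * (m : B)) * w + (w * (m : B)) * v = v * (m * w) + w * (m * v)
    have h1 := as_swap13 w (m : B) v
    linear_combination (norm := (simp only [as]; abel)) h1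
  unfold To NNo
  rw [add_mul, add_mul]
  linear_combination (norm := abel) - h

/-- the nine central operators -/
def Th (X : Fin 3 → B) : Fin 9 → AddMonoid.End M :=
  ![To H (X 0), No H (X 0), To H (X 1), No H (X 1), NNo H (X 0) (X 1), To H (X 2), No H (X 2),
    NNo H (X 0) (X 2), NNo H (X 1) (X 2)]

theorem Zc_Th (X : Fin 3 → B) (i : Fin 9) : Zc H (Th H X i) := by
  fin_cases i
  · exact Zc_To H _
  · exact Zc_No H _
  · exact Zc_To H _
  · exact Zc_No H _
  · exact Zc_NNo H _ _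
  · exact Zc_To H _
  · exact Zc_No H _
  · exact Zc_NNo H _ _
  · exact Zc_NNo H _ _

theorem Th_comm (X : Fin 3 → B) (i j : Fin 9) : Th H X i * Th H X j = Th H X j * Th H X i := by
  have h := Zc_Th H X i
  fin_cases j
  · exact h.comm_To H _
  · exact h.comm_No H _
  · exact h.comm_To H _
  · exact h.comm_No H _
  · exact h.comm_NNo H _ _
  · exact h.comm_To H _
  · exact h.comm_No H _
  · exact h.comm_NNo H _ _
  · exact h.comm_NNo H _ _

/-- stable subgroups -/
def Stable (X : Fin 3 → B) (S : AddSubgroup M) : Prop := ∀ i, ∀ s ∈ S, Th H X i s ∈ S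

/-- extension of a subgroup by a left multiplication -/
def ext (w : B) (S : AddSubgroup M) : AddSubgroup M := S ⊔ S.map (Lo H w)

theorem mem_ext (w : B) (S : AddSubgroup M) (m : M) :
    m ∈ ext H w S ↔ ∃ s ∈ S, ∃ t ∈ S, m = s + Lo H w t := by
  unfold ext
  rw [AddSubgroup.mem_sup]
  constructor
  · rintro ⟨s, hs, _, ⟨t, ht, rfl⟩, rfl⟩
    exact ⟨s, hs, t, ht, rfl⟩
  · rintro ⟨s, hs, t, ht, rfl⟩
    exact ⟨s, hs, _, ⟨t, ht, rfl⟩, rfl⟩

theorem ext_stable (X : Fin 3 → B) (w : B) (S : AddSubgroup M) (hS : Stable H X S) :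
    Stable H X (ext H w S) := by
  intro i m hm
  obtain ⟨s, hs, t, ht, rfl⟩ := (mem_ext H w S m).mp hm
  rw [mem_ext]
  refine ⟨_, hS i s hs, _, hS i t ht, ?_⟩
  rw [map_add]
  congr 1
  exact DFunLike.congr_fun (Zc_Th H X i w).1 t

/-- `ext` is closed under the new multiplication -/
theorem ext_closed_self (w : B) (S : AddSubgroup M)
    (hT : ∀ s ∈ S, To H w s ∈ S) (hN : ∀ s ∈ S, No H w s ∈ S) :
    ∀ m ∈ ext H w S, Lo H w m ∈ ext H w S := by
  intro m hm
  obtain ⟨s, hs, t, ht, rfl⟩ := (mem_ext H w S m).mp hm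
  rw [mem_ext]
  refine ⟨- No H w t, S.neg_mem (hN t ht), s + To H w t, S.add_mem hs (hT t ht), ?_⟩
  have h := DFunLike.congr_fun (Lo_sq H w) t
  have h2 := DFunLike.congr_fun (To_Lo H w w) t
  change Lo H w (Lo H w t) = To H w (Lo H w t) - No H w t at h
  change To H w (Lo H w t) = Lo H w (To H w t) at h2
  rw [map_add, map_add, h, h2]
  abel

theorem ext_closed_other (w v : B) (S : AddSubgroup M)
    (hT : ∀ s ∈ S, To H w s ∈ S) (hT' : ∀ s ∈ S, To H v s ∈ S) (hN : ∀ s ∈ S, NNo H v w s ∈ S)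
    (hL : ∀ s ∈ S, Lo H v s ∈ S) :
    ∀ m ∈ ext H w S, Lo H v m ∈ ext H w S := by
  intro m hm
  obtain ⟨s, hs, t, ht, rfl⟩ := (mem_ext H w S m).mp hm
  rw [mem_ext]
  refine ⟨Lo H v s + Lo H v (To H w t) - NNo H v w t,
    S.sub_mem (S.add_mem (hL s hs) (hL _ (hT t ht))) (hN t ht),
    To H v t - Lo H v t, S.sub_mem (hT' t ht) (hL t ht), ?_⟩
  have h := DFunLike.congr_fun (Lo_Lo H v w) t
  have h2 := DFunLike.congr_fun (To_Lo H v w) t
  have h3 := DFunLike.congr_fun (To_Lo H w v) t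
  change Lo H v (Lo H w t) = To H v (Lo H w t) + To H w (Lo H v t) - NNo H v w t
    - Lo H w (Lo H v t) at h
  change To H v (Lo H w t) = Lo H w (To H v t) at h2
  change To H w (Lo H v t) = Lo H v (To H w t) at h3
  rw [map_add, map_sub, h, h2, h3]
  abel

/-- The spanning theorem. -/
theorem span_thm (X : Fin 3 → B) (a : M)
    (Ψ : MvPolynomial (Fin 9) ℤ →+* AddMonoid.End M) (hΨ : ∀ i, Ψ (MvPolynomial.X i) = Th H X i)
    (gen : ∀ S : AddSubgroup M, a ∈ S → (∀ m ∈ S, ∀ i, Lo H (X i) m ∈ S ∧ Ro H (X i) m ∈ S) →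
      ∀ m, m ∈ S) (m : M) :
    ∃ P : Fin 8 → MvPolynomial (Fin 9) ℤ, m =
      (((Ψ (P 0)) a + Lo H (X 2) ((Ψ (P 1)) a)) + Lo H (X 1) ((Ψ (P 2)) a
        + Lo H (X 2) ((Ψ (P 3)) a))) + Lo H (X 0) (((Ψ (P 4)) a + Lo H (X 2) ((Ψ (P 5)) a))
        + Lo H (X 1) ((Ψ (P 6)) a + Lo H (X 2) ((Ψ (P 7)) a))) := by
  let S0 : AddSubgroup M := (⊤ : AddSubgroup (MvPolynomial (Fin 9) ℤ)).map
    ((AddMonoidHom.eval a).comp Ψ.toAddMonoidHom)
  have hS0 : ∀ m, m ∈ S0 ↔ ∃ P, m = Ψ P a := by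
    intro m
    constructor
    · rintro ⟨P, _, rfl⟩; exact ⟨P, rfl⟩
    · rintro ⟨P, rfl⟩; exact ⟨P, trivial, rfl⟩
  have st0 : Stable H X S0 := by
    intro i s hs
    obtain ⟨P, rfl⟩ := (hS0 s).mp hs
    rw [hS0]
    refine ⟨MvPolynomial.X i * P, ?_⟩
    rw [map_mul, hΨ]
    rfl
  let S1 := ext H (X 2) S0
  have st1 : Stable H X S1 := ext_stable H X (X 2) S0 st0
  let S2 := ext H (X 1) S1
  have st2 : Stable H X S2 := ext_stable H X (X 1) S1 st1
  let S3 := ext H (X 0) S2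
  have st3 : Stable H X S3 := ext_stable H X (X 0) S2 st2
  have c1 : ∀ m ∈ S1, Lo H (X 2) m ∈ S1 := ext_closed_self H (X 2) S0 (st0 5) (st0 6)
  have c2 : ∀ m ∈ S2, Lo H (X 2) m ∈ S2 := by
    refine ext_closed_other H (X 1) (X 2) S1 (st1 2) (st1 5) ?_ c1
    intro s hs
    have : NNo H (X 2) (X 1) = NNo H (X 1) (X 2) := by unfold NNo; abel
    rw [this]
    exact st1 8 s hs
  have c2' : ∀ m ∈ S2, Lo H (X 1) m ∈ S2 := ext_closed_self H (X 1) S1 (st1 2) (st1 3)
  have c3 : ∀ m ∈ S3, Lo H (X 2) m ∈ S3 := by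
    refine ext_closed_other H (X 0) (X 2) S2 (st2 0) (st2 5) ?_ c2
    intro s hs
    have : NNo H (X 2) (X 0) = NNo H (X 0) (X 2) := by unfold NNo; abel
    rw [this]
    exact st2 7 s hs
  have c3' : ∀ m ∈ S3, Lo H (X 1) m ∈ S3 := by
    refine ext_closed_other H (X 0) (X 1) S2 (st2 0) (st2 2) ?_ c2'
    intro s hs
    have : NNo H (X 1) (X 0) = NNo H (X 0) (X 1) := by unfold NNo; abel
    rw [this]
    exact st2 4 s hs
  have c3'' : ∀ m ∈ S3, Lo H (X 0) m ∈ S3 := ext_closed_self H (X 0) S2 (st2 0) (st2 1)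
  have hmem : m ∈ S3 := by
    refine gen S3 ?_ ?_ m
    · refine AddSubgroup.mem_sup_left (AddSubgroup.mem_sup_left (AddSubgroup.mem_sup_left ?_))
      rw [hS0]
      exact ⟨1, by rw [map_one]; rfl⟩
    · intro m hm i
      have hL : Lo H (X i) m ∈ S3 := by
        fin_cases i
        · exact c3'' m hm
        · exact c3' m hm
        · exact c3 m hm
      refine ⟨hL, ?_⟩
      have hT : To H (X i) m ∈ S3 := by
        fin_cases i
        · exact st3 0 m hm
        · exact st3 2 m hm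
        · exact st3 5 m hm
      rw [Ro_eq]
      exact S3.sub_mem hT hL
  obtain ⟨s, hs, t, ht, rfl⟩ := (mem_ext H _ _ _).mp hmem
  obtain ⟨s1, hs1, t1, ht1, rfl⟩ := (mem_ext H _ _ _).mp hs
  obtain ⟨s2, hs2, t2, ht2, rfl⟩ := (mem_ext H _ _ _).mp ht
  obtain ⟨s3, hs3, t3, ht3, rfl⟩ := (mem_ext H _ _ _).mp hs1
  obtain ⟨s4, hs4, t4, ht4, rfl⟩ := (mem_ext H _ _ _).mp ht1
  obtain ⟨s5, hs5, t5, ht5, rfl⟩ := (mem_ext H _ _ _).mp hs2
  obtain ⟨s6, hs6, t6, ht6, rfl⟩ := (mem_ext H _ _ _).mp ht2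
  obtain ⟨p0, rfl⟩ := (hS0 _).mp hs3
  obtain ⟨p1, rfl⟩ := (hS0 _).mp ht3
  obtain ⟨p2, rfl⟩ := (hS0 _).mp hs4
  obtain ⟨p3, rfl⟩ := (hS0 _).mp ht4
  obtain ⟨p4, rfl⟩ := (hS0 _).mp hs5
  obtain ⟨p5, rfl⟩ := (hS0 _).mp ht5
  obtain ⟨p6, rfl⟩ := (hS0 _).mp hs6
  obtain ⟨p7, rfl⟩ := (hS0 _).mp ht6
  exact ⟨![p0, p1, p2, p3, p4, p5, p6, p7], rfl⟩

end

end

end Pool.Agent.Helper74
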