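import Pool.Agent.Helper74.Gr

set_option autoImplicit false
set_option linter.unusedSimpArgs false
set_option linter.unusedSectionVars false

namespace Pool.Agent.Helper74

theorem fin3_pigeon : ∀ s p q r : Fin 3,
    p = q ∨ q = r ∨ p = r ∨ s = p ∨ s = q ∨ s = r := by decide

section

variable {A : Type*} [NonUnitalNonAssocRing A] [IsAlt A] {X : Fin 3 → A}
  {W D : ℕ → AddSubgroup A}

/-- all associators of total degree `< n` vanish -/
def LowT3 (W : ℕ → AddSubgroup A) (n : ℕ) : Prop :=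
  ∀ i j k, i + j + k < n → ∀ u ∈ W i, ∀ v ∈ W j, ∀ w ∈ W k, as u v w = 0

theorem T3_kf_eq {n : ℕ} (low : LowT3 W n) (i j k l : ℕ) (hi : 0 < i) (hj : 0 < j)
    (hn : i + j + k + l = n) (u v w t : A) (hu : u ∈ W i) (hv : v ∈ W j) (hw : w ∈ W k)
    (ht : t ∈ W l) : kf u v w t = as (u * v) w t := by
  unfold kf
  rw [low i k l (by omega) u hu w hw t ht, low j k l (by omega) v hv w hw t ht]
  simp

theorem T3_gamma (H : Gr A X W D) {n : ℕ} (low : LowT3 W n) (i j1 j2 k l : ℕ) (hi : 0 < i)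
    (hj1 : 0 < j1) (hj2 : 0 < j2) (hk : 0 < k)
    (hn : i + (j1 + j2) + k + l = n) (u v1 v2 w t : A) (hu : u ∈ W i) (hv1 : v1 ∈ W j1)
    (hv2 : v2 ∈ W j2) (hw : w ∈ W k)
    (ht : t ∈ W l) : kf u (v1 * v2) w t = kf (u * v1) v2 w t := by
  rw [T3_kf_eq low i (j1 + j2) k l hi (by omega) hn u _ w t hu (H.W_mul _ _ _ _ hv1 hv2) hw ht,
    T3_kf_eq low (i + j1) j2 k l (by omega) (by omega) (by omega) _ _ w t
      (H.W_mul _ _ _ _ hu hv1) hv2 hw ht]
  have := low i j1 j2 (by omega) u hu v1 hv1 v2 hv2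
  rw [sub_eq_zero.mp this]

theorem T3_beta (H : Gr A X W D) {n : ℕ} (low : LowT3 W n) (i j k l : ℕ) (hi : 0 < i)
    (hk : 0 < k) (hl : 0 < l)
    (hn : i + (j + i) + k + l = n) (u v w t : A) (hu : u ∈ W i) (hv : v ∈ W j)
    (hw : w ∈ W k) (ht : t ∈ W l) : kf u (v * u) w t = 0 := by
  rw [← kf_cyc2, T3_kf_eq low k l i (j + i) hk hl (by omega) w t u _ hw ht hu
    (H.W_mul _ _ _ _ hv hu)]
  rw [as_cyc2 u (v * u) (w * t), as_swap23 u (w * t) (v * u), as_mulR,
    low i (k + l) j (by omega) u hu _ (H.W_mul _ _ _ _ hw ht) v hv, mul_zero, neg_zero]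

/-- reduction of the second argument to letters -/
theorem T3_red (H : Gr A X W D) {n : ℕ} (low : LowT3 W n) (k l : ℕ) (hk : 0 < k)
    (w t : A) (hw : w ∈ W k) (ht : t ∈ W l)
    (h : ∀ i, 0 < i → i + 1 + k + l = n → ∀ u ∈ W i, ∀ p, kf u (X p) w t = 0) :
    ∀ j i, 0 < i → 0 < j → i + j + k + l = n → ∀ u ∈ W i, ∀ v ∈ W j, kf u v w t = 0 := by
  intro j
  induction j using Nat.strong_induction_on with
  | _ j ih =>
    intro i hi hj hn u hu
    refine H.W_rec (fun v => kf u v w t) (fun a b => kf_add2 _ _ _ _ _) j ?_ ?_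
    · rintro rfl p
      exact h i hi hn u hu p
    · intro j1 j2 hj1 hj2 hjj v1 hv1 v2 hv2
      show kf u (v1 * v2) w t = 0
      rw [T3_gamma H low i j1 j2 k l hi hj1 hj2 hk (by omega) u v1 v2 w t hu hv1 hv2 hw ht]
      exact ih j2 (by omega) (i + j1) (by omega) hj2 (by omega) _ (H.W_mul _ _ _ _ hu hv1) v2 hv2

theorem T3_B0 (H : Gr A X W D) {n : ℕ} (low : LowT3 W n) (i : ℕ)
    (hn : i + 4 = n) (u : A) (hu : u ∈ W i) (s q r : Fin 3) :
    kf (u * X s) (X s) (X q) (X r) = 0 := by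
  rw [kf_swap12, T3_beta H low 1 i 1 1 (by omega) (by omega) (by omega) (by omega) (X s) u (X q)
    (X r) (H.X_mem s) hu (H.X_mem q) (H.X_mem r), neg_zero]

theorem T3_B1 (H : Gr A X W D) {n : ℕ} (low : LowT3 W n) (i : ℕ)
    (hn : i + 4 = n) (u : A) (hu : u ∈ W i) (s p q r : Fin 3) :
    kf (u * X s) (X p) (X q) (X r) = 0 := by
  have key := fin3_pigeon s p q r
  rcases key with h | h | h | h | h | h
  · subst h; exact kf_zero23 _ _ _
  · subst h; exact kf_zero34 _ _ _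
  · subst h; exact kf_zero24 _ _ _
  · subst h; exact T3_B0 H low i hn u hu _ _ _
  · subst h; rw [kf_swap23, T3_B0 H low i hn u hu _ _ _, neg_zero]
  · subst h; rw [kf_swap24, T3_B0 H low i hn u hu _ _ _, neg_zero]

theorem T3_stage1 (H : Gr A X W D) {n : ℕ} (low : LowT3 W n) (i : ℕ)
    (hn : i + 3 = n) (p q r : Fin 3) : ∀ u ∈ W i, kf u (X p) (X q) (X r) = 0 := by
  have claim : ∀ j i, 0 < i → 0 < j → i + j + 3 = n → ∀ u ∈ W i, ∀ v ∈ W j,
      kf (u * v) (X p) (X q) (X r) = 0 := by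
    intro j
    induction j using Nat.strong_induction_on with
    | _ j ih =>
      intro i hi hj hn u hu
      refine H.W_rec (fun v => kf (u * v) (X p) (X q) (X r))
        (fun a b => by rw [mul_add, kf_add1]) j ?_ ?_
      · rintro rfl s
        exact T3_B1 H low i (by omega) u hu s p q r
      · intro j1 j2 hj1 hj2 hjj v1 hv1 v2 hv2
        show kf (u * (v1 * v2)) (X p) (X q) (X r) = 0
        have := low i j1 j2 (by omega) u hu v1 hv1 v2 hv2
        rw [← sub_eq_zero.mp this]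
        exact ih j2 (by omega) (i + j1) (by omega) hj2 (by omega) _ (H.W_mul _ _ _ _ hu hv1) v2 hv2
  refine H.W_rec (fun u => kf u (X p) (X q) (X r)) (fun a b => kf_add1 _ _ _ _ _) i ?_ ?_
  · rintro rfl s
    show kf (X s) (X p) (X q) (X r) = 0
    have key := fin3_pigeon s p q r
    rcases key with h | h | h | h | h | h
    · subst h; exact kf_zero23 _ _ _
    · subst h; exact kf_zero34 _ _ _
    · subst h; exact kf_zero24 _ _ _
    · subst h; exact kf_zero12 _ _ _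
    · subst h; exact kf_zero13 _ _ _
    · subst h; exact kf_zero14 _ _ _
  · intro j1 j2 hj1 hj2 hjj v1 hv1 v2 hv2
    exact claim j2 j1 hj1 hj2 (by omega) v1 hv1 v2 hv2

theorem T3_stage4 (H : Gr A X W D) {n : ℕ} (low : LowT3 W n) (i j k l : ℕ) (hi : 0 < i)
    (hj : 0 < j) (hk : 0 < k) (hl : 0 < l)
    (hn : i + j + k + l = n) (u v w t : A) (hu : u ∈ W i) (hv : v ∈ W j) (hw : w ∈ W k)
    (ht : t ∈ W l) : kf u v w t = 0 := by
  -- stage 2
  have s2 : ∀ i j, 0 < i → 0 < j → i + j + 1 + 1 = n → ∀ u ∈ W i, ∀ v ∈ W j, ∀ q r,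
      kf u v (X q) (X r) = 0 := by
    intro i j hi hj hn u hu v hv q r
    exact T3_red H low 1 1 (by omega) (X q) (X r) (H.X_mem q) (H.X_mem r)
      (fun i hi hn u hu p => T3_stage1 H low i (by omega) p q r u hu) j i hi hj hn u hu v hv
  have s3 : ∀ i j k, 0 < i → 0 < j → 0 < k → i + j + k + 1 = n → ∀ u ∈ W i, ∀ v ∈ W j, ∀ w ∈ W k,
      ∀ r, kf u v w (X r) = 0 := by
    intro i j k hi hj hk hn u hu v hv w hw r
    rw [kf_swap23 u w v (X r), T3_red H low j 1 hj v (X r) hv (H.X_mem r)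
      (fun i hi hn u hu p => by
        rw [kf_swap23, s2 i j hi hj (by omega) u hu v hv p r, neg_zero]) k i hi hk (by omega)
        u hu w hw, neg_zero]
  have h4 := T3_red H low j k hj v w hv hw
      (fun i hi hn u hu p => by
        rw [kf_swap23 u v (X p) w, kf_swap34 u v w (X p),
          s3 i j k hi hj hk (by omega) u hu v hv w hw p]; simp) l i hi hl (by omega)
        u hu t ht
  rw [kf_swap34 u v t w, kf_swap23 u t v w, h4]; simp

theorem T3_ge2 (H : Gr A X W D) {n : ℕ} (low : LowT3 W n) (i j k : ℕ) (hi : 2 ≤ i)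
    (hj : 0 < j) (hk : 0 < k) (hn : i + j + k = n) (u v w : A) (hu : u ∈ W i) (hv : v ∈ W j)
    (hw : w ∈ W k) : as u v w = 0 := by
  refine H.W_ind' i hi (fun u => as u v w) (fun a b => as_add1 _ _ _ _) ?_ u hu
  intro i1 i2 hi1 hi2 hii u1 hu1 u2 hu2
  show as (u1 * u2) v w = 0
  rw [← T3_kf_eq low i1 i2 j k hi1 hi2 (by omega) u1 u2 v w hu1 hu2 hv hw]
  exact T3_stage4 H low i1 i2 j k hi1 hi2 hj hk (by omega) u1 u2 v w hu1 hu2 hv hw

theorem T3_step (H : Gr A X W D) (ha : as (X 0) (X 1) (X 2) = 0) {n : ℕ} (low : LowT3 W n)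
    (i j k : ℕ) (hn : i + j + k = n) (u v w : A) (hu : u ∈ W i) (hv : v ∈ W j)
    (hw : w ∈ W k) : as u v w = 0 := by
  by_cases hu0 : u = 0
  · rw [hu0, as_zero1]
  by_cases hv0 : v = 0
  · rw [hv0, as_zero2]
  by_cases hw0 : w = 0
  · rw [hw0, as_zero3]
  have hi := H.W_pos hu hu0
  have hj := H.W_pos hv hv0
  have hk := H.W_pos hw hw0
  by_cases hi2 : 2 ≤ i
  · exact T3_ge2 H low i j k hi2 hj hk hn u v w hu hv hw
  by_cases hj2 : 2 ≤ j
  · rw [as_swap12 v u w, T3_ge2 H low j i k hj2 hi hk (by omega) v u w hv hu hw, neg_zero]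
  by_cases hk2 : 2 ≤ k
  · rw [as_cyc w u v, T3_ge2 H low k i j hk2 hi hj (by omega) w u v hw hu hv]
  have hi1 : i = 1 := by omega
  have hj1 : j = 1 := by omega
  have hk1 : k = 1 := by omega
  subst hi1 hj1 hk1
  refine H.W_one' (fun u => as u v w) (fun a b => as_add1 _ _ _ _) (fun p => ?_) u hu
  refine H.W_one' (fun v => as (X p) v w) (fun a b => as_add2 _ _ _ _) (fun q => ?_) v hv
  refine H.W_one' (fun w => as (X p) (X q) w) (fun a b => as_add3 _ _ _ _) (fun r => ?_) w hw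
  have := as_letters X ⊥ (by rw [ha]; exact AddSubgroup.zero_mem _) p q r
  exact (AddSubgroup.mem_bot).mp this

/-- Artin type theorem: if the letters associate, then everything associates. -/
theorem T3 (H : Gr A X W D) (ha : as (X 0) (X 1) (X 2) = 0) (i j k : ℕ) (u v w : A)
    (hu : u ∈ W i) (hv : v ∈ W j) (hw : w ∈ W k) : as u v w = 0 := by
  have : ∀ n, ∀ i j k, i + j + k = n → ∀ u ∈ W i, ∀ v ∈ W j, ∀ w ∈ W k, as u v w = 0 := by
    intro n
    induction n using Nat.strong_induction_on with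
    | _ n ih =>
      intro i j k hn u hu v hv w hw
      refine T3_step H ha (n := n) ?_ i j k hn u v w hu hv hw
      intro i j k hlt u hu v hv w hw
      exact ih _ hlt i j k rfl u hu v hv w hw
  exact this _ i j k rfl u hu v hv w hw

end

end Pool.Agent.Helper74
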